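import Pool.Agent.K7.H86.QC.Seq

/-! Volume bound, concentration, and blow-up on the critical plane. -/

set_option autoImplicit false

open MeasureTheory Set Filter Topology Metric
open scoped ContDiff Laplacian InnerProductSpace ENNReal

namespace Pool.Agent.K7.H86.QC

section
variable {P : Finset E} {ρ M : ℝ}

lemma Db_Gr {m : ℝ} (hm : 0 < m) (p : E) (N : ℕ) : Gr N (-6) (Db P m p) := by
  unfold Db
  have h1 := Gr.inv_Q (rr_pos P hm p) p N
  have h2 := ((h1.mul h1).mul (h1.mul h1)).const_smul (96 * rr P m p ^ 4)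
  have h3 := h2.mono le_rfl (show (-2 + -2 + (-2 + -2) : ℝ) ≤ -6 by norm_num)
  have h4 : (fun x : E => 96 * rr P m p ^ 4 * ((Q (rr P m p) p x)⁻¹) ^ 4)
      = fun x => (96 * rr P m p ^ 4) • ((Q (rr P m p) p x)⁻¹ * (Q (rr P m p) p x)⁻¹ *
        ((Q (rr P m p) p x)⁻¹ * (Q (rr P m p) p x)⁻¹)) := by
    ext x
    simp only [smul_eq_mul]
    ring
  rw [h4]
  exact h3

lemma Db_integrable {m : ℝ} (hm : 0 < m) (p : E) : Integrable (Db P m p) :=
  (Db_Gr hm p 0).integrable (by norm_num)

lemma Db_nonneg {m : ℝ} (hm : 0 < m) (p x : E) : 0 ≤ Db P m p x := by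
  unfold Db
  have := Q_pos (rr_pos P hm p) p x
  positivity

lemma Db_integral {m : ℝ} (hm : 0 < m) (p : E) : ∫ x, Db P m p x = 16 * Real.pi ^ 2 := by
  have h := subst_bub (rr_pos P hm p) (fun _ => 1) p
  simp only [mul_one] at h
  rw [bub_integral] at h
  exact h

lemma D0_eq (m : ℝ) (x : E) : D0 P m x = ∑ p ∈ P, Db P m p x := rfl

lemma D0_integrable {m : ℝ} (hm : 0 < m) : Integrable (D0 P m) :=
  (D0_Gr P hm 0).integrable (by norm_num)

lemma D0_integral {m : ℝ} (hm : 0 < m) : ∫ x, D0 P m x = P.card * (16 * Real.pi ^ 2) := by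
  simp_rw [D0_eq]
  rw [integral_finset_sum _ fun p _ => Db_integrable hm p]
  simp_rw [Db_integral hm]
  simp

/-- the total volume stays bounded -/
lemma vol_bound (h : Cfg P ρ M) : ∃ C : ℝ, ∀ᶠ n in atTop,
    ∫⁻ x in Om, ENNReal.ofReal (Real.exp (4 * uu P n x)) ≤ ENNReal.ofReal C := by
  obtain ⟨C1, hC1, hb⟩ := fn_small h
  obtain ⟨C3, hC3, h3⟩ := far_F0 h
  have hG := Psi_good P (h.rho_le.trans (by norm_num))
  have hΨi := hG.integrable
  refine ⟨Real.exp (2 + M) * (P.card * (16 * Real.pi ^ 2)) + Real.exp (2 + M) * C1 * (∫ x, Psi P ρ x)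
    + 2 * C3 * Real.exp 4 * ∫ x, HH x, ?_⟩
  filter_upwards [hb, ww_small h (ε := 1 / 4) (by norm_num),
    rate_tendsto.eventually_le_const (show (0 : ℝ) < 1 by norm_num)] with n hn hw hrate
  have hm := mm_one n
  have hm0 := mm_pos n
  set W : E → ℝ := fun x => Real.exp (2 + M) * D0 P (mm n) x + Real.exp (2 + M) * C1 * Psi P ρ x
    + 2 * C3 * Real.exp 4 * HH x with hW
  have hWi : Integrable W :=
    (((D0_integrable hm0).const_mul _).add (hΨi.const_mul _)).add (HH_int.const_mul _)
  have hD0n : ∀ x, 0 ≤ D0 P (mm n) x := fun x => by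
    rw [D0_eq]; exact Finset.sum_nonneg fun p _ => Db_nonneg hm0 p x
  have hWn : ∀ x, 0 ≤ W x := fun x => by
    have h1 := hD0n x
    have h2 := hG.nonneg x
    have h3 := HH_nonneg x
    rw [hW]; positivity
  have hpt : ∀ᵐ x : E, x ∈ Om → Real.exp (4 * uu P n x) ≤ W x := by
    filter_upwards [ae_good P] with x hx hO
    have e1 : Real.exp (4 * uu P n x) ≤ F0 P (mm n) x * Real.exp (1 + ‖x‖) := by
      have : 4 * uu P n x = 4 * u0 P (mm n) x + 4 * ww P n x := by unfold uu; ring
      rw [this, Real.exp_add]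
      unfold F0
      gcongr
      have := (abs_le.1 (hw x)).2
      linarith
    refine e1.trans ?_
    have hF : 0 ≤ F0 P (mm n) x := (Real.exp_pos _).le
    by_cases hnear : ∃ p ∈ P, ‖x - p‖ < ρ
    · obtain ⟨p, hp, hxp⟩ := hnear
      have e2 := (hn x hx.1 hx.2).2 hO
      have e3 : F0 P (mm n) x ≤ D0 P (mm n) x + C1 * Psi P ρ x := by
        have e4 := (abs_le.1 e2).2
        have e5 : C1 * rate (mm n) * Psi P ρ x ≤ C1 * 1 * Psi P ρ x := by
          have := hG.nonneg x
          gcongr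
        linarith
      have e4 : Real.exp (1 + ‖x‖) ≤ Real.exp (2 + M) := by
        apply Real.exp_le_exp.2
        have : ‖x‖ ≤ ‖x - p‖ + ‖p‖ := by
          calc ‖x‖ = ‖(x - p) + p‖ := by congr 1; abel
            _ ≤ _ := norm_add_le _ _
        have := h.bdd p hp
        have := h.rho_le
        linarith
      have e5 := HH_nonneg x
      calc F0 P (mm n) x * Real.exp (1 + ‖x‖)
          ≤ (D0 P (mm n) x + C1 * Psi P ρ x) * Real.exp (2 + M) := by
            apply mul_le_mul e3 e4 (Real.exp_pos _).le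
            exact hF.trans e3
        _ = Real.exp (2 + M) * D0 P (mm n) x + Real.exp (2 + M) * C1 * Psi P ρ x + 0 := by ring
        _ ≤ W x := by
            rw [hW]
            have : 0 ≤ 2 * C3 * Real.exp 4 * HH x := by positivity
            simp only
            linarith
    · push Not at hnear
      have e2 := h3 (mm n) hm x hO hx.2 hnear
      have hBe : Bp x = th (x 0) * Real.exp (4 * qq x) := by
        unfold Bp
        rw [indicator_of_mem hO]
      rw [← hBe] at e2
      have e3 : ((mm n) ^ 4)⁻¹ ≤ 1 := inv_le_one_of_one_le₀ (one_le_pow₀ hm)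
      have e4 := Bp_exp x
      have e5 := Bp_nonneg x
      calc F0 P (mm n) x * Real.exp (1 + ‖x‖)
          ≤ (C3 * ((mm n) ^ 4)⁻¹ * Bp x) * Real.exp (1 + ‖x‖) := by gcongr
        _ ≤ (C3 * 1 * Bp x) * Real.exp (1 + ‖x‖) := by gcongr
        _ = C3 * (Bp x * Real.exp (1 + ‖x‖)) := by ring
        _ ≤ C3 * (2 * Real.exp 4 * HH x) := by gcongr
        _ = 0 + 0 + 2 * C3 * Real.exp 4 * HH x := by ring
        _ ≤ W x := by
            rw [hW]
            have h1 := hD0n x
            have h2 := hG.nonneg x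
            have : 0 ≤ Real.exp (2 + M) * D0 P (mm n) x := by positivity
            have : 0 ≤ Real.exp (2 + M) * C1 * Psi P ρ x := by positivity
            simp only
            linarith
  calc ∫⁻ x in Om, ENNReal.ofReal (Real.exp (4 * uu P n x))
      ≤ ∫⁻ x in Om, ENNReal.ofReal (W x) := by
        apply setLIntegral_mono_ae' Om_open.measurableSet
        filter_upwards [hpt] with x hx hO
        exact ENNReal.ofReal_le_ofReal (hx hO)
    _ ≤ ∫⁻ x, ENNReal.ofReal (W x) := setLIntegral_le_lintegral _ _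
    _ = ENNReal.ofReal (∫ x, W x) := (ofReal_integral_eq_lintegral_ofReal hWi (ae_of_all _ hWn)).symm
    _ = _ := by
        congr 1
        have i1 : Integrable (fun x => Real.exp (2 + M) * D0 P (mm n) x) := (D0_integrable hm0).const_mul _
        have i2 : Integrable (fun x => Real.exp (2 + M) * C1 * Psi P ρ x) := hΨi.const_mul _
        have i3 : Integrable (fun x => 2 * C3 * Real.exp 4 * HH x) := HH_int.const_mul _
        have i12 : Integrable (fun x => Real.exp (2 + M) * D0 P (mm n) x + Real.exp (2 + M) * C1 * Psi P ρ x) :=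
          i1.add i2
        rw [hW, integral_add i12 i3, integral_add i1 i2, integral_const_mul, integral_const_mul,
          integral_const_mul, D0_integral hm0]

/-! ### concentration -/

lemma dec8_int : Integrable dec8 := dec8_good.integrable

lemma Db_far_int (h : Cfg P ρ M) {p : E} (hp : p ∈ P) {η : ℝ} (hη : 0 < η) {S : Set E}
    (hS : MeasurableSet S) (hSf : ∀ x ∈ S, η ≤ ‖x - p‖) :
    Tendsto (fun n => ∫ x in S, Db P (mm n) p x) atTop (𝓝 0) := by
  obtain ⟨C, hC, hb⟩ := far_bubble' h hη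
  have h1 : Tendsto (fun n => C * kap (mm n) ^ 4 * ∫ x, dec8 x) atTop (𝓝 (C * 0 ^ 4 * ∫ x, dec8 x)) :=
    (((kap_tendsto.comp mm_top).pow 4).const_mul C).mul_const _
  norm_num at h1
  refine squeeze_zero (fun n => setIntegral_nonneg hS fun x _ => Db_nonneg (mm_pos n) p x) (fun n => ?_) h1
  rw [← integral_const_mul]
  calc ∫ x in S, Db P (mm n) p x ≤ ∫ x in S, C * kap (mm n) ^ 4 * dec8 x := by
        apply setIntegral_mono_on (Db_integrable (mm_pos n) p).integrableOn
          (dec8_int.const_mul _).integrableOn hS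
        intro x hx
        exact hb (mm n) (mm_one n) p hp x (hSf x hx)
    _ ≤ ∫ x, C * kap (mm n) ^ 4 * dec8 x := by
        apply setIntegral_le_integral (dec8_int.const_mul _)
        refine ae_of_all _ fun x => ?_
        have := dec8_pos x
        have := kap_pos (mm_pos n)
        simp only [Pi.zero_apply]
        positivity

lemma integral_split (n : ℕ) (x : E) (r : ℝ) :
    ∫ y in ball x r, VV P n y * Real.exp (4 * uu P n y)
      = (∫ y in ball x r, fn P n y) + ∑ p ∈ P, ∫ y in ball x r, Db P (mm n) p y := by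
  simp_rw [V_exp]
  have h1 : ∀ y, chi n y * F0 P (mm n) y = fn P n y + D0 P (mm n) y := fun y => by
    unfold fn; ring
  simp_rw [h1]
  have hf : Integrable (fn P n) := (fn_Gr P n 0).integrable (by norm_num)
  rw [integral_add hf.integrableOn (D0_integrable (mm_pos n)).integrableOn]
  congr 1
  simp_rw [D0_eq]
  rw [integral_finset_sum _ fun p _ => (Db_integrable (mm_pos n) p).integrableOn]

lemma fn_ball (h : Cfg P ρ M) (x : E) (r : ℝ) :
    Tendsto (fun n => ∫ y in ball x r, fn P n y) atTop (𝓝 0) := by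
  apply squeeze_zero_norm _ (fn_L1 h)
  intro n
  have hf : Integrable (fn P n) := (fn_Gr P n 0).integrable (by norm_num)
  calc ‖∫ y in ball x r, fn P n y‖ ≤ ∫ y in ball x r, ‖fn P n y‖ := norm_integral_le_integral_norm _
    _ ≤ ∫ y, ‖fn P n y‖ := setIntegral_le_integral hf.norm (ae_of_all _ fun y => norm_nonneg _)
    _ = _ := rfl

/-- no concentration off the points of `P` -/
lemma conc_off (h : Cfg P ρ M) {x : E} (hx : x ∉ P) : ∃ r0 : ℝ, 0 < r0 ∧ ∀ r, 0 < r → r < r0 →
    Tendsto (fun n => ∫ y in ball x r, VV P n y * Real.exp (4 * uu P n y)) atTop (𝓝 0) := by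
  have hopen : IsOpen ((P : Set E)ᶜ) := P.finite_toSet.isClosed.isOpen_compl
  obtain ⟨r1, hr1, hb⟩ := Metric.isOpen_iff.1 hopen x (by simpa using hx)
  refine ⟨r1 / 2, by positivity, fun r hr0 hr => ?_⟩
  have hfar : ∀ p ∈ P, ∀ y ∈ ball x r, r1 / 2 ≤ ‖y - p‖ := by
    intro p hp y hy
    have h1 : r1 ≤ ‖x - p‖ := by
      by_contra hc
      push Not at hc
      have : p ∈ ball x r1 := by
        rw [mem_ball, dist_comm, dist_eq_norm]; exact hc
      exact hb this hp
    rw [mem_ball, dist_eq_norm] at hy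
    have h2 : ‖x - p‖ ≤ ‖y - x‖ + ‖y - p‖ := by
      calc ‖x - p‖ = ‖-(y - x) + (y - p)‖ := by congr 1; abel
        _ ≤ ‖-(y - x)‖ + ‖y - p‖ := norm_add_le _ _
        _ = _ := by rw [norm_neg]
    linarith
  have h1 : Tendsto (fun n => (∫ y in ball x r, fn P n y) + ∑ p ∈ P, ∫ y in ball x r, Db P (mm n) p y)
      atTop (𝓝 (0 + ∑ p ∈ P, (0 : ℝ))) :=
    (fn_ball h x r).add (tendsto_finset_sum _ fun p hp =>
      Db_far_int h hp (by positivity) measurableSet_ball (hfar p hp))
  simp only [Finset.sum_const_zero, add_zero] at h1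
  exact h1.congr fun n => (integral_split n x r).symm

/-- concentration of the mass `16 π²` at the points of `P` -/
lemma conc_on (h : Cfg P ρ M) {p : E} (hp : p ∈ P) : ∃ r0 : ℝ, 0 < r0 ∧ ∀ r, 0 < r → r < r0 →
    Tendsto (fun n => ∫ y in ball p r, VV P n y * Real.exp (4 * uu P n y)) atTop
      (𝓝 (16 * Real.pi ^ 2)) := by
  classical
  refine ⟨ρ, h.rho_pos, fun r hr0 hr => ?_⟩
  have hfar : ∀ j ∈ P.erase p, ∀ y ∈ ball p r, ρ ≤ ‖y - j‖ := by
    intro j hj y hy
    rw [Finset.mem_erase] at hj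
    have hs := h.sep p hp j hj.2 (Ne.symm hj.1)
    rw [mem_ball, dist_eq_norm] at hy
    have h2 : ‖p - j‖ ≤ ‖y - p‖ + ‖y - j‖ := by
      calc ‖p - j‖ = ‖-(y - p) + (y - j)‖ := by congr 1; abel
        _ ≤ ‖-(y - p)‖ + ‖y - j‖ := norm_add_le _ _
        _ = _ := by rw [norm_neg]
    have := h.rho_pos
    linarith
  have hself : Tendsto (fun n => ∫ y in ball p r, Db P (mm n) p y) atTop (𝓝 (16 * Real.pi ^ 2)) := by
    have h1 := Db_far_int h hp hr0 (S := (ball p r)ᶜ) measurableSet_ball.compl (fun y hy => by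
      rw [mem_compl_iff, mem_ball, dist_eq_norm, not_lt] at hy
      exact hy)
    have h2 := h1.const_sub (16 * Real.pi ^ 2)
    rw [sub_zero] at h2
    refine h2.congr fun n => ?_
    have h3 := integral_add_compl (measurableSet_ball (x := p) (ε := r)) (Db_integrable (P := P) (mm_pos n) p)
    rw [Db_integral (mm_pos n)] at h3
    linarith
  have h1 : Tendsto (fun n => (∫ y in ball p r, fn P n y) + ((∫ y in ball p r, Db P (mm n) p y)
      + ∑ j ∈ P.erase p, ∫ y in ball p r, Db P (mm n) j y))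
      atTop (𝓝 (0 + (16 * Real.pi ^ 2 + ∑ j ∈ P.erase p, (0 : ℝ)))) :=
    (fn_ball h p r).add (hself.add (tendsto_finset_sum _ fun j hj =>
      Db_far_int h (Finset.mem_of_mem_erase hj) h.rho_pos measurableSet_ball (hfar j hj)))
  simp only [Finset.sum_const_zero, add_zero, zero_add] at h1
  refine h1.congr fun n => ?_
  rw [integral_split n p r, ← Finset.add_sum_erase P _ hp]

/-! ### blow-up on the critical plane -/

lemma blowup (h : Cfg P ρ M) {K : Set E} (hK : IsCompact K) (hK1 : ∀ x ∈ K, x 0 = 1) (A : ℝ) :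
    ∀ᶠ n in atTop, ∀ x ∈ K, A ≤ uu P n x := by
  obtain ⟨R, hR⟩ := hK.isBounded.subset_closedBall (0 : E)
  have hM := h.one_le
  have hlog : Tendsto (fun n => Real.log (mm n)) atTop atTop := Real.tendsto_log_atTop.comp mm_top
  filter_upwards [ww_small h (ε := 1) one_pos,
    hlog.eventually_ge_atTop (A + (1 + |R|) + |R| ^ 2 + P.card * (M ^ 2 + (|R| + M) ^ 2))] with n hw hl x hx
  have hx' : ‖x‖ ≤ |R| := by
    have := hR hx
    rw [mem_closedBall_zero_iff] at this
    exact this.trans (le_abs_self R)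
  have hm := mm_one n
  have hm0 := mm_pos n
  have h1 : -(1 + |R|) ≤ ww P n x := by
    have := (abs_le.1 (hw x)).1
    linarith
  have h2 : phi x = 0 := by unfold phi; rw [hK1 x hx]; norm_num
  have h3 : -(|R| ^ 2) ≤ qq x := by
    unfold qq
    have : ‖x‖ ^ 2 ≤ |R| ^ 2 := by gcongr
    nlinarith [sq_nonneg (x 0)]
  have h4 : ∀ p ∈ P, -(M ^ 2 + (|R| + M) ^ 2) ≤ (-1) * Real.log (Q (rr P (mm n) p) p x) := by
    intro p hp
    have hq := Q_pos (rr_pos P hm0 p) p x
    have e1 : Q (rr P (mm n) p) p x ≤ M ^ 2 + (|R| + M) ^ 2 := by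
      unfold Q
      have e2 : ‖x - p‖ ≤ |R| + M := (norm_sub_le x p).trans (add_le_add hx' (h.bdd p hp))
      have e3 : rr P (mm n) p ≤ M := by
        unfold rr
        have := kap_le hm
        have := h.wt_le p hp
        have := wt_pos P p
        have := kap_pos hm0
        nlinarith
      have e4 := rr_pos P hm0 p
      gcongr
    have e2 := Real.log_le_sub_one_of_pos hq
    linarith
  have h5 : -(P.card * (M ^ 2 + (|R| + M) ^ 2)) ≤ ∑ p ∈ P, (-1) * Real.log (Q (rr P (mm n) p) p x) := by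
    have := Finset.card_nsmul_le_sum P _ _ h4
    rw [nsmul_eq_mul] at this
    linarith
  unfold uu u0 uA
  rw [h2]
  linarith

end

end Pool.Agent.K7.H86.QC
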