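import Pool.Agent.K7.H86.QC.Fund

/-! The approximate solutions. -/

set_option autoImplicit false

open MeasureTheory Set Filter Topology Metric
open scoped ContDiff Laplacian InnerProductSpace

namespace Pool.Agent.K7.H86.QC

/-- the strip `(-2,2) × ℝ³` -/
def Om : Set E := {x | -2 < x 0 ∧ x 0 < 2}

/-- the profile -/
noncomputable def phi (x : E) : ℝ := x 0 - (x 0) ^ 3 / 3 - 2 / 3

lemma phi_eq (x : E) : phi x = -(1 / 3) * (x 0 - 1) ^ 2 * (x 0 + 2) := by
  unfold phi; ring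

/-- `-(x₂² + x₃² + x₄²)` -/
noncomputable def qq (x : E) : ℝ := -(‖x‖ ^ 2 - (x 0) ^ 2)

lemma coord_contDiff (i : Fin 4) : ContDiff ℝ ∞ (fun x : E => x i) :=
  (EuclideanSpace.proj i : E →L[ℝ] ℝ).contDiff

lemma phi_contDiff : ContDiff ℝ ∞ phi := by
  unfold phi
  have := coord_contDiff 0
  fun_prop

lemma qq_contDiff : ContDiff ℝ ∞ qq := by
  unfold qq
  have := coord_contDiff 0
  have h2 : ContDiff ℝ ∞ (fun x : E => ‖x‖ ^ 2) := contDiff_norm_sq ℝ
  fun_prop

lemma lap_add {f g : E → ℝ} (hf : ContDiff ℝ ∞ f) (hg : ContDiff ℝ ∞ g) (x : E) :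
    (Δ (fun x => f x + g x)) x = (Δ f) x + (Δ g) x :=
  (hf.contDiffAt.of_le two_le_infty).laplacian_add (hg.contDiffAt.of_le two_le_infty)

lemma lap_smooth {f : E → ℝ} (hf : ContDiff ℝ ∞ f) : ContDiff ℝ ∞ (Δ f) := by
  have h : (Δ f) = fun y => ∑ i, fderiv ℝ (fun z => fderiv ℝ f z (ev i)) y (ev i) := by
    ext y; exact lap_eq hf y
  rw [h]
  have hD : ∀ {ψ : E → ℝ}, ContDiff ℝ ∞ ψ → ∀ v : E, ContDiff ℝ ∞ (fun z => fderiv ℝ ψ z v) := by
    intro ψ h v
    exact (h.fderiv_right (m := ∞) (by norm_cast)).clm_apply contDiff_const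
  exact ContDiff.sum fun i _ => hD (hD hf _) _

lemma lap_sum {ι : Type*} (s : Finset ι) {f : ι → E → ℝ} (hf : ∀ i, ContDiff ℝ ∞ (f i)) (x : E) :
    (Δ (fun x => ∑ i ∈ s, f i x)) x = ∑ i ∈ s, (Δ (f i)) x := by
  classical
  induction s using Finset.induction_on with
  | empty => simp
  | insert i s hi ih =>
    simp_rw [Finset.sum_insert hi]
    rw [lap_add (hf i) (ContDiff.sum fun k _ => hf k), ih]

/-- Laplacian of a function of the first coordinate. -/
lemma lap_coord {h h1 h2 : ℝ → ℝ} (hsm : ContDiff ℝ ∞ (fun x : E => h (x 0)))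
    (d1 : ∀ t, HasDerivAt h (h1 t) t) (d2 : ∀ t, HasDerivAt h1 (h2 t) t) (x : E) :
    (Δ (fun x : E => h (x 0))) x = h2 (x 0) := by
  rw [lap_eq hsm]
  have hp : ∀ z : E, HasFDerivAt (fun z : E => z 0) (EuclideanSpace.proj 0 : E →L[ℝ] ℝ) z :=
    fun z => (EuclideanSpace.proj 0 : E →L[ℝ] ℝ).hasFDerivAt
  have hpe : ∀ i, (EuclideanSpace.proj 0 : E →L[ℝ] ℝ) (ev i) = if i = 0 then 1 else 0 := by
    intro i
    simp [ev_apply]
  have e1 : ∀ i, (fun z => fderiv ℝ (fun x : E => h (x 0)) z (ev i))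
      = fun z => h1 (z 0) * (if i = 0 then 1 else 0) := by
    intro i
    ext z
    have hh := (d1 (z 0)).comp_hasFDerivAt z (hp z)
    have hh' : fderiv ℝ (fun x : E => h (x 0)) z = _ := hh.fderiv
    rw [hh', ContinuousLinearMap.smul_apply, hpe, smul_eq_mul]
  have e2 : ∀ i, fderiv ℝ (fun z => fderiv ℝ (fun x : E => h (x 0)) z (ev i)) x (ev i)
      = h2 (x 0) * (if i = 0 then 1 else 0) := by
    intro i
    rw [e1 i]
    have hh := ((d2 (x 0)).comp_hasFDerivAt x (hp x)).mul_const (if i = 0 then (1 : ℝ) else 0)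
    have hh' : fderiv ℝ (fun z : E => h1 (z 0) * (if i = 0 then (1 : ℝ) else 0)) x = _ := hh.fderiv
    rw [hh', ContinuousLinearMap.smul_apply, ContinuousLinearMap.smul_apply, hpe, smul_eq_mul,
      smul_eq_mul]
    split_ifs <;> ring
  simp_rw [e2]
  simp

lemma lap_Q {s : ℝ} (hs : 0 < s) (a x : E) : (Δ (fun x : E => (Q s a x : ℝ))) x = 8 := by
  have h := lap_of_Q hs a (ψ := fun t => t) (ψ1 := fun _ => 1) (ψ2 := fun _ => 0)
    (Q_contDiff s a) (fun t _ => hasDerivAt_id t) (fun t _ => hasDerivAt_const t 1) x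
  rw [h]
  ring

/-- the biharmonic part -/
noncomputable def uA (β c : ℝ) (x : E) : ℝ := β * phi x + qq x + c

lemma uA_contDiff (β c : ℝ) : ContDiff ℝ ∞ (uA β c) := by
  unfold uA
  have := phi_contDiff
  have := qq_contDiff
  fun_prop

lemma bilap_uA (β c : ℝ) (x : E) : (Δ (Δ (uA β c))) x = 0 := by
  have hA : uA β c = fun x => (fun x : E => (fun t : ℝ => β * (t - t ^ 3 / 3 - 2 / 3) + t ^ 2 + c + 1) (x 0)) x
      + (-1) * Q 1 0 x := by
    ext x
    unfold uA phi qq Q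
    simp
    ring
  have hs1 : ContDiff ℝ ∞ (fun x : E => (fun t : ℝ => β * (t - t ^ 3 / 3 - 2 / 3) + t ^ 2 + c + 1) (x 0)) := by
    have := coord_contDiff 0
    simp only
    fun_prop
  have hs2 : ContDiff ℝ ∞ (fun x : E => (-1) * Q 1 0 x) := by
    have := Q_contDiff (V := E) 1 0
    fun_prop
  have h1 : Δ (uA β c) = fun x => (fun t : ℝ => β * (-2 * t) + 2 - 8) (x 0) := by
    ext x
    rw [hA, lap_add hs1 hs2, lap_const_mul (Q_contDiff 1 0)]
    have e1 := lap_coord (h := fun t : ℝ => β * (t - t ^ 3 / 3 - 2 / 3) + t ^ 2 + c + 1)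
      (h1 := fun t => β * (1 - t ^ 2) + 2 * t) (h2 := fun t => β * (-2 * t) + 2) hs1
      (fun t => by
        have h3 := ((((hasDerivAt_id t).sub ((hasDerivAt_pow 3 t).div_const 3)).sub_const (2 / 3)).const_mul β).add
          (hasDerivAt_pow 2 t)
        have h4 := (h3.add_const c).add_const (1 : ℝ)
        refine h4.congr_deriv ?_
        norm_num)
      (fun t => by
        have h3 := (((hasDerivAt_pow 2 t).const_sub 1).const_mul β).add ((hasDerivAt_id t).const_mul 2)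
        refine h3.congr_deriv ?_
        norm_num) x
    rw [e1]
    have e2 := lap_Q one_pos (0 : E) x
    rw [e2]
    ring
  rw [h1]
  have hs3 : ContDiff ℝ ∞ (fun x : E => (fun t : ℝ => β * (-2 * t) + 2 - 8) (x 0)) := by
    have := coord_contDiff 0
    simp only
    fun_prop
  have e3 := lap_coord (h := fun t : ℝ => β * (-2 * t) + 2 - 8)
    (h1 := fun t => β * (-2)) (h2 := fun t => 0) hs3
    (fun t => by
      have h3 := ((((hasDerivAt_id t).const_mul (-2)).const_mul β).add_const (2 : ℝ)).sub_const 8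
      refine h3.congr_deriv ?_
      norm_num)
    (fun t => hasDerivAt_const t _) x
  exact e3

section
variable (P : Finset E)

open Classical in
/-- the coefficient in front of the bubble at `p` -/
noncomputable def cf (p : E) : ℝ := Real.exp (4 * qq p) * ∏ j ∈ P.erase p, (‖p - j‖ ^ 8)⁻¹

/-- relative scale of the bubble at `p` -/
noncomputable def wt (p : E) : ℝ := (cf P p / 6) ^ (1 / 4 : ℝ)

lemma cf_pos (p : E) : 0 < cf P p := by
  unfold cf
  apply mul_pos (Real.exp_pos _)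
  apply Finset.prod_pos
  intro j hj
  rw [Finset.mem_erase] at hj
  have : 0 < ‖p - j‖ := norm_pos_iff.2 (sub_ne_zero.2 (Ne.symm hj.1))
  positivity

lemma wt_pos (p : E) : 0 < wt P p := Real.rpow_pos_of_pos (by have := cf_pos P p; positivity) _

lemma wt_pow (p : E) : wt P p ^ 4 = cf P p / 6 := by
  unfold wt
  have h := cf_pos P p
  rw [← Real.rpow_natCast, ← Real.rpow_mul (by positivity)]
  norm_num

/-- the overall scale -/
noncomputable def kap (m : ℝ) : ℝ := 1 / 2 * m * Real.exp (-(4 / 3) * m ^ 64)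

/-- the scale of the bubble at `p` -/
noncomputable def rr (m : ℝ) (p : E) : ℝ := kap m * wt P p

lemma kap_pos {m : ℝ} (hm : 0 < m) : 0 < kap m := by unfold kap; positivity

lemma rr_pos {m : ℝ} (hm : 0 < m) (p : E) : 0 < rr P m p := mul_pos (kap_pos hm) (wt_pos P p)

lemma rr_pow (m : ℝ) (p : E) :
    96 * rr P m p ^ 4 = m ^ 4 * Real.exp (-(16 / 3) * m ^ 64) * cf P p := by
  unfold rr kap
  rw [mul_pow, wt_pow, mul_pow, mul_pow, ← Real.exp_nat_mul]
  have : (4 : ℕ) * (-(4 / 3) * m ^ 64) = -(16 / 3) * m ^ 64 := by push_cast; ring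
  rw [this]
  ring

/-- the approximate solution -/
noncomputable def u0 (m : ℝ) (x : E) : ℝ :=
  uA (m ^ 64) (Real.log m) x + ∑ p ∈ P, (-1) * Real.log (Q (rr P m p) p x)

/-- its bilaplacian -/
noncomputable def D0 (m : ℝ) (x : E) : ℝ := ∑ p ∈ P, 96 * rr P m p ^ 4 * ((Q (rr P m p) p x)⁻¹) ^ 4

/-- the exponential -/
noncomputable def F0 (m : ℝ) (x : E) : ℝ := Real.exp (4 * u0 P m x)

lemma u0_contDiff {m : ℝ} (hm : 0 < m) : ContDiff ℝ ∞ (u0 P m) := by
  unfold u0
  apply (uA_contDiff _ _).add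
  apply ContDiff.sum
  intro p _
  exact contDiff_const.mul (logQ_contDiff (rr_pos P hm p) p)

lemma F0_contDiff {m : ℝ} (hm : 0 < m) : ContDiff ℝ ∞ (F0 P m) := by
  unfold F0
  exact (contDiff_const.mul (u0_contDiff P hm)).exp

lemma bilap_u0 {m : ℝ} (hm : 0 < m) (x : E) : (Δ (Δ (u0 P m))) x = D0 P m x := by
  have hA := uA_contDiff (m ^ 64) (Real.log m)
  have hL : ∀ p, ContDiff ℝ ∞ (fun x : E => Real.log (Q (rr P m p) p x)) :=
    fun p => logQ_contDiff (rr_pos P hm p) p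
  have hL' : ∀ p, ContDiff ℝ ∞ (fun x : E => (-1) * Real.log (Q (rr P m p) p x)) :=
    fun p => contDiff_const.mul (hL p)
  have h1 : Δ (u0 P m) = fun x => (Δ (uA (m ^ 64) (Real.log m))) x
      + ∑ p ∈ P, (-1) * (Δ (fun x : E => Real.log (Q (rr P m p) p x))) x := by
    ext x
    have : u0 P m = fun x => uA (m ^ 64) (Real.log m) x
      + (fun x => ∑ p ∈ P, (-1) * Real.log (Q (rr P m p) p x)) x := rfl
    rw [this, lap_add hA (ContDiff.sum fun p _ => hL' p), lap_sum P hL']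
    congr 1
    apply Finset.sum_congr rfl
    intro p _
    rw [lap_const_mul (hL p)]
  have hLs : ∀ p, ContDiff ℝ ∞ (fun x => (-1) * (Δ (fun x : E => Real.log (Q (rr P m p) p x))) x) :=
    fun p => contDiff_const.mul (lap_smooth (hL p))
  rw [h1, lap_add (lap_smooth hA) (ContDiff.sum fun p _ => hLs p), lap_sum P hLs, bilap_uA, zero_add]
  unfold D0
  apply Finset.sum_congr rfl
  intro p _
  rw [lap_const_mul (lap_smooth (hL p)), bilap_logQ (rr_pos P hm p)]
  ring

lemma D0_Gr {m : ℝ} (hm : 0 < m) (N : ℕ) : Gr N (-6) (D0 P m) := by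
  unfold D0
  apply Gr.sum
  intro p _
  have h1 := Gr.inv_Q (rr_pos P hm p) p N
  have h2 := ((h1.mul h1).mul (h1.mul h1)).const_smul (96 * rr P m p ^ 4)
  have h3 := h2.mono le_rfl (show (-2 + -2 + (-2 + -2) : ℝ) ≤ -6 by norm_num)
  have h4 : (fun x : E => 96 * rr P m p ^ 4 * ((Q (rr P m p) p x)⁻¹) ^ 4)
      = fun x => (96 * rr P m p ^ 4) • ((Q (rr P m p) p x)⁻¹ * (Q (rr P m p) p x)⁻¹ *
        ((Q (rr P m p) p x)⁻¹ * (Q (rr P m p) p x)⁻¹)) := by
    ext x
    simp only [smul_eq_mul]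
    ring
  rw [h4]
  exact h3

end

/-! ### the cutoff -/

/-- exhaustion of the strip -/
def KK (n : ℕ) : Set E := {x | |x 0| ≤ 2 - 1 / ((n : ℝ) + 1)} ∩ closedBall 0 n

lemma KK_closed (n : ℕ) : IsClosed (KK n) := by
  apply IsClosed.inter _ isClosed_closedBall
  have h : Continuous (fun x : E => |x 0|) := (coord_contDiff 0).continuous.abs
  exact isClosed_le h continuous_const

lemma KK_interior (n : ℕ) : KK n ⊆ interior (KK (n + 1)) := by
  have h : Continuous (fun x : E => |x 0|) := (coord_contDiff 0).continuous.abs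
  have ho : IsOpen ({x : E | |x 0| < 2 - 1 / (((n + 1 : ℕ) : ℝ) + 1)} ∩ ball 0 ((n + 1 : ℕ) : ℝ)) :=
    (isOpen_lt h continuous_const).inter isOpen_ball
  intro x hx
  rw [mem_interior]
  refine ⟨_, ?_, ho, ?_⟩
  · rintro y ⟨hy1, hy2⟩
    have hy1' : |y 0| < 2 - 1 / (((n + 1 : ℕ) : ℝ) + 1) := hy1
    exact ⟨hy1'.le, ball_subset_closedBall hy2⟩
  · refine ⟨?_, ?_⟩
    · have h1 : |x 0| ≤ 2 - 1 / ((n : ℝ) + 1) := hx.1
      have h2 : 1 / (((n + 1 : ℕ) : ℝ) + 1) < 1 / ((n : ℝ) + 1) := by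
        push_cast
        apply one_div_lt_one_div_of_lt <;> linarith [Nat.cast_nonneg (α := ℝ) n]
      show |x 0| < _
      linarith
    · have h1 := hx.2
      rw [mem_closedBall_zero_iff] at h1
      rw [mem_ball_zero_iff]
      push_cast
      linarith

lemma exists_chi (n : ℕ) : ∃ f : E → ℝ, ContDiff ℝ ∞ f ∧ (∀ x ∈ KK n, ∀ᶠ y in 𝓝 x, f y = 1) ∧
    (∀ x ∉ KK (n + 1), f x = 0) ∧ ∀ x, f x ∈ Icc (0 : ℝ) 1 := by
  obtain ⟨f, h1, h2, h3⟩ := exists_contMDiffMap_one_nhds_of_subset_interior (modelWithCornersSelf ℝ E)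
    (n := ⊤) (KK_closed n) (KK_interior n)
  refine ⟨f, f.contMDiff.contDiff, fun x hx => ?_, h2, h3⟩
  exact (eventually_nhdsSet_iff_forall.1 h1) x hx

/-- the cutoff function -/
noncomputable def chi (n : ℕ) : E → ℝ := (exists_chi n).choose

lemma chi_contDiff (n : ℕ) : ContDiff ℝ ∞ (chi n) := (exists_chi n).choose_spec.1
lemma chi_one (n : ℕ) : ∀ x ∈ KK n, ∀ᶠ y in 𝓝 x, chi n y = 1 := (exists_chi n).choose_spec.2.1
lemma chi_zero (n : ℕ) : ∀ x ∉ KK (n + 1), chi n x = 0 := (exists_chi n).choose_spec.2.2.1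
lemma chi_Icc (n : ℕ) : ∀ x, chi n x ∈ Icc (0 : ℝ) 1 := (exists_chi n).choose_spec.2.2.2

lemma KK_sub_Om (n : ℕ) : KK n ⊆ Om := by
  intro x hx
  have h1 : |x 0| ≤ 2 - 1 / ((n : ℝ) + 1) := hx.1
  have h2 : 0 < 1 / ((n : ℝ) + 1) := by positivity
  have h3 := abs_lt.1 (show |x 0| < 2 by linarith)
  exact ⟨h3.1, h3.2⟩

lemma KK_compact (n : ℕ) : IsCompact (KK n) :=
  (isCompact_closedBall (0 : E) n).inter_left (isClosed_le
    ((coord_contDiff 0).continuous.abs) continuous_const)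

lemma chi_compact (n : ℕ) : HasCompactSupport (chi n) :=
  HasCompactSupport.intro (KK_compact (n + 1)) (fun x hx => chi_zero n x hx)

/-- compact subsets of the strip are exhausted -/
lemma KK_exhaust {K : Set E} (hK : IsCompact K) (hKO : K ⊆ Om) : ∀ᶠ n : ℕ in atTop, K ⊆ KK n := by
  rcases K.eq_empty_or_nonempty with rfl | hne
  · exact Eventually.of_forall fun n => empty_subset _
  obtain ⟨R, hR⟩ := hK.isBounded.subset_closedBall (0 : E)
  have hc : ContinuousOn (fun x : E => |x 0|) K := ((coord_contDiff 0).continuous.abs).continuousOn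
  obtain ⟨x0, hx0, hmax⟩ := hK.exists_isMaxOn hne hc
  have h1 : |x0 0| < 2 := by
    have := hKO hx0
    exact abs_lt.2 ⟨this.1, this.2⟩
  have h2 : Tendsto (fun n : ℕ => 2 - 1 / ((n : ℝ) + 1)) atTop (𝓝 (2 - 0)) :=
    tendsto_const_nhds.sub tendsto_one_div_add_atTop_nhds_zero_nat
  have h3 : ∀ᶠ n : ℕ in atTop, |x0 0| < 2 - 1 / ((n : ℝ) + 1) :=
    h2.eventually_const_lt (by linarith)
  have h4 : ∀ᶠ n : ℕ in atTop, R ≤ n := by
    obtain ⟨N, hN⟩ := exists_nat_ge R
    filter_upwards [eventually_ge_atTop N] with n hn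
    exact hN.trans (by exact_mod_cast hn)
  filter_upwards [h3, h4] with n hn1 hn2 x hx
  refine ⟨?_, ?_⟩
  · have := hmax hx
    simp only at this
    exact le_of_lt (lt_of_le_of_lt this hn1)
  · have := hR hx
    rw [mem_closedBall_zero_iff] at this ⊢
    linarith

end Pool.Agent.K7.H86.QC
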