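import Pool.Agent.K7.H86.QC.Deriv

/-! Convergence of `u_n / β_n` away from the singular sets. -/

set_option autoImplicit false

open MeasureTheory Set Filter Topology Metric
open scoped ContDiff Laplacian InnerProductSpace ENNReal

namespace Pool.Agent.K7.H86.QC

/-- the scaling factors -/
noncomputable def bb (n : ℕ) : ℝ := (mm n) ^ 64

lemma bb_pos (n : ℕ) : 0 < bb n := by have := mm_pos n; unfold bb; positivity

lemma bb_top : Tendsto bb atTop atTop := (tendsto_pow_atTop (by norm_num)).comp mm_top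

section
variable {P : Finset E} {ρ M : ℝ}

/-- the singular set -/
def Sing (P : Finset E) : Set E := {x | x ∈ P ∨ x 0 = 1}

lemma reg_open (P : Finset E) : IsOpen (Om \ Sing P) := by
  have h1 : IsClosed (Sing P) := by
    have h2 : Sing P = (P : Set E) ∪ {x | x 0 = 1} := by
      ext x; simp [Sing]
    rw [h2]
    exact P.finite_toSet.isClosed.union (isClosed_eq (coord_contDiff 0).continuous continuous_const)
  exact Om_open.sdiff h1

lemma lower_UB (h : Cfg P ρ M) {K : Set E} (hK : IsCompact K) (hKU : K ⊆ Om \ Sing P) (N : ℕ) :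
    UB N K (fun n x => qq x + (∑ p ∈ P, (-1) * Real.log (Q (rr P (mm n) p) p x)) + ww P n x) := by
  have hKP : ∀ x ∈ K, x ∉ P := fun x hx hxP => (hKU hx).2 (Or.inl hxP)
  rcases K.eq_empty_or_nonempty with rfl | hne
  · refine ⟨fun n => ?_, fun j _ => ⟨0, le_rfl, Eventually.of_forall fun n x hx => absurd hx (notMem_empty x)⟩⟩
    exact (qq_contDiff.add (ContDiff.sum fun p _ =>
      contDiff_const.mul (logQ_contDiff (rr_pos P (mm_pos n) p) p))).add (ww_contDiff P n)
  apply UB.add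
  · apply UB.add (UB.const hK qq_contDiff)
    apply UB.sum
    intro p hp
    obtain ⟨x0, hx0, hmin⟩ := hK.exists_isMinOn hne (f := fun x => ‖x - p‖) (by fun_prop)
    have hη : 0 < ‖x0 - p‖ := norm_pos_iff.2 (sub_ne_zero.2 fun e => hKP x0 hx0 (e ▸ hp))
    apply UB.mul (UB.scal (c := fun _ => (-1 : ℝ)) (C := 1) (by simp) zero_le_one)
    apply UB.logQ hK hη (fun x hx => hmin hx) (fun n => rr_pos P (mm_pos n) p) (B := M)
    intro n
    unfold rr
    have := kap_le (mm_one n)
    have := h.wt_le p hp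
    have := wt_pos P p
    have := kap_pos (mm_pos n)
    nlinarith
  · apply ww_UB h hK (reg_open P) hKU diff_subset
    · exact fun x hx hxP => hx.2 (Or.inl hxP)
    · exact fun x hx hx1 => hx.2 (Or.inr hx1)

/-- uniform smallness of all derivatives up to order four -/
lemma conv4 (h : Cfg P ρ M) {K : Set E} (hK : IsCompact K) (hKU : K ⊆ Om \ Sing P) {ε : ℝ} (hε : 0 < ε) :
    ∀ᶠ n in atTop, ∀ j ≤ 4, ∀ x ∈ K,
      ‖iteratedFDeriv ℝ j (fun x => uu P n x / bb n - phi x) x‖ ≤ ε := by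
  have hU := lower_UB h hK hKU 4
  choose! C hC hb using hU.2
  have hb' : ∀ᶠ n in atTop, ∀ j ∈ Finset.range 5, ∀ x ∈ K,
      ‖iteratedFDeriv ℝ j (fun x => qq x + (∑ p ∈ P, (-1) * Real.log (Q (rr P (mm n) p) p x)) + ww P n x) x‖ ≤ C j := by
    rw [eventually_all_finset]
    intro j hj
    rw [Finset.mem_range] at hj
    exact hb j (by omega)
  set B : ℝ := ∑ j ∈ Finset.range 5, C j with hB
  have hCB : ∀ j ∈ Finset.range 5, C j ≤ B := fun j hj =>
    Finset.single_le_sum (f := C) (fun i hi => hC i (by rw [Finset.mem_range] at hi; omega)) hj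
  have hB0 : 0 ≤ B := Finset.sum_nonneg fun i hi => hC i (by rw [Finset.mem_range] at hi; omega)
  have hlim : Tendsto (fun n => (mm n + B) / bb n) atTop (𝓝 0) := by
    have h1 : Tendsto (fun n => (mm n)⁻¹) atTop (𝓝 0) := tendsto_inv_atTop_zero.comp mm_top
    have h2 := (h1.const_mul (1 + B))
    rw [mul_zero] at h2
    refine squeeze_zero (fun n => ?_) (fun n => ?_) h2
    · have := mm_pos n
      have := bb_pos n
      positivity
    · have h3 := mm_one n
      have h4 := mm_pos n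
      unfold bb
      rw [div_le_iff₀ (by positivity)]
      have h5 : (mm n) ^ 2 ≤ (mm n) ^ 64 := pow_le_pow_right₀ h3 (by norm_num)
      have h6 : (1 + B) * (mm n)⁻¹ * (mm n) ^ 2 = (1 + B) * mm n := by field_simp
      have h7 : (1 + B) * (mm n)⁻¹ * (mm n) ^ 2 ≤ (1 + B) * (mm n)⁻¹ * (mm n) ^ 64 := by gcongr
      nlinarith
  filter_upwards [hb', hlim.eventually_le_const hε] with n hn hle j hj x hx
  refine le_trans ?_ hle
  have hbn := bb_pos n
  have hm := mm_one n
  set G : E → ℝ := fun x => qq x + (∑ p ∈ P, (-1) * Real.log (Q (rr P (mm n) p) p x)) + ww P n x with hG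
  have hGs : ContDiff ℝ ∞ G := hU.1 n
  have e1 : (fun x => uu P n x / bb n - phi x) = fun x => (bb n)⁻¹ • ((fun _ => Real.log (mm n)) x + G x) := by
    ext x
    simp only [hG, smul_eq_mul]
    unfold uu u0 uA
    have : (mm n) ^ 64 = bb n := rfl
    rw [this]
    field_simp
    ring
  have hsm : ContDiff ℝ ∞ (fun x => (fun _ => Real.log (mm n)) x + G x) := contDiff_const.add hGs
  have e2 : iteratedFDeriv ℝ j (fun x => (bb n)⁻¹ • ((fun _ => Real.log (mm n)) x + G x)) x
      = (bb n)⁻¹ • iteratedFDeriv ℝ j (fun x => (fun _ => Real.log (mm n)) x + G x) x := by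
    have := iteratedFDeriv_const_smul_apply (a := (bb n)⁻¹) (i := j) (x := x) (𝕜 := ℝ)
      (f := fun x : E => (fun _ => Real.log (mm n)) x + G x)
      (hsm.contDiffAt.of_le (by exact_mod_cast le_top))
    exact this
  have e3 : iteratedFDeriv ℝ j (fun x => (fun _ => Real.log (mm n)) x + G x) x
      = iteratedFDeriv ℝ j (fun _ : E => Real.log (mm n)) x + iteratedFDeriv ℝ j G x :=
    iteratedFDeriv_add_apply (contDiff_const.contDiffAt) (hGs.contDiffAt.of_le (by exact_mod_cast le_top))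
  rw [e1, e2, e3, norm_smul, Real.norm_of_nonneg (by positivity), div_eq_inv_mul]
  apply mul_le_mul_of_nonneg_left _ (by positivity)
  refine (norm_add_le _ _).trans ?_
  apply add_le_add
  · have hl0 : 0 ≤ Real.log (mm n) := Real.log_nonneg hm
    have hl1 := Real.log_le_sub_one_of_pos (mm_pos n)
    rcases j with _ | j
    · rw [norm_iteratedFDeriv_zero, Real.norm_of_nonneg hl0]
      linarith
    · rw [iteratedFDeriv_succ_const]
      simp only [Pi.zero_apply, norm_zero]
      linarith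
  · exact (hn j (Finset.mem_range.2 (by omega)) x hx).trans (hCB j (Finset.mem_range.2 (by omega)))

end

/-- uniform smallness of four derivatives gives smallness of the Hölder seminorm of the third -/
lemma holder_of_four {U : Set E} (hU : IsOpen U) {g : ℕ → E → ℝ} (hg : ∀ n, ContDiff ℝ ∞ (g n))
    (hsmall : ∀ K : Set E, IsCompact K → K ⊆ U → ∀ ε : ℝ, 0 < ε → ∀ᶠ n in atTop, ∀ j ≤ 4, ∀ x ∈ K,
      ‖iteratedFDeriv ℝ j (g n) x‖ ≤ ε) {α : ℝ} (hα0 : 0 ≤ α) (hα1 : α < 1)
    {K : Set E} (hK : IsCompact K) (hKU : K ⊆ U) {ε : ℝ} (hε : 0 < ε) :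
    ∀ᶠ n in atTop, (∀ j ≤ 3, ∀ x ∈ K, ‖iteratedFDeriv ℝ j (g n) x‖ ≤ ε) ∧
      ∀ x ∈ K, ∀ y ∈ K, ‖iteratedFDeriv ℝ 3 (g n) x - iteratedFDeriv ℝ 3 (g n) y‖ ≤ ε * ‖x - y‖ ^ α := by
  obtain ⟨δ', hδ', hδU'⟩ := hK.exists_cthickening_subset_open hU hKU
  set δ := min δ' 1 with hδ
  have hδ0 : 0 < δ := lt_min hδ' one_pos
  have hδ1 : δ ≤ 1 := min_le_right _ _
  have hδU : cthickening δ K ⊆ U := (cthickening_mono (min_le_left _ _) K).trans hδU'
  set ε' := min ε (ε * δ ^ α / 2) with hε'
  have hδα : 0 < δ ^ α := Real.rpow_pos_of_pos hδ0 α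
  have hε'0 : 0 < ε' := lt_min hε (by positivity)
  filter_upwards [hsmall (cthickening δ K) hK.cthickening hδU ε' hε'0] with n hn
  have hKsub : K ⊆ cthickening δ K := self_subset_cthickening K
  refine ⟨fun j hj x hx => (hn j (by omega) x (hKsub hx)).trans (min_le_left _ _), ?_⟩
  intro x hx y hy
  rcases le_or_gt ‖x - y‖ δ with hxy | hxy
  · -- mean value inequality
    have hseg : segment ℝ y x ⊆ cthickening δ K := by
      intro z hz
      apply mem_cthickening_of_dist_le z y δ K hy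
      have h1 : segment ℝ y x ⊆ closedBall y δ := by
        apply (convex_closedBall y δ).segment_subset (mem_closedBall_self hδ0.le)
        rw [mem_closedBall, dist_eq_norm]
        exact hxy
      exact h1 hz
    have hdiff : ∀ z ∈ segment ℝ y x, DifferentiableAt ℝ (iteratedFDeriv ℝ 3 (g n)) z := fun z _ =>
      ((hg n).differentiable_iteratedFDeriv (m := 3) (by norm_cast)) z
    have hbound : ∀ z ∈ segment ℝ y x, ‖fderiv ℝ (iteratedFDeriv ℝ 3 (g n)) z‖ ≤ ε' := by
      intro z hz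
      rw [norm_fderiv_iteratedFDeriv]
      exact hn 4 le_rfl z (hseg hz)
    have h1 := (convex_segment y x).norm_image_sub_le_of_norm_fderiv_le hdiff hbound
      (left_mem_segment ℝ y x) (right_mem_segment ℝ y x)
    have h2 : ‖x - y‖ ≤ ‖x - y‖ ^ α := by
      rcases (norm_nonneg (x - y)).eq_or_lt with h0 | h0
      · rw [← h0]
        exact Real.rpow_nonneg le_rfl _
      · calc ‖x - y‖ = ‖x - y‖ ^ (1 : ℝ) := (Real.rpow_one _).symm
          _ ≤ ‖x - y‖ ^ α := Real.rpow_le_rpow_of_exponent_ge h0 (hxy.trans hδ1) hα1.le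
    calc ‖iteratedFDeriv ℝ 3 (g n) x - iteratedFDeriv ℝ 3 (g n) y‖ ≤ ε' * ‖x - y‖ := h1
      _ ≤ ε * ‖x - y‖ ^ α := by
        have : ε' ≤ ε := min_le_left _ _
        gcongr
  · have h1 := hn 3 (by norm_num) x (hKsub hx)
    have h2 := hn 3 (by norm_num) y (hKsub hy)
    have h3 : δ ^ α ≤ ‖x - y‖ ^ α := Real.rpow_le_rpow hδ0.le hxy.le hα0
    calc ‖iteratedFDeriv ℝ 3 (g n) x - iteratedFDeriv ℝ 3 (g n) y‖ ≤ ε' + ε' :=
          (norm_sub_le _ _).trans (add_le_add h1 h2)
      _ ≤ ε * δ ^ α := by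
          have : ε' ≤ ε * δ ^ α / 2 := min_le_right _ _
          linarith
      _ ≤ _ := by gcongr

end Pool.Agent.K7.H86.QC
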