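import Mathlib

/-! Functions all of whose derivatives decay (or grow) at a given rate. -/

set_option autoImplicit false

open MeasureTheory Set Filter Topology Metric
open scoped ContDiff

namespace Pool.Agent.K7.H86.QC

section
variable {V : Type} [NormedAddCommGroup V] [InnerProductSpace ℝ V]
variable {F : Type} [NormedAddCommGroup F] [NormedSpace ℝ F]

/-- derivatives of order at most `N` are `O((1 + ‖x‖) ^ m)` -/
def Gr (N : ℕ) (m : ℝ) (g : V → F) : Prop :=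
  ContDiff ℝ ∞ g ∧ ∀ j ≤ N, ∃ C : ℝ, 0 ≤ C ∧ ∀ x, ‖iteratedFDeriv ℝ j g x‖ ≤ C * (1 + ‖x‖) ^ m

lemma Gr.mono {N N' : ℕ} {m m' : ℝ} {g : V → F} (h : Gr N m g) (hN : N' ≤ N) (hm : m ≤ m') :
    Gr N' m' g := by
  refine ⟨h.1, fun j hj => ?_⟩
  obtain ⟨C, hC, hb⟩ := h.2 j (hj.trans hN)
  refine ⟨C, hC, fun x => (hb x).trans ?_⟩
  have h1 : (1 : ℝ) ≤ 1 + ‖x‖ := by linarith [norm_nonneg x]
  exact mul_le_mul_of_nonneg_left (Real.rpow_le_rpow_of_exponent_le h1 hm) hC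

lemma Gr.add {N : ℕ} {m : ℝ} {f g : V → F} (hf : Gr N m f) (hg : Gr N m g) :
    Gr N m (fun x => f x + g x) := by
  refine ⟨hf.1.add hg.1, fun j hj => ?_⟩
  obtain ⟨C, hC, hb⟩ := hf.2 j hj
  obtain ⟨D, hD, hd⟩ := hg.2 j hj
  refine ⟨C + D, by positivity, fun x => ?_⟩
  have h1 : iteratedFDeriv ℝ j (fun x => f x + g x) x = iteratedFDeriv ℝ j f x + iteratedFDeriv ℝ j g x :=
    iteratedFDeriv_add_apply (hf.1.contDiffAt.of_le (by exact_mod_cast le_top)) (hg.1.contDiffAt.of_le (by exact_mod_cast le_top))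
  rw [h1, add_mul]
  exact (norm_add_le _ _).trans (add_le_add (hb x) (hd x))

lemma Gr.const_smul {N : ℕ} {m : ℝ} {f : V → F} (c : ℝ) (hf : Gr N m f) :
    Gr N m (fun x => c • f x) := by
  refine ⟨hf.1.const_smul c, fun j hj => ?_⟩
  obtain ⟨C, hC, hb⟩ := hf.2 j hj
  refine ⟨|c| * C, by positivity, fun x => ?_⟩
  have h1 : iteratedFDeriv ℝ j (fun x => c • f x) x = c • iteratedFDeriv ℝ j f x :=
    iteratedFDeriv_const_smul_apply (hf.1.contDiffAt.of_le (by exact_mod_cast le_top))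
  rw [h1, norm_smul, mul_assoc]
  exact mul_le_mul_of_nonneg_left (hb x) (norm_nonneg _)

lemma Gr.neg {N : ℕ} {m : ℝ} {f : V → F} (hf : Gr N m f) : Gr N m (fun x => - f x) := by
  have := hf.const_smul (-1)
  simpa using this

lemma Gr.sub {N : ℕ} {m : ℝ} {f g : V → F} (hf : Gr N m f) (hg : Gr N m g) :
    Gr N m (fun x => f x - g x) := by
  have := hf.add hg.neg
  simpa [sub_eq_add_neg] using this

lemma Gr.smul {N : ℕ} {m m' : ℝ} {f : V → ℝ} {g : V → F} (hf : Gr N m f) (hg : Gr N m' g) :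
    Gr N (m + m') (fun x => f x • g x) := by
  refine ⟨hf.1.smul hg.1, fun j hj => ?_⟩
  choose! C hC hb using hf.2
  choose! D hD hd using hg.2
  refine ⟨∑ i ∈ Finset.range (j + 1), (j.choose i : ℝ) * C i * D (j - i), ?_, fun x => ?_⟩
  · refine Finset.sum_nonneg fun i hi => ?_
    rw [Finset.mem_range] at hi
    have := hC i (by omega)
    have := hD (j - i) (by omega)
    positivity
  · refine (norm_iteratedFDeriv_smul_le hf.1 hg.1 x (by exact_mod_cast le_top)).trans ?_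
    rw [Finset.sum_mul]
    refine Finset.sum_le_sum fun i hi => ?_
    rw [Finset.mem_range] at hi
    have h1 := hb i (by omega) x
    have h2 := hd (j - i) (by omega) x
    have hp : (0 : ℝ) < 1 + ‖x‖ := by positivity
    rw [Real.rpow_add hp]
    calc (j.choose i : ℝ) * ‖iteratedFDeriv ℝ i f x‖ * ‖iteratedFDeriv ℝ (j - i) g x‖
        ≤ (j.choose i : ℝ) * (C i * (1 + ‖x‖) ^ m) * (D (j - i) * (1 + ‖x‖) ^ m') := by
          have := hC i (by omega)
          gcongr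
      _ = _ := by ring

lemma Gr.mul {N : ℕ} {m m' : ℝ} {f g : V → ℝ} (hf : Gr N m f) (hg : Gr N m' g) :
    Gr N (m + m') (fun x => f x * g x) := hf.smul hg

lemma Gr.sum {N : ℕ} {m : ℝ} {ι : Type*} (s : Finset ι) {f : ι → V → F}
    (h : ∀ i ∈ s, Gr N m (f i)) : Gr N m (fun x => ∑ i ∈ s, f i x) := by
  classical
  induction s using Finset.induction_on with
  | empty =>
    refine ⟨by simpa using contDiff_const, fun j _ => ⟨0, le_rfl, fun x => ?_⟩⟩
    have : (fun x : V => ∑ i ∈ (∅ : Finset ι), f i x) = fun _ => (0 : F) := by simp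
    rw [this]
    have h0 := iteratedFDeriv_fun_zero (𝕜 := ℝ) (E := V) (F := F) (n := j)
    have h1 : iteratedFDeriv ℝ j (fun _ : V => (0 : F)) x = 0 := congrFun h0 x
    simp [h1]
  | insert i s hi ih =>
    have h1 := (h i (Finset.mem_insert_self _ _)).add (ih fun k hk => h k (Finset.mem_insert_of_mem hk))
    simpa [Finset.sum_insert hi] using h1

lemma Gr.of_fderiv {N : ℕ} {m : ℝ} {g : V → F} (hg : ContDiff ℝ ∞ g)
    (h0 : ∃ C : ℝ, 0 ≤ C ∧ ∀ x, ‖g x‖ ≤ C * (1 + ‖x‖) ^ m) (h : Gr N m (fderiv ℝ g)) :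
    Gr (N + 1) m g := by
  refine ⟨hg, fun j hj => ?_⟩
  rcases j with _ | j
  · simpa using h0
  · obtain ⟨C, hC, hb⟩ := h.2 j (by omega)
    refine ⟨C, hC, fun x => ?_⟩
    rw [← norm_iteratedFDeriv_fderiv]
    exact hb x

/-- an affine function -/
lemma Gr.affine (N : ℕ) (L : V →L[ℝ] F) (a : V) : Gr N 1 (fun x => L (x - a)) := by
  have hsm : ContDiff ℝ ∞ (fun x => L (x - a)) := L.contDiff.comp (contDiff_id.sub contDiff_const)
  have hfd : fderiv ℝ (fun x => L (x - a)) = fun _ => L := by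
    ext1 x
    have h1 : HasFDerivAt (fun x : V => x - a) (ContinuousLinearMap.id ℝ V) x :=
      (hasFDerivAt_id x).sub_const a
    exact (L.hasFDerivAt.comp x h1).fderiv
  refine ⟨hsm, fun j _ => ?_⟩
  rcases j with _ | j
  · refine ⟨‖L‖ * (1 + ‖a‖), by positivity, fun x => ?_⟩
    rw [norm_iteratedFDeriv_zero, Real.rpow_one]
    have h1 := L.le_opNorm (x - a)
    have h2 := norm_sub_le x a
    calc ‖L (x - a)‖ ≤ ‖L‖ * ‖x - a‖ := h1
      _ ≤ ‖L‖ * ((1 + ‖a‖) * (1 + ‖x‖)) := by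
          apply mul_le_mul_of_nonneg_left _ (norm_nonneg _)
          nlinarith [norm_nonneg x, norm_nonneg a]
      _ = _ := by ring
  · refine ⟨‖L‖, norm_nonneg _, fun x => ?_⟩
    rw [← norm_iteratedFDeriv_fderiv, hfd, Real.rpow_one]
    rcases j with _ | j
    · rw [norm_iteratedFDeriv_zero]
      nlinarith [norm_nonneg x, norm_nonneg L]
    · rw [iteratedFDeriv_succ_const]
      simp only [Pi.zero_apply, norm_zero]
      positivity

/-- `Q s a x = s ^ 2 + ‖x - a‖ ^ 2` -/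
noncomputable def Q (s : ℝ) (a x : V) : ℝ := s ^ 2 + ‖x - a‖ ^ 2

lemma Q_pos {s : ℝ} (hs : 0 < s) (a x : V) : 0 < Q s a x := by unfold Q; positivity

lemma Q_contDiff (s : ℝ) (a : V) : ContDiff ℝ ∞ (Q s a) := by
  unfold Q
  exact contDiff_const.add ((contDiff_id.sub contDiff_const).norm_sq ℝ)

lemma Q_hasFDerivAt (s : ℝ) (a x : V) : HasFDerivAt (Q s a) ((2 : ℝ) • innerSL ℝ (x - a)) x := by
  have h1 : HasFDerivAt (fun y : V => y - a) (ContinuousLinearMap.id ℝ V) x :=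
    (hasFDerivAt_id x).sub_const a
  have h2 := h1.norm_sq.const_add (s ^ 2)
  have h3 : (2 • (innerSL ℝ (x - a)).comp (ContinuousLinearMap.id ℝ V)) = (2 : ℝ) • innerSL ℝ (x - a) := by
    ext v
    simp [two_mul]
  rw [← h3]
  exact h2

lemma inv_Q_contDiff {s : ℝ} (hs : 0 < s) (a : V) : ContDiff ℝ ∞ (fun x => (Q s a x)⁻¹) :=
  (Q_contDiff s a).inv fun x => (Q_pos hs a x).ne'

lemma inv_Q_fderiv {s : ℝ} (hs : 0 < s) (a : V) :
    fderiv ℝ (fun x => (Q s a x)⁻¹)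
      = fun x => (-((Q s a x)⁻¹ * (Q s a x)⁻¹)) • ((2 : ℝ) • innerSL ℝ) (x - a) := by
  ext1 x
  have h1 := (hasDerivAt_inv (Q_pos hs a x).ne').comp_hasFDerivAt x (Q_hasFDerivAt s a x)
  have h2 : fderiv ℝ (fun x => (Q s a x)⁻¹) x = _ := h1.fderiv
  rw [h2]
  ext v
  simp only [ContinuousLinearMap.smul_apply, innerSL_apply_apply, smul_eq_mul]
  rw [sq, mul_inv]

lemma inv_Q_zero {s : ℝ} (hs : 0 < s) (a : V) :
    ∃ C : ℝ, 0 ≤ C ∧ ∀ x, ‖(Q s a x)⁻¹‖ ≤ C * (1 + ‖x‖) ^ (-2 : ℝ) := by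
  refine ⟨2 * (1 + ‖a‖) ^ 2 / s ^ 2 + 2, by positivity, fun x => ?_⟩
  have hq := Q_pos hs a x
  have hp : (0 : ℝ) < 1 + ‖x‖ := by positivity
  rw [Real.norm_of_nonneg (inv_nonneg.2 hq.le), Real.rpow_neg hp.le, ← div_eq_mul_inv,
    le_div_iff₀ (by positivity), inv_mul_le_iff₀ hq]
  have h1 : 1 + ‖x‖ ≤ (1 + ‖a‖) + ‖x - a‖ := by
    have : ‖x‖ ≤ ‖x - a‖ + ‖a‖ := by
      calc ‖x‖ = ‖(x - a) + a‖ := by congr 1; abel
        _ ≤ _ := norm_add_le _ _
    linarith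
  have h2 : (1 + ‖x‖) ^ (2 : ℝ) ≤ ((1 + ‖a‖) + ‖x - a‖) ^ 2 := by
    rw [Real.rpow_two]
    gcongr
  refine h2.trans ?_
  have h3 : ((1 + ‖a‖) + ‖x - a‖) ^ 2 ≤ 2 * (1 + ‖a‖) ^ 2 + 2 * ‖x - a‖ ^ 2 := by
    nlinarith [sq_nonneg ((1 + ‖a‖) - ‖x - a‖)]
  refine h3.trans ?_
  unfold Q
  have h4 : 0 ≤ 2 * (1 + ‖a‖) ^ 2 / s ^ 2 * ‖x - a‖ ^ 2 := by positivity
  have h5 : 2 * (1 + ‖a‖) ^ 2 / s ^ 2 * s ^ 2 = 2 * (1 + ‖a‖) ^ 2 := by field_simp
  nlinarith [sq_nonneg s]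

/-- `1 / (s ^ 2 + ‖x - a‖ ^ 2)` decays quadratically together with its derivatives. -/
lemma Gr.inv_Q {s : ℝ} (hs : 0 < s) (a : V) (N : ℕ) : Gr N (-2) (fun x : V => (Q s a x)⁻¹) := by
  induction N with
  | zero =>
    refine ⟨inv_Q_contDiff hs a, fun j hj => ?_⟩
    obtain rfl : j = 0 := by omega
    simpa using inv_Q_zero hs a
  | succ N ih =>
    apply Gr.of_fderiv (inv_Q_contDiff hs a) (inv_Q_zero hs a)
    rw [inv_Q_fderiv hs a]
    have h1 := (ih.mul ih).neg.smul (Gr.affine N ((2 : ℝ) • innerSL ℝ) a)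
    exact h1.mono le_rfl (by norm_num)

lemma Gr.of_compact {g : V → F} (hg : ContDiff ℝ ∞ g) (hc : HasCompactSupport g) (N : ℕ) (m : ℝ) :
    Gr N m g := by
  refine ⟨hg, fun j _ => ?_⟩
  have h1 : HasCompactSupport (iteratedFDeriv ℝ j g) := hc.iteratedFDeriv j
  have h2 : Continuous (iteratedFDeriv ℝ j g) := hg.continuous_iteratedFDeriv (by exact_mod_cast le_top)
  have h3 : Continuous (fun x => (1 + ‖x‖) ^ (-m) * ‖iteratedFDeriv ℝ j g x‖) := by
    apply Continuous.mul _ h2.norm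
    apply Continuous.rpow_const (by fun_prop)
    intro x
    left
    positivity
  have h4 : HasCompactSupport (fun x => (1 + ‖x‖) ^ (-m) * ‖iteratedFDeriv ℝ j g x‖) :=
    h1.norm.mul_left
  obtain ⟨C, hC⟩ := h4.exists_bound_of_continuous h3
  refine ⟨max C 0, le_max_right _ _, fun x => ?_⟩
  have hp : (0 : ℝ) < (1 + ‖x‖) ^ m := by positivity
  have h5 := (hC x).trans (le_max_left C 0)
  rw [Real.norm_of_nonneg (by positivity), Real.rpow_neg (by positivity), inv_mul_le_iff₀ hp] at h5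
  linarith

end

end Pool.Agent.K7.H86.QC
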