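import Pool.Agent.K7.H86.QC.UB

/-! Derivative bounds for the error and for the correction. -/

set_option autoImplicit false

open MeasureTheory Set Filter Topology Metric
open scoped ContDiff Laplacian InnerProductSpace ENNReal

namespace Pool.Agent.K7.H86.QC

/-! ### splitting of the kernel -/

lemma Gr.lin (N : ℕ) : Gr N 1 (fun x : E => ((2 : ℝ) • innerSL ℝ (E := E)) x) := by
  have := Gr.affine N ((2 : ℝ) • innerSL ℝ (E := E)) 0
  simpa using this

/-- a smooth kernel with controlled growth which agrees with the logarithm off a small ball -/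
lemma exists_kernel {r : ℝ} (hr : 0 < r) : ∃ κ : E → ℝ, (∀ N, Gr N 1 κ) ∧
    ∀ z, r ≤ ‖z‖ → κ z = Real.log ‖z‖ := by
  let b : ContDiffBump (0 : E) := ⟨r / 2, r, by positivity, by linarith⟩
  have hb : ContDiff ℝ ∞ (b : E → ℝ) := b.contDiff
  set q : E → ℝ := fun z => b z + ‖z‖ ^ 2 with hq
  have hqsm : ContDiff ℝ ∞ q := hb.add (contDiff_norm_sq ℝ)
  have hqpos : ∀ z, 0 < q z := by
    intro z
    by_cases hz : z ∈ closedBall (0 : E) (r / 2)
    · have : b z = 1 := b.one_of_mem_closedBall hz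
      rw [hq]; simp only; rw [this]; positivity
    · have h1 : 0 < ‖z‖ := by
        rw [mem_closedBall_zero_iff, not_le] at hz
        linarith
      have h2 : 0 ≤ b z := b.nonneg
      rw [hq]; simp only; positivity
  have hqfd : fderiv ℝ q = fun z => fderiv ℝ b z + ((2 : ℝ) • innerSL ℝ (E := E)) z := by
    ext1 z
    have h1 : HasFDerivAt (b : E → ℝ) (fderiv ℝ b z) z := (hb.differentiable (by norm_num) z).hasFDerivAt
    have h2 : HasFDerivAt (fun z : E => ‖z‖ ^ 2) (((2 : ℝ) • innerSL ℝ (E := E)) z) z := by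
      have h3 := Q_hasFDerivAt (V := E) 0 0 z
      have h4 : Q (V := E) 0 0 = fun z => ‖z‖ ^ 2 := by
        ext z
        unfold Q
        simp
      rw [h4, sub_zero] at h3
      exact h3
    exact (h1.add h2).fderiv
  have hbc : HasCompactSupport (b : E → ℝ) := b.hasCompactSupport
  have hqGr : ∀ N, Gr N 1 (fderiv ℝ q) := by
    intro N
    rw [hqfd]
    apply Gr.add _ (Gr.lin N)
    exact Gr.of_compact (hb.fderiv_right (m := ∞) (by norm_cast)) (hbc.fderiv (𝕜 := ℝ)) N 1
  have hq2 : ∀ z, r ≤ ‖z‖ → q z = ‖z‖ ^ 2 := by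
    intro z hz
    have : b z = 0 := b.zero_of_le_dist (by rw [dist_zero_right]; exact hz)
    rw [hq]; simp only; rw [this, zero_add]
  -- the inverse
  have hinv0 : ∃ C : ℝ, 0 ≤ C ∧ ∀ x, ‖(q x)⁻¹‖ ≤ C * (1 + ‖x‖) ^ (-2 : ℝ) := by
    obtain ⟨C, hC⟩ := (isCompact_closedBall (0 : E) r).exists_bound_of_continuousOn
      (f := fun x => (q x)⁻¹ * (1 + ‖x‖) ^ 2)
      ((hqsm.continuous.inv₀ fun x => (hqpos x).ne').mul (by fun_prop)).continuousOn
    refine ⟨max C ((1 / r + 1) ^ 2), le_max_of_le_right (by positivity), fun x => ?_⟩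
    have hp : (0 : ℝ) < 1 + ‖x‖ := by positivity
    rw [Real.rpow_neg hp.le, ← div_eq_mul_inv, le_div_iff₀ (by positivity), Real.rpow_two,
      Real.norm_of_nonneg (inv_nonneg.2 (hqpos x).le)]
    rcases le_total ‖x‖ r with h | h
    · have h1 := hC x (by rw [mem_closedBall_zero_iff]; exact h)
      rw [Real.norm_of_nonneg (mul_nonneg (inv_nonneg.2 (hqpos x).le) (by positivity))] at h1
      exact h1.trans (le_max_left _ _)
    · refine le_trans ?_ (le_max_right _ _)
      rw [hq2 x h]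
      have hx : 0 < ‖x‖ := by linarith
      have h1 : 1 + ‖x‖ ≤ (1 / r + 1) * ‖x‖ := by
        have : 1 ≤ 1 / r * ‖x‖ := by
          rw [one_div, ← div_eq_inv_mul, le_div_iff₀ hr]; linarith
        linarith
      rw [inv_mul_le_iff₀ (by positivity)]
      calc (1 + ‖x‖) ^ 2 ≤ ((1 / r + 1) * ‖x‖) ^ 2 := by gcongr
        _ = _ := by ring
  have hinvsm : ContDiff ℝ ∞ (fun x => (q x)⁻¹) := hqsm.inv fun x => (hqpos x).ne'
  have hinv : ∀ N, Gr N (-2) (fun x => (q x)⁻¹) := by
    intro N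
    induction N with
    | zero =>
      refine ⟨hinvsm, fun j hj => ?_⟩
      obtain rfl : j = 0 := by omega
      simpa using hinv0
    | succ N ih =>
      apply Gr.of_fderiv hinvsm hinv0
      have h2 : fderiv ℝ (fun x => (q x)⁻¹) = fun x => (-((q x)⁻¹ * (q x)⁻¹)) • fderiv ℝ q x := by
        ext1 x
        have h1 := (hasDerivAt_inv (hqpos x).ne').comp_hasFDerivAt x
          (hqsm.differentiable (by norm_num) x).hasFDerivAt
        have h3 : fderiv ℝ (fun x => (q x)⁻¹) x = _ := h1.fderiv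
        rw [h3, sq, mul_inv]
      rw [h2]
      exact ((ih.mul ih).neg.smul (hqGr N)).mono le_rfl (by norm_num)
  -- the logarithm
  have hlogsm : ContDiff ℝ ∞ (fun x => Real.log (q x)) := hqsm.log fun x => (hqpos x).ne'
  have hlog0 : ∃ C : ℝ, 0 ≤ C ∧ ∀ x, ‖Real.log (q x)‖ ≤ C * (1 + ‖x‖) ^ (1 : ℝ) := by
    obtain ⟨C, hC⟩ := (isCompact_closedBall (0 : E) (max r 1)).exists_bound_of_continuousOn
      (f := fun x => Real.log (q x)) hlogsm.continuous.continuousOn
    refine ⟨max C 2, le_max_of_le_right (by norm_num), fun x => ?_⟩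
    rw [Real.rpow_one]
    rcases le_total ‖x‖ (max r 1) with h | h
    · have h1 := hC x (by rw [mem_closedBall_zero_iff]; exact h)
      have h2 := le_max_left C 2
      have h3 := le_max_right C 2
      nlinarith [norm_nonneg x]
    · have h1 : 1 ≤ ‖x‖ := (le_max_right r 1).trans h
      rw [hq2 x ((le_max_left r 1).trans h), Real.log_pow]
      have h2 : 0 ≤ Real.log ‖x‖ := Real.log_nonneg h1
      have h3 := Real.log_le_sub_one_of_pos (show 0 < ‖x‖ by linarith)
      rw [Real.norm_of_nonneg (by positivity)]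
      have h4 := le_max_right C 2
      push_cast
      nlinarith
  have hlog : ∀ N, Gr N 1 (fun x => Real.log (q x)) := by
    intro N
    apply Gr.mono (N := N + 1) _ (Nat.le_succ N) le_rfl
    apply Gr.of_fderiv hlogsm hlog0
    have h2 : fderiv ℝ (fun x => Real.log (q x)) = fun x => (q x)⁻¹ • fderiv ℝ q x := by
      ext1 x
      have h1 := (Real.hasDerivAt_log (hqpos x).ne').comp_hasFDerivAt x
        (hqsm.differentiable (by norm_num) x).hasFDerivAt
      exact h1.fderiv
    rw [h2]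
    exact ((hinv N).smul (hqGr N)).mono le_rfl (by norm_num)
  refine ⟨fun x => (1 / 2 : ℝ) • Real.log (q x), fun N => (hlog N).const_smul _, fun z hz => ?_⟩
  simp only
  rw [hq2 z hz, Real.log_pow, smul_eq_mul]
  push_cast
  ring

section
variable {P : Finset E} {ρ M : ℝ}

/-- weighted smallness of the error -/
lemma fn_weighted (h : Cfg P ρ M) : ∀ᶠ n in atTop, ∫ x, (1 + ‖x‖) * |fn P n x| ≤ 1 := by
  obtain ⟨C, hC, hb⟩ := fn_small h
  have hG := Psi_good P (h.rho_le.trans (by norm_num))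
  have h1 : Tendsto (fun n => C * rate (mm n) * ∫ x, (1 + ‖x‖) * Psi P ρ x) atTop
      (𝓝 (C * 0 * ∫ x, (1 + ‖x‖) * Psi P ρ x)) :=
    (rate_tendsto.const_mul C).mul_const _
  rw [mul_zero, zero_mul] at h1
  filter_upwards [hb, h1.eventually_le_const one_pos] with n hn hle
  refine le_trans ?_ hle
  rw [← integral_const_mul]
  apply integral_mono_of_nonneg (ae_of_all _ fun x => by positivity) (hG.int1.const_mul _)
  filter_upwards [ae_good P] with x hx
  have := (hn x hx.1 hx.2).1
  calc (1 + ‖x‖) * |fn P n x| ≤ (1 + ‖x‖) * (C * rate (mm n) * Psi P ρ x) := by gcongr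
    _ = _ := by ring

lemma fn_weighted_int (n : ℕ) : Integrable (fun x => (1 + ‖x‖) * |fn P n x|) := by
  obtain ⟨C, hC, hb⟩ := (fn_Gr P n 0).bound
  refine ((decay_int (r := 5) (by norm_num)).const_mul C).mono' ?_ (ae_of_all _ fun x => ?_)
  · have := fn_cont (P := P) n
    have h2 : Continuous (fun x : E => (1 + ‖x‖) * |fn P n x|) := by fun_prop
    exact h2.aestronglyMeasurable
  · rw [Real.norm_of_nonneg (by positivity)]
    have h1 := hb x
    rw [Real.norm_eq_abs] at h1
    have h2 : (1 + ‖x‖) ^ (-5 : ℝ) = (1 + ‖x‖) * (1 + ‖x‖) ^ (-6 : ℝ) := by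
      rw [show (-5 : ℝ) = 1 + -6 by norm_num, Real.rpow_add (by positivity), Real.rpow_one]
    rw [h2]
    calc (1 + ‖x‖) * |fn P n x| ≤ (1 + ‖x‖) * (C * (1 + ‖x‖) ^ (-6 : ℝ)) := by gcongr
      _ = _ := by ring

/-- derivatives of the error stay bounded away from the singular sets -/
lemma fn_UB (h : Cfg P ρ M) {S : Set E} (hS : IsCompact S) (hSO : S ⊆ Om) (hSP : ∀ x ∈ S, x ∉ P)
    (hS1 : ∀ x ∈ S, x 0 ≠ 1) (N : ℕ) : UB N S (fn P) := by
  rcases S.eq_empty_or_nonempty with rfl | hne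
  · exact ⟨fun n => (fn_Gr P n 0).1, fun j _ => ⟨0, le_rfl, Eventually.of_forall fun n x hx => absurd hx (notMem_empty x)⟩⟩
  -- distance from the points of `P`
  have hfar : ∀ p ∈ P, ∃ η : ℝ, 0 < η ∧ ∀ x ∈ S, η ≤ ‖x - p‖ := by
    intro p hp
    obtain ⟨x0, hx0, hmin⟩ := hS.exists_isMinOn hne
      (f := fun x => ‖x - p‖) (by fun_prop)
    refine ⟨‖x0 - p‖, norm_pos_iff.2 (sub_ne_zero.2 fun e => hSP x0 hx0 (e ▸ hp)), fun x hx => hmin hx⟩
  -- the profile is strictly negative
  have hneg : ∃ c : ℝ, 0 < c ∧ ∀ x ∈ S, phi x ≤ -c := by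
    obtain ⟨x0, hx0, hmax⟩ := hS.exists_isMaxOn hne (f := phi) phi_contDiff.continuous.continuousOn
    refine ⟨-phi x0, ?_, fun x hx => by have := hmax hx; simp only [neg_neg]; exact this⟩
    rw [phi_eq]
    have h1 := hS1 x0 hx0
    have h2 := (hSO hx0).1
    have h3 : 0 < (x0 0 - 1) ^ 2 := by
      have := sub_ne_zero.2 h1
      positivity
    have h4 : 0 < x0 0 + 2 := by linarith
    nlinarith [mul_pos h3 h4]
  obtain ⟨c, hc, hneg⟩ := hneg
  -- the inverse of `Q`
  have hQ : ∀ p ∈ P, UB N S (fun n x => (Q (rr P (mm n) p) p x)⁻¹) := by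
    intro p hp
    obtain ⟨η, hη, hf⟩ := hfar p hp
    exact UB.inv_Q hS hη hf (fun n => rr_pos P (mm_pos n) p) N
  have hQ4 : ∀ p ∈ P, UB N S (fun n x => ((Q (rr P (mm n) p) p x)⁻¹) ^ 4) := by
    intro p hp
    have h1 := ((hQ p hp).mul (hQ p hp)).mul ((hQ p hp).mul (hQ p hp))
    have h2 : (fun (n : ℕ) (x : E) => ((Q (rr P (mm n) p) p x)⁻¹) ^ 4)
      = fun n x => (Q (rr P (mm n) p) p x)⁻¹ * (Q (rr P (mm n) p) p x)⁻¹ *
        ((Q (rr P (mm n) p) p x)⁻¹ * (Q (rr P (mm n) p) p x)⁻¹) := by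
      ext n x
      ring
    rw [h2]
    exact h1
  have hF : UB N S (fun n x => F0 P (mm n) x) := by
    have h1 : (fun (n : ℕ) (x : E) => F0 P (mm n) x) = fun n x => (mm n) ^ 4 * Real.exp (4 * (mm n) ^ 64 * phi x) *
        (fun x => Real.exp (4 * qq x)) x * ∏ p ∈ P, ((Q (rr P (mm n) p) p x)⁻¹) ^ 4 := by
      ext n x
      rw [F0_eq (mm_pos n)]
    rw [h1]
    have h2 : ContDiff ℝ ∞ (fun x : E => Real.exp (4 * qq x)) := (contDiff_const.mul qq_contDiff).exp
    exact ((UB.exp_phi hS hc hneg N).mul (UB.const hS h2)).mul (UB.prod P hQ4)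
  have hD : UB N S (fun n x => D0 P (mm n) x) := by
    have h1 : (fun (n : ℕ) (x : E) => D0 P (mm n) x) = fun n x => ∑ p ∈ P,
        (fun n (_ : E) => 96 * rr P (mm n) p ^ 4) n x * ((Q (rr P (mm n) p) p x)⁻¹) ^ 4 := rfl
    rw [h1]
    apply UB.sum
    intro p hp
    apply UB.mul _ (hQ4 p hp)
    apply UB.scal (C := 96 * M ^ 4) _ (by have := h.one_le; positivity)
    refine Eventually.of_forall fun n => ?_
    have h2 := rr_pos P (mm_pos n) p
    rw [abs_of_nonneg (by positivity)]
    have e3 : rr P (mm n) p ≤ M := by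
      unfold rr
      have := kap_le (mm_one n)
      have := h.wt_le p hp
      have := wt_pos P p
      have := kap_pos (mm_pos n)
      nlinarith
    gcongr
  have hFD := hF.sub hD
  refine ⟨fun n => (fn_Gr P n 0).1, fun j hj => ?_⟩
  obtain ⟨C, hC, hb⟩ := hFD.2 j hj
  refine ⟨C, hC, ?_⟩
  filter_upwards [hb, KK_exhaust hS hSO] with n hn hK x hx
  have h1 : fn P n =ᶠ[𝓝 x] fun x => F0 P (mm n) x - D0 P (mm n) x := by
    filter_upwards [chi_one n x (hK hx)] with y hy
    unfold fn
    rw [hy, one_mul]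
  have h2 : iteratedFDeriv ℝ j (fn P n) x = iteratedFDeriv ℝ j (fun x => F0 P (mm n) x - D0 P (mm n) x) x :=
    (h1.iteratedFDeriv ℝ j).eq_of_nhds
  rw [h2]
  exact hn x hx

/-- derivatives of the correction stay bounded away from the singular sets -/
lemma ww_UB (h : Cfg P ρ M) {K U : Set E} (hK : IsCompact K) (hU : IsOpen U) (hKU : K ⊆ U)
    (hUO : U ⊆ Om) (hUP : ∀ x ∈ U, x ∉ P) (hU1 : ∀ x ∈ U, x 0 ≠ 1) (N : ℕ) : UB N K (ww P) := by
  obtain ⟨r, hr, hrU⟩ := hK.exists_cthickening_subset_open hU hKU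
  obtain ⟨κ, hκ, hκlog⟩ := exists_kernel hr
  set S := cthickening r K with hS
  have hSc : IsCompact S := hK.cthickening
  have hfU := fn_UB h hSc (hrU.trans hUO) (fun x hx => hUP x (hrU hx)) (fun x hx => hU1 x (hrU hx)) N
  set a : E → ℝ := fun z => Real.log ‖z‖ - κ z with ha
  have hκm : Measurable κ := (hκ 0).1.continuous.measurable
  have ham : AEStronglyMeasurable a := (lg_meas.sub hκm).aestronglyMeasurable
  have ha0 : ∀ z, r ≤ ‖z‖ → a z = 0 := fun z hz => by rw [ha]; simp only; rw [hκlog z hz, sub_self]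
  -- weighted integrability of the kernels
  obtain ⟨Cκ, hCκ, hκb⟩ := (hκ 0).bound
  have hκint : Integrable (fun z : E => |κ z| * (1 + ‖z‖) ^ (-6 : ℝ)) := by
    refine ((decay_int (r := 5) (by norm_num)).const_mul Cκ).mono' ?_ (ae_of_all _ fun x => ?_)
    · apply Measurable.aestronglyMeasurable
      fun_prop
    · rw [Real.norm_of_nonneg (by positivity)]
      have h1 := hκb x
      rw [Real.norm_eq_abs, Real.rpow_one] at h1
      have h2 : (1 + ‖x‖) ^ (-5 : ℝ) = (1 + ‖x‖) * (1 + ‖x‖) ^ (-6 : ℝ) := by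
        rw [show (-5 : ℝ) = 1 + -6 by norm_num, Real.rpow_add (by positivity), Real.rpow_one]
      rw [h2]
      calc |κ x| * (1 + ‖x‖) ^ (-6 : ℝ) ≤ (Cκ * (1 + ‖x‖)) * (1 + ‖x‖) ^ (-6 : ℝ) := by gcongr
        _ = _ := by ring
  have haint : Integrable (fun z : E => |a z| * (1 + ‖z‖) ^ (-6 : ℝ)) := by
    refine (lg_decay.add hκint).mono' ?_ (ae_of_all _ fun x => ?_)
    · apply Measurable.aestronglyMeasurable
      have : Measurable a := lg_meas.sub hκm
      fun_prop
    · rw [Real.norm_of_nonneg (by positivity)]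
      simp only [Pi.add_apply]
      rw [← add_mul]
      apply mul_le_mul_of_nonneg_right _ (by positivity)
      rw [ha]
      exact abs_sub _ _
  have hai : Integrable a := by
    refine (haint.const_mul ((1 + r) ^ (6 : ℝ))).mono' ham (ae_of_all _ fun z => ?_)
    rw [Real.norm_eq_abs]
    rcases le_total r ‖z‖ with hz | hz
    · rw [ha0 z hz]; simp
    · have h1 : 1 ≤ (1 + r) ^ (6 : ℝ) * (1 + ‖z‖) ^ (-6 : ℝ) := by
        rw [Real.rpow_neg (by positivity), ← div_eq_mul_inv, le_div_iff₀ (by positivity), one_mul]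
        exact Real.rpow_le_rpow (by positivity) (by linarith) (by norm_num)
      nlinarith [abs_nonneg (a z)]
  -- the near part
  have hnear : ∀ j ≤ N, ∃ C : ℝ, 0 ≤ C ∧ ∀ᶠ n in atTop, ∀ x ∈ K,
      ‖iteratedFDeriv ℝ j (T a (fn P n)) x‖ ≤ C := by
    intro j hj
    obtain ⟨C, hC, hb⟩ := hfU.2 j hj
    refine ⟨C * ∫ z, |a z|, mul_nonneg hC (integral_nonneg fun z => abs_nonneg _), ?_⟩
    filter_upwards [hb] with n hn x hx
    have h1 := T_iter ham ((fn_Gr P n j).1.of_le (by exact_mod_cast le_top)) ((fn_Gr P n j).dom haint) j le_rfl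
    rw [h1]
    unfold T
    refine (norm_integral_le_integral_norm _).trans ?_
    rw [← integral_const_mul]
    apply integral_mono_of_nonneg (ae_of_all _ fun z => norm_nonneg _) (hai.abs.const_mul _)
    refine ae_of_all _ fun z => ?_
    simp only
    rw [norm_smul, Real.norm_eq_abs]
    rcases le_total r ‖z‖ with hz | hz
    · rw [ha0 z hz]; simp
    · have h2 : x - z ∈ S := by
        rw [hS]
        apply mem_cthickening_of_dist_le (x - z) x r K hx
        rw [dist_eq_norm]
        simpa using hz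
      have h3 := hn (x - z) h2
      nlinarith [abs_nonneg (a z)]
  -- the far part
  obtain ⟨R, hR⟩ := hK.isBounded.subset_closedBall (0 : E)
  have hfarp : ∀ j ≤ N, ∃ C : ℝ, 0 ≤ C ∧ ∀ᶠ n in atTop, ∀ x ∈ K,
      ‖iteratedFDeriv ℝ j (T κ (fn P n)) x‖ ≤ C := by
    intro j hj
    obtain ⟨C, hC, hb⟩ := (hκ N).2 j hj
    refine ⟨C * (1 + |R|), by positivity, ?_⟩
    filter_upwards [fn_weighted h] with n hn x hx
    have hcomm : T κ (fn P n) = T (fn P n) κ := by
      ext x
      exact T_comm _ _ x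
    have hdom : ∀ i ≤ j, Dom (fn P n) (iteratedFDeriv ℝ i κ) := by
      intro i hi R'
      obtain ⟨C', hC', hb'⟩ := (hκ N).2 i (hi.trans hj)
      refine ⟨fun z => C' * (1 + |R'|) * ((1 + ‖z‖) * |fn P n z|), (fn_weighted_int n).const_mul _, ?_⟩
      intro y z hy
      have h1 := hb' (y - z)
      rw [Real.rpow_one] at h1
      have h2 : 1 + ‖y - z‖ ≤ (1 + |R'|) * (1 + ‖z‖) := by
        have h3 := norm_sub_le y z
        have h4 := hy.trans (le_abs_self R')
        nlinarith [norm_nonneg z, abs_nonneg R']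
      rw [Real.norm_eq_abs]
      calc |fn P n z| * ‖iteratedFDeriv ℝ i κ (y - z)‖
          ≤ |fn P n z| * (C' * ((1 + |R'|) * (1 + ‖z‖))) := by
            gcongr
            exact h1.trans (by gcongr)
        _ = _ := by ring
    have h1 := T_iter (fn_cont n).aestronglyMeasurable ((hκ N).1.of_le (by exact_mod_cast le_top)) hdom j le_rfl
    rw [hcomm, h1]
    unfold T
    refine (norm_integral_le_integral_norm _).trans ?_
    have h2 : ∫ z, ‖fn P n z • iteratedFDeriv ℝ j κ (x - z)‖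
        ≤ ∫ z, C * (1 + |R|) * ((1 + ‖z‖) * |fn P n z|) := by
      apply integral_mono_of_nonneg (ae_of_all _ fun z => norm_nonneg _)
        ((fn_weighted_int n).const_mul _)
      refine ae_of_all _ fun z => ?_
      simp only
      rw [norm_smul, Real.norm_eq_abs]
      have h3 := hb (x - z)
      rw [Real.rpow_one] at h3
      have hx' : ‖x‖ ≤ |R| := by
        have := hR hx
        rw [mem_closedBall_zero_iff] at this
        exact this.trans (le_abs_self R)
      have h4 : 1 + ‖x - z‖ ≤ (1 + |R|) * (1 + ‖z‖) := by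
        have h5 := norm_sub_le x z
        nlinarith [norm_nonneg z, abs_nonneg R]
      calc |fn P n z| * ‖iteratedFDeriv ℝ j κ (x - z)‖
          ≤ |fn P n z| * (C * ((1 + |R|) * (1 + ‖z‖))) := by
            gcongr
            exact h3.trans (by gcongr)
        _ = _ := by ring
    refine h2.trans ?_
    rw [integral_const_mul]
    calc C * (1 + |R|) * ∫ z, (1 + ‖z‖) * |fn P n z| ≤ C * (1 + |R|) * 1 := by gcongr
      _ = _ := mul_one _
  -- smoothness of both parts
  have hsm1 : ∀ n, ContDiff ℝ ∞ (T a (fn P n)) := by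
    intro n
    rw [contDiff_infty]
    intro k
    exact T_contDiff ham ((fn_Gr P n k).1.of_le (by exact_mod_cast le_top)) ((fn_Gr P n k).dom haint)
  have hsm2 : ∀ n, ContDiff ℝ ∞ (T κ (fn P n)) := by
    intro n
    rw [contDiff_infty]
    intro k
    exact T_contDiff hκm.aestronglyMeasurable ((fn_Gr P n k).1.of_le (by exact_mod_cast le_top))
      ((fn_Gr P n k).dom hκint)
  have hU1 : UB N K (fun n => T a (fn P n)) := ⟨hsm1, hnear⟩
  have hU2 : UB N K (fun n => T κ (fn P n)) := ⟨hsm2, hfarp⟩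
  have hsum : ∀ n, ww P n = fun x => -(1 / (8 * Real.pi ^ 2)) * (T a (fn P n) x + T κ (fn P n) x) := by
    intro n
    ext x
    unfold ww Pot
    congr 1
    unfold T
    have i1 := (((fn_Gr P n 0).dom haint) 0 le_rfl)
    have i2 := (((fn_Gr P n 0).dom hκint) 0 le_rfl)
    have i1' : Integrable (fun z => a z • fn P n (x - z)) := by
      have hd : Dom a (fn P n) := by
        intro R
        obtain ⟨b, hb, hbd⟩ := i1 R
        exact ⟨b, hb, fun x z hx => by simpa using hbd x z hx⟩
      exact hd.integrable ham (fn_cont n) x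
    have i2' : Integrable (fun z => κ z • fn P n (x - z)) := by
      have hd : Dom κ (fn P n) := by
        intro R
        obtain ⟨b, hb, hbd⟩ := i2 R
        exact ⟨b, hb, fun x z hx => by simpa using hbd x z hx⟩
      exact hd.integrable hκm.aestronglyMeasurable (fn_cont n) x
    rw [← integral_add i1' i2']
    congr 1
    ext z
    rw [← add_smul, ha]
    simp only [sub_add_cancel]
  have hfin : UB N K (fun n x => (fun _ (_ : E) => -(1 / (8 * Real.pi ^ 2))) n x *
      (T a (fn P n) x + T κ (fn P n) x)) := by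
    apply UB.mul _ (hU1.add hU2)
    exact UB.scal (C := 1 / (8 * Real.pi ^ 2)) (Eventually.of_forall fun n => by
      rw [abs_neg, abs_of_nonneg (by positivity)]) (by positivity)
  have : ww P = fun n x => (fun _ (_ : E) => -(1 / (8 * Real.pi ^ 2))) n x *
      (T a (fn P n) x + T κ (fn P n) x) := by
    ext n x
    rw [hsum n]
  rw [this]
  exact hfin

end

end Pool.Agent.K7.H86.QC
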