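import Pool.Agent.K7.H86.QC.Constr

/-! Pointwise estimates for the approximate solutions. -/

set_option autoImplicit false

open MeasureTheory Set Filter Topology Metric
open scoped ContDiff Laplacian InnerProductSpace

namespace Pool.Agent.K7.H86.QC

/-- the data attached to a finite set of concentration points -/
structure Cfg (P : Finset E) (ρ M : ℝ) : Prop where
  first : ∀ p ∈ P, p 0 = -1
  rho_pos : 0 < ρ
  rho_le : ρ ≤ 1 / 4
  sep : ∀ p ∈ P, ∀ j ∈ P, p ≠ j → 4 * ρ ≤ ‖p - j‖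
  one_le : 1 ≤ M
  bdd : ∀ p ∈ P, ‖p‖ ≤ M
  wt_le : ∀ p ∈ P, wt P p ≤ M
  le_wt : ∀ p ∈ P, 1 ≤ M * wt P p

lemma exists_Cfg (P : Finset E) (hP : ∀ p ∈ P, p 0 = -1) : ∃ ρ M, Cfg P ρ M := by
  classical
  -- the separation
  have h1 : ∃ ρ : ℝ, 0 < ρ ∧ ρ ≤ 1 / 4 ∧ ∀ p ∈ P, ∀ j ∈ P, p ≠ j → 4 * ρ ≤ ‖p - j‖ := by
    set S := ((P ×ˢ P).filter fun q => q.1 ≠ q.2).image fun q => ‖q.1 - q.2‖ with hS
    rcases S.eq_empty_or_nonempty with h | h
    · refine ⟨1 / 4, by norm_num, le_rfl, fun p hp j hj hpj => ?_⟩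
      exfalso
      have : ‖p - j‖ ∈ S := by
        rw [hS, Finset.mem_image]
        exact ⟨(p, j), by simp [hp, hj, hpj], rfl⟩
      rw [h] at this
      simp at this
    · set μ := S.min' h
      have hμ : 0 < μ := by
        have hmem : ∀ z ∈ S, ∃ q ∈ ((P ×ˢ P).filter fun q => q.1 ≠ q.2), ‖q.1 - q.2‖ = z := by
          intro z hz
          rw [hS, Finset.mem_image] at hz
          exact hz
        obtain ⟨q, hq, hq2⟩ := hmem _ (S.min'_mem h)
        rw [Finset.mem_filter] at hq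
        show 0 < S.min' h
        rw [← hq2]
        exact norm_pos_iff.2 (sub_ne_zero.2 hq.2)
      refine ⟨min (1 / 4) (μ / 4), by positivity, min_le_left _ _, fun p hp j hj hpj => ?_⟩
      have h2 : μ ≤ ‖p - j‖ := by
        apply S.min'_le
        rw [hS, Finset.mem_image]
        exact ⟨(p, j), by simp [hp, hj, hpj], rfl⟩
      have h3 := min_le_right (1 / 4) (μ / 4)
      linarith
  obtain ⟨ρ, hρ, hρ4, hsep⟩ := h1
  have hw : ∀ p, 0 < wt P p := wt_pos P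
  refine ⟨ρ, 1 + ∑ p ∈ P, (‖p‖ + wt P p + (wt P p)⁻¹), hP, hρ, hρ4, hsep, ?_, ?_, ?_, ?_⟩
  · have : 0 ≤ ∑ p ∈ P, (‖p‖ + wt P p + (wt P p)⁻¹) :=
      Finset.sum_nonneg fun p _ => by have := hw p; positivity
    linarith
  · intro p hp
    have h2 := Finset.single_le_sum (f := fun p => ‖p‖ + wt P p + (wt P p)⁻¹)
      (fun i _ => by have := hw i; positivity) hp
    have h3 := hw p
    have h4 : 0 < (wt P p)⁻¹ := by positivity
    linarith
  · intro p hp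
    have h2 := Finset.single_le_sum (f := fun p => ‖p‖ + wt P p + (wt P p)⁻¹)
      (fun i _ => by have := hw i; positivity) hp
    have h3 := hw p
    have h4 : 0 < (wt P p)⁻¹ := by positivity
    have h5 := norm_nonneg p
    linarith
  · intro p hp
    have h2 := Finset.single_le_sum (f := fun p => ‖p‖ + wt P p + (wt P p)⁻¹)
      (fun i _ => by have := hw i; positivity) hp
    have h3 := hw p
    have h5 := norm_nonneg p
    have h6 : (wt P p)⁻¹ * wt P p = 1 := inv_mul_cancel₀ h3.ne'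
    nlinarith

section
variable {P : Finset E} {ρ M : ℝ}

lemma abs_coord_le (x : E) (i : Fin 4) : |x i| ≤ ‖x‖ := by
  have := PiLp.norm_apply_le x i
  simpa using this

lemma F0_eq {m : ℝ} (hm : 0 < m) (x : E) :
    F0 P m x = m ^ 4 * Real.exp (4 * m ^ 64 * phi x) * Real.exp (4 * qq x) *
      ∏ p ∈ P, ((Q (rr P m p) p x)⁻¹) ^ 4 := by
  unfold F0 u0 uA
  have h1 : 4 * (m ^ 64 * phi x + qq x + Real.log m + ∑ p ∈ P, (-1) * Real.log (Q (rr P m p) p x))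
      = 4 * Real.log m + 4 * m ^ 64 * phi x + 4 * qq x +
        ∑ p ∈ P, 4 * ((-1) * Real.log (Q (rr P m p) p x)) := by
    rw [← Finset.mul_sum (a := (4 : ℝ))]; ring
  rw [h1, Real.exp_add, Real.exp_add, Real.exp_add, Real.exp_sum]
  congr 1
  · congr 2
    rw [show 4 * Real.log m = Real.log (m ^ 4) by rw [Real.log_pow]; norm_num, Real.exp_log (by positivity)]
  · apply Finset.prod_congr rfl
    intro p _
    have hq := Q_pos (rr_pos P hm p) p x
    rw [show 4 * ((-1) * Real.log (Q (rr P m p) p x)) = Real.log (((Q (rr P m p) p x)⁻¹) ^ 4) by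
      rw [Real.log_pow, Real.log_inv]; push_cast; ring, Real.exp_log (by positivity)]

open Classical in
/-- the exponent comparing the solution with the bubble at `p` -/
noncomputable def hh (P : Finset E) (m : ℝ) (p x : E) : ℝ :=
  4 * m ^ 64 * (phi x + 4 / 3) + 4 * (qq x - qq p) -
    4 * ∑ j ∈ P.erase p, (Real.log (Q (rr P m j) j x) - 2 * Real.log ‖p - j‖)

/-- the bubble at `p` -/
noncomputable def Db (P : Finset E) (m : ℝ) (p x : E) : ℝ :=
  96 * rr P m p ^ 4 * ((Q (rr P m p) p x)⁻¹) ^ 4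

lemma F0_eq_bubble {m : ℝ} (hm : 0 < m) {p : E} (hp : p ∈ P) (x : E) :
    F0 P m x = Db P m p x * Real.exp (hh P m p x) := by
  classical
  rw [F0_eq hm, ← Finset.mul_prod_erase P _ hp]
  unfold Db hh
  rw [rr_pow]
  unfold cf
  have h1 : 4 * m ^ 64 * (phi x + 4 / 3) + 4 * (qq x - qq p) -
      4 * ∑ j ∈ P.erase p, (Real.log (Q (rr P m j) j x) - 2 * Real.log ‖p - j‖)
      = 4 * m ^ 64 * phi x + 16 / 3 * m ^ 64 + 4 * qq x + (-(4 * qq p)) +
        ∑ j ∈ P.erase p, (-4) * (Real.log (Q (rr P m j) j x) - 2 * Real.log ‖p - j‖) := by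
    rw [← Finset.mul_sum (a := (-4 : ℝ))]; ring
  rw [h1, Real.exp_add, Real.exp_add, Real.exp_add, Real.exp_add, Real.exp_sum]
  have h2 : ∏ j ∈ P.erase p, Real.exp ((-4) * (Real.log (Q (rr P m j) j x) - 2 * Real.log ‖p - j‖))
      = (∏ j ∈ P.erase p, ((Q (rr P m j) j x)⁻¹) ^ 4) * ∏ j ∈ P.erase p, ‖p - j‖ ^ 8 := by
    rw [← Finset.prod_mul_distrib]
    apply Finset.prod_congr rfl
    intro j hj
    rw [Finset.mem_erase] at hj
    have hq := Q_pos (rr_pos P hm j) j x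
    have hpj : 0 < ‖p - j‖ := norm_pos_iff.2 (sub_ne_zero.2 (Ne.symm hj.1))
    rw [show (-4) * (Real.log (Q (rr P m j) j x) - 2 * Real.log ‖p - j‖)
      = Real.log (((Q (rr P m j) j x)⁻¹) ^ 4 * ‖p - j‖ ^ 8) by
      rw [Real.log_mul (by positivity) (by positivity), Real.log_pow, Real.log_pow, Real.log_inv]
      push_cast; ring, Real.exp_log (by positivity)]
  have h3 : (∏ j ∈ P.erase p, (‖p - j‖ ^ 8)⁻¹) * ∏ j ∈ P.erase p, ‖p - j‖ ^ 8 = 1 := by
    rw [← Finset.prod_mul_distrib]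
    apply Finset.prod_eq_one
    intro j hj
    rw [Finset.mem_erase] at hj
    have hpj : 0 < ‖p - j‖ := norm_pos_iff.2 (sub_ne_zero.2 (Ne.symm hj.1))
    field_simp
  have h4 : Real.exp (-(16 / 3) * m ^ 64) * Real.exp (16 / 3 * m ^ 64) = 1 := by
    rw [← Real.exp_add, show -(16 / 3) * m ^ 64 + 16 / 3 * m ^ 64 = 0 by ring, Real.exp_zero]
  have h5 : Real.exp (4 * qq p) * Real.exp (-(4 * qq p)) = 1 := by
    rw [← Real.exp_add, add_neg_cancel, Real.exp_zero]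
  rw [h2]
  set A1 := Real.exp (4 * m ^ 64 * phi x)
  set A2 := Real.exp (4 * qq x)
  set A3 := Real.exp (-(16 / 3) * m ^ 64)
  set A4 := Real.exp (16 / 3 * m ^ 64)
  set A5 := Real.exp (4 * qq p)
  set A6 := Real.exp (-(4 * qq p))
  set A7 := ∏ j ∈ P.erase p, (‖p - j‖ ^ 8)⁻¹
  set A8 := ∏ j ∈ P.erase p, ‖p - j‖ ^ 8
  set A9 := ∏ j ∈ P.erase p, ((Q (rr P m j) j x)⁻¹) ^ 4
  calc m ^ 4 * A1 * A2 * (((Q (rr P m p) p x)⁻¹) ^ 4 * A9)
      = m ^ 4 * A1 * A2 * (((Q (rr P m p) p x)⁻¹) ^ 4 * A9) * (A3 * A4) * (A5 * A6) * (A7 * A8) := by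
        rw [h3, h4, h5]; ring
    _ = _ := by ring

lemma kap_le {m : ℝ} (hm : 1 ≤ m) : kap m ≤ 1 := by
  unfold kap
  have h1 : m ≤ m ^ 64 := le_self_pow₀ hm (by norm_num)
  have h2 : m * Real.exp (-(4 / 3) * m ^ 64) ≤ 1 := by
    have h3 : m ≤ Real.exp (4 / 3 * m ^ 64) := by
      have := Real.add_one_le_exp (4 / 3 * m ^ 64)
      linarith
    have h4 : Real.exp (4 / 3 * m ^ 64) * Real.exp (-(4 / 3) * m ^ 64) = 1 := by
      rw [← Real.exp_add, show 4 / 3 * m ^ 64 + -(4 / 3) * m ^ 64 = 0 by ring, Real.exp_zero]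
    have h5 := Real.exp_pos (-(4 / 3) * m ^ 64)
    nlinarith
  linarith

lemma abs_log_sub_le {a b c : ℝ} (hc : 0 < c) (ha : c ≤ a) (hb : c ≤ b) :
    |Real.log a - Real.log b| ≤ |a - b| / c := by
  have ha0 : 0 < a := hc.trans_le ha
  have hb0 : 0 < b := hc.trans_le hb
  have key : ∀ u v : ℝ, c ≤ u → c ≤ v → Real.log u - Real.log v ≤ |u - v| / c := by
    intro u v hu hv
    have hu0 : 0 < u := hc.trans_le hu
    have hv0 : 0 < v := hc.trans_le hv
    rw [← Real.log_div hu0.ne' hv0.ne']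
    have h1 := Real.log_le_sub_one_of_pos (div_pos hu0 hv0)
    have h2 : u / v - 1 = (u - v) / v := by field_simp
    have h3 : (u - v) / v ≤ |u - v| / c :=
      calc (u - v) / v ≤ |u - v| / v := by gcongr; exact le_abs_self _
        _ ≤ |u - v| / c := by gcongr
    linarith
  rw [abs_le]
  constructor
  · have := key b a hb ha
    rw [abs_sub_comm] at this
    linarith
  · exact key a b ha hb

lemma phi_near {x : E} {p : E} (hp : p 0 = -1) {ρ : ℝ} (hρ : ρ ≤ 1 / 4) (hx : ‖x - p‖ < ρ) :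
    0 ≤ phi x + 4 / 3 ∧ phi x + 4 / 3 ≤ 13 / 12 * ‖x - p‖ ^ 2 := by
  have h1 : |x 0 + 1| ≤ ‖x - p‖ := by
    have := abs_coord_le (x - p) 0
    simpa [hp] using this
  set s := x 0 + 1 with hs
  have h2 : phi x + 4 / 3 = s ^ 2 * (1 - s / 3) := by
    unfold phi; rw [hs]; ring
  have h3 := abs_le.1 (h1.trans hx.le)
  have h4 : s ^ 2 ≤ ‖x - p‖ ^ 2 := by
    rw [← sq_abs s]
    gcongr
  rw [h2]
  constructor
  · apply mul_nonneg (sq_nonneg _)
    linarith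
  · calc s ^ 2 * (1 - s / 3) ≤ s ^ 2 * (13 / 12) := by
          apply mul_le_mul_of_nonneg_left _ (sq_nonneg _)
          linarith
      _ ≤ _ := by linarith

lemma qq_near (hM : 1 ≤ M) {x p : E} (hp : ‖p‖ ≤ M) (hx : ‖x - p‖ ≤ 1) :
    |qq x - qq p| ≤ (4 * M + 2) * ‖x - p‖ := by
  have hxn : ‖x‖ ≤ M + 1 := by
    calc ‖x‖ = ‖p + (x - p)‖ := by congr 1; abel
      _ ≤ ‖p‖ + ‖x - p‖ := norm_add_le _ _
      _ ≤ _ := by linarith
  have h1 : |‖x‖ ^ 2 - ‖p‖ ^ 2| ≤ (2 * M + 1) * ‖x - p‖ := by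
    have : ‖x‖ ^ 2 - ‖p‖ ^ 2 = (‖x‖ - ‖p‖) * (‖x‖ + ‖p‖) := by ring
    rw [this, abs_mul, abs_of_nonneg (by positivity : 0 ≤ ‖x‖ + ‖p‖), mul_comm]
    have h2 := abs_norm_sub_norm_le x p
    apply mul_le_mul _ h2 (abs_nonneg _) (by linarith)
    linarith
  have h2 : |(x 0) ^ 2 - (p 0) ^ 2| ≤ (2 * M + 1) * ‖x - p‖ := by
    have : (x 0) ^ 2 - (p 0) ^ 2 = (x 0 - p 0) * (x 0 + p 0) := by ring
    rw [this, abs_mul, mul_comm]
    have h3 : |x 0 - p 0| ≤ ‖x - p‖ := by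
      have := abs_coord_le (x - p) 0
      simpa using this
    have h4 : |x 0 + p 0| ≤ 2 * M + 1 := by
      have h5 := abs_coord_le x 0
      have h6 := abs_coord_le p 0
      have := abs_add_le (x 0) (p 0)
      linarith
    exact mul_le_mul h4 h3 (abs_nonneg _) (by linarith)
  have h3 : qq x - qq p = -(‖x‖ ^ 2 - ‖p‖ ^ 2) + ((x 0) ^ 2 - (p 0) ^ 2) := by unfold qq; ring
  rw [h3]
  have h4 := abs_add_le (-(‖x‖ ^ 2 - ‖p‖ ^ 2)) ((x 0) ^ 2 - (p 0) ^ 2)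
  rw [abs_neg] at h4
  linarith

lemma logQ_near (h : Cfg P ρ M) {m : ℝ} (hm : 1 ≤ m) {p j : E} (hp : p ∈ P) (hj : j ∈ P)
    (hpj : p ≠ j) {x : E} (hx : ‖x - p‖ < ρ) :
    |Real.log (Q (rr P m j) j x) - 2 * Real.log ‖p - j‖|
      ≤ (M ^ 2 + (4 * M + 1)) / (9 * ρ ^ 2) * (kap m + ‖x - p‖) := by
  have hρ := h.rho_pos
  have hM := h.one_le
  have hk := kap_pos (show 0 < m by linarith)
  have hk1 := kap_le hm
  have hsep := h.sep p hp j hj hpj
  have hxj : 3 * ρ ≤ ‖x - j‖ := by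
    have : ‖p - j‖ ≤ ‖x - p‖ + ‖x - j‖ := by
      calc ‖p - j‖ = ‖-(x - p) + (x - j)‖ := by congr 1; abel
        _ ≤ ‖-(x - p)‖ + ‖x - j‖ := norm_add_le _ _
        _ = _ := by rw [norm_neg]
    linarith
  have h1 : 9 * ρ ^ 2 ≤ Q (rr P m j) j x := by
    unfold Q
    nlinarith [sq_nonneg (rr P m j), norm_nonneg (x - j)]
  have h2 : 9 * ρ ^ 2 ≤ ‖p - j‖ ^ 2 := by nlinarith
  have h3 := abs_log_sub_le (by positivity) h1 h2
  have h4 : Real.log (‖p - j‖ ^ 2) = 2 * Real.log ‖p - j‖ := by rw [Real.log_pow]; norm_num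
  rw [h4] at h3
  refine h3.trans ?_
  rw [div_mul_eq_mul_div]
  apply div_le_div_of_nonneg_right _ (by positivity)
  have h5 : |Q (rr P m j) j x - ‖p - j‖ ^ 2| ≤ (rr P m j) ^ 2 + |‖x - j‖ ^ 2 - ‖p - j‖ ^ 2| := by
    have : Q (rr P m j) j x - ‖p - j‖ ^ 2 = (rr P m j) ^ 2 + (‖x - j‖ ^ 2 - ‖p - j‖ ^ 2) := by
      unfold Q; ring
    rw [this]
    refine (abs_add_le _ _).trans ?_
    rw [abs_of_nonneg (sq_nonneg (rr P m j))]
  have h6 : |‖x - j‖ ^ 2 - ‖p - j‖ ^ 2| ≤ (4 * M + 1) * ‖x - p‖ := by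
    have : ‖x - j‖ ^ 2 - ‖p - j‖ ^ 2 = (‖x - j‖ - ‖p - j‖) * (‖x - j‖ + ‖p - j‖) := by ring
    rw [this, abs_mul, abs_of_nonneg (by positivity : 0 ≤ ‖x - j‖ + ‖p - j‖), mul_comm]
    have h7 := abs_norm_sub_norm_le (x - j) (p - j)
    rw [sub_sub_sub_cancel_right] at h7
    apply mul_le_mul _ h7 (abs_nonneg _) (by linarith)
    have h8 := norm_sub_le p j
    have h9 := h.bdd p hp
    have h10 := h.bdd j hj
    have h11 : ‖x - j‖ ≤ ‖x - p‖ + ‖p - j‖ := by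
      calc ‖x - j‖ = ‖(x - p) + (p - j)‖ := by congr 1; abel
        _ ≤ _ := norm_add_le _ _
    have := h.rho_le
    linarith
  have h7 : (rr P m j) ^ 2 ≤ M ^ 2 * kap m := by
    have h8 := h.wt_le j hj
    have h9 := wt_pos P j
    unfold rr
    calc (kap m * wt P j) ^ 2 = kap m * kap m * wt P j ^ 2 := by ring
      _ ≤ kap m * 1 * M ^ 2 := by gcongr
      _ = _ := by ring
  have h8 := norm_nonneg (x - p)
  nlinarith [sq_nonneg M, mul_nonneg (sq_nonneg M) h8, mul_nonneg (show 0 ≤ 4 * M + 1 by linarith) hk.le]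

/-- the constant in the bound for `hh` -/
noncomputable def Ch (P : Finset E) (ρ M : ℝ) : ℝ :=
  4 * (4 * M + 2) + 4 * (P.card * ((M ^ 2 + (4 * M + 1)) / (9 * ρ ^ 2)))

lemma hh_bound (h : Cfg P ρ M) {m : ℝ} (hm : 1 ≤ m) {p : E} (hp : p ∈ P) {x : E}
    (hx : ‖x - p‖ < ρ) :
    |hh P m p x| ≤ 13 / 3 * m ^ 64 * ‖x - p‖ ^ 2 + Ch P ρ M * (kap m + ‖x - p‖) := by
  classical
  have hρ := h.rho_pos
  have hM := h.one_le
  have hk := kap_pos (show 0 < m by linarith)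
  have hm64 : 0 < m ^ 64 := by positivity
  have hn := norm_nonneg (x - p)
  obtain ⟨h1, h2⟩ := phi_near (h.first p hp) h.rho_le hx
  have h3 := qq_near hM (h.bdd p hp) (hx.le.trans (h.rho_le.trans (by norm_num)))
  have h4 : |∑ j ∈ P.erase p, (Real.log (Q (rr P m j) j x) - 2 * Real.log ‖p - j‖)|
      ≤ P.card * ((M ^ 2 + (4 * M + 1)) / (9 * ρ ^ 2) * (kap m + ‖x - p‖)) := by
    refine (Finset.abs_sum_le_sum_abs _ _).trans ?_
    have h5 : ∀ j ∈ P.erase p, |Real.log (Q (rr P m j) j x) - 2 * Real.log ‖p - j‖|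
        ≤ (M ^ 2 + (4 * M + 1)) / (9 * ρ ^ 2) * (kap m + ‖x - p‖) := by
      intro j hj
      rw [Finset.mem_erase] at hj
      exact logQ_near h hm hp hj.2 (Ne.symm hj.1) hx
    refine (Finset.sum_le_card_nsmul _ _ _ h5).trans ?_
    rw [nsmul_eq_mul]
    have h6 : ((P.erase p).card : ℝ) ≤ P.card := by exact_mod_cast Finset.card_erase_le
    have h7 : 0 ≤ (M ^ 2 + (4 * M + 1)) / (9 * ρ ^ 2) * (kap m + ‖x - p‖) := by positivity
    exact mul_le_mul_of_nonneg_right h6 h7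
  unfold hh Ch
  have h5 : |4 * m ^ 64 * (phi x + 4 / 3)| ≤ 13 / 3 * m ^ 64 * ‖x - p‖ ^ 2 := by
    rw [abs_of_nonneg (by positivity)]
    nlinarith
  have h6 := abs_sub (4 * m ^ 64 * (phi x + 4 / 3) + 4 * (qq x - qq p))
    (4 * ∑ j ∈ P.erase p, (Real.log (Q (rr P m j) j x) - 2 * Real.log ‖p - j‖))
  have h7 := abs_add_le (4 * m ^ 64 * (phi x + 4 / 3)) (4 * (qq x - qq p))
  rw [abs_mul (4 : ℝ) (∑ j ∈ P.erase p, _), abs_of_nonneg (by norm_num : (0 : ℝ) ≤ 4)] at h6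
  rw [abs_mul (4 : ℝ) (qq x - qq p), abs_of_nonneg (by norm_num : (0 : ℝ) ≤ 4)] at h7
  have h8 : 0 ≤ 4 * (4 * M + 2) * kap m := by positivity
  linarith

lemma abs_exp_sub_one_le' (t : ℝ) : |Real.exp t - 1| ≤ |t| * Real.exp |t| := by
  rcases le_total 0 t with h | h
  · rw [abs_of_nonneg h, abs_of_nonneg (by linarith [Real.one_le_exp h])]
    have h1 := Real.add_one_le_exp (-t)
    have h2 : Real.exp t * Real.exp (-t) = 1 := by rw [← Real.exp_add, add_neg_cancel, Real.exp_zero]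
    have h3 := Real.exp_pos t
    nlinarith
  · rw [abs_of_nonpos h, abs_of_nonpos (by linarith [Real.exp_le_one_iff.2 h])]
    have h1 := Real.add_one_le_exp t
    have h2 : 1 ≤ Real.exp (-t) := Real.one_le_exp (by linarith)
    nlinarith

end

end Pool.Agent.K7.H86.QC
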