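import Pool.Agent.K7.H86.QC.Est

/-! Pointwise estimates: near and away from the bubbles. -/

set_option autoImplicit false

open MeasureTheory Set Filter Topology Metric
open scoped ContDiff Laplacian InnerProductSpace

namespace Pool.Agent.K7.H86.QC

section
variable {P : Finset E} {ρ M : ℝ}

lemma Ch_nonneg (h : Cfg P ρ M) : 0 ≤ Ch P ρ M := by
  have hρ := h.rho_pos
  have hM := h.one_le
  unfold Ch
  positivity

/-- interpolation of the bubble -/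
lemma bubble_interp {r d : ℝ} (hr : 0 < r) (hd : 0 < d) :
    r ^ 4 * (((r ^ 2 + d ^ 2)⁻¹) ^ 4 * (r + d)) ≤ 2 * (r ^ (1 / 2 : ℝ) * d ^ (-(7 / 2) : ℝ)) := by
  have hQ : 0 < r ^ 2 + d ^ 2 := by positivity
  have hrd : 0 < r * d := by positivity
  have h1 : r + d ≤ 2 * (r ^ 2 + d ^ 2) ^ (1 / 2 : ℝ) := by
    rw [← Real.sqrt_eq_rpow]
    have h2 : r ≤ Real.sqrt (r ^ 2 + d ^ 2) := Real.le_sqrt_of_sq_le (by nlinarith)
    have h3 : d ≤ Real.sqrt (r ^ 2 + d ^ 2) := Real.le_sqrt_of_sq_le (by nlinarith)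
    linarith
  have h2 : ((r ^ 2 + d ^ 2)⁻¹) ^ 4 * (r ^ 2 + d ^ 2) ^ (1 / 2 : ℝ) = (r ^ 2 + d ^ 2) ^ (-(7 / 2) : ℝ) := by
    have h3 : ((r ^ 2 + d ^ 2)⁻¹) ^ 4 = (r ^ 2 + d ^ 2) ^ (-4 : ℝ) := by
      rw [Real.rpow_neg hQ.le, inv_pow, show (4 : ℝ) = ((4 : ℕ) : ℝ) by norm_num, Real.rpow_natCast]
    rw [h3, ← Real.rpow_add hQ]
    norm_num
  have h3 : (r ^ 2 + d ^ 2) ^ (-(7 / 2) : ℝ) ≤ (r * d) ^ (-(7 / 2) : ℝ) := by
    apply Real.rpow_le_rpow_of_nonpos hrd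
    · nlinarith [sq_nonneg (r - d)]
    · norm_num
  have h4 : r ^ 4 * (r * d) ^ (-(7 / 2) : ℝ) = r ^ (1 / 2 : ℝ) * d ^ (-(7 / 2) : ℝ) := by
    rw [Real.mul_rpow hr.le hd.le, ← mul_assoc, ← Real.rpow_natCast r 4, ← Real.rpow_add hr]
    norm_num
  calc r ^ 4 * (((r ^ 2 + d ^ 2)⁻¹) ^ 4 * (r + d))
      ≤ r ^ 4 * (((r ^ 2 + d ^ 2)⁻¹) ^ 4 * (2 * (r ^ 2 + d ^ 2) ^ (1 / 2 : ℝ))) := by gcongr
    _ = 2 * (r ^ 4 * (((r ^ 2 + d ^ 2)⁻¹) ^ 4 * (r ^ 2 + d ^ 2) ^ (1 / 2 : ℝ))) := by ring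
    _ = 2 * (r ^ 4 * (r ^ 2 + d ^ 2) ^ (-(7 / 2) : ℝ)) := by rw [h2]
    _ ≤ 2 * (r ^ 4 * (r * d) ^ (-(7 / 2) : ℝ)) := by gcongr
    _ = _ := by rw [h4]

/-- the rate near the bubbles -/
noncomputable def G1 (m : ℝ) : ℝ := m ^ 128 * Real.exp (-(19 / 48) * m ^ 64)

lemma near_bubble (h : Cfg P ρ M) : ∃ C : ℝ, 0 ≤ C ∧ ∀ m : ℝ, 1 ≤ m → ∀ p ∈ P, ∀ x : E, x ≠ p →
    ‖x - p‖ < ρ → |F0 P m x - Db P m p x| ≤ C * G1 m * ‖x - p‖ ^ (-(7 / 2) : ℝ) := by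
  have hρ := h.rho_pos
  have hM := h.one_le
  set C0 := Ch P ρ M with hC0
  have hC0n : 0 ≤ C0 := Ch_nonneg h
  refine ⟨96 * ((5 + C0) * M) * Real.exp (2 * C0) * 2 * M, by positivity, ?_⟩
  intro m hm p hp x hxp hx
  have hm0 : 0 < m := by linarith
  set d := ‖x - p‖ with hd
  have hdpos : 0 < d := norm_pos_iff.2 (sub_ne_zero.2 hxp)
  set r := rr P m p with hr
  have hrpos : 0 < r := rr_pos P hm0 p
  set β := m ^ 64 with hβ
  have hβ1 : 1 ≤ β := one_le_pow₀ hm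
  have hmβ : m ≤ β := le_self_pow₀ hm (by norm_num)
  have hk := kap_pos hm0
  have hk1 := kap_le hm
  have hkr : kap m ≤ M * r := by
    have h1 := h.le_wt p hp
    rw [hr]; unfold rr
    nlinarith
  have hd1 : d ≤ 1 := hx.le.trans (h.rho_le.trans (by norm_num))
  have hb := hh_bound h hm hp hx
  rw [← hC0, ← hβ, ← hd] at hb
  -- bound of `|h|`
  have hb1 : |hh P m p x| ≤ (5 + C0) * M * (β * (r + d)) := by
    refine hb.trans ?_
    have h1 : 13 / 3 * β * d ^ 2 ≤ 5 * (β * d) := by nlinarith [mul_nonneg (show 0 ≤ β by linarith) hdpos.le]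
    have h2 : C0 * (kap m + d) ≤ C0 * (M * (β * (r + d))) := by
      apply mul_le_mul_of_nonneg_left _ hC0n
      have h3 : kap m + d ≤ M * (r + d) := by nlinarith
      have h4 : M * (r + d) ≤ M * (β * (r + d)) := by
        apply mul_le_mul_of_nonneg_left _ (by linarith)
        nlinarith
      linarith
    have h5 : 5 * (β * d) ≤ 5 * (M * (β * (r + d))) := by
      have h6 : β * d ≤ β * (r + d) := by nlinarith
      have h7 : β * (r + d) ≤ M * (β * (r + d)) := by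
        have : 0 ≤ β * (r + d) := by positivity
        nlinarith
      linarith
    calc 13 / 3 * β * d ^ 2 + C0 * (kap m + d) ≤ 5 * (M * (β * (r + d))) + C0 * (M * (β * (r + d))) := by
          linarith
      _ = _ := by ring
  -- bound of `exp |h|`
  have hb2 : Real.exp |hh P m p x| ≤ Real.exp (13 / 48 * β) * Real.exp (2 * C0) := by
    rw [← Real.exp_add]
    apply Real.exp_le_exp.2
    refine hb.trans ?_
    have h1 : d ^ 2 ≤ 1 / 16 := by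
      have : d ≤ 1 / 4 := hx.le.trans h.rho_le
      nlinarith
    have h2 : 13 / 3 * β * d ^ 2 ≤ 13 / 48 * β := by nlinarith
    have h3 : C0 * (kap m + d) ≤ 2 * C0 := by nlinarith
    linarith
  -- square root of the scale
  have hrr : r ^ (1 / 2 : ℝ) ≤ M * β * Real.exp (-(2 / 3) * β) := by
    have h1 : r ≤ M * β * Real.exp (-(4 / 3) * β) := by
      rw [hr]; unfold rr kap
      have h2 := h.wt_le p hp
      have h3 := wt_pos P p
      calc 1 / 2 * m * Real.exp (-(4 / 3) * m ^ 64) * wt P p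
          ≤ 1 * β * Real.exp (-(4 / 3) * m ^ 64) * M := by gcongr; norm_num
        _ = _ := by rw [hβ]; ring
    have h2 : r ^ (1 / 2 : ℝ) ≤ (M * β * Real.exp (-(4 / 3) * β)) ^ (1 / 2 : ℝ) :=
      Real.rpow_le_rpow hrpos.le h1 (by norm_num)
    refine h2.trans ?_
    rw [Real.mul_rpow (by positivity) (Real.exp_pos _).le]
    have h3 : (M * β) ^ (1 / 2 : ℝ) ≤ M * β := by
      have h4 : 1 ≤ M * β := by nlinarith
      calc (M * β) ^ (1 / 2 : ℝ) ≤ (M * β) ^ (1 : ℝ) :=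
            Real.rpow_le_rpow_of_exponent_le h4 (by norm_num)
        _ = _ := Real.rpow_one _
    have h4 : (Real.exp (-(4 / 3) * β)) ^ (1 / 2 : ℝ) = Real.exp (-(2 / 3) * β) := by
      rw [← Real.exp_mul]
      congr 1
      ring
    rw [h4]
    gcongr
  have hint := bubble_interp hrpos hdpos
  have hD : Db P m p x = 96 * (r ^ 4 * ((r ^ 2 + d ^ 2)⁻¹) ^ 4) := by
    unfold Db Q
    rw [← hr, ← hd]
    ring
  have hDn : 0 ≤ r ^ 4 * ((r ^ 2 + d ^ 2)⁻¹) ^ 4 := by positivity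
  have hdp : 0 ≤ d ^ (-(7 / 2) : ℝ) := Real.rpow_nonneg hdpos.le _
  have hF : F0 P m x - Db P m p x = Db P m p x * (Real.exp (hh P m p x) - 1) := by
    rw [F0_eq_bubble hm0 hp]; ring
  rw [hF, abs_mul]
  have hDabs : |Db P m p x| = 96 * (r ^ 4 * ((r ^ 2 + d ^ 2)⁻¹) ^ 4) := by
    rw [abs_of_nonneg (by rw [hD]; positivity), hD]
  rw [hDabs]
  have hexp : Real.exp (13 / 48 * β) * Real.exp (-(2 / 3) * β) = Real.exp (-(19 / 48) * β) := by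
    rw [← Real.exp_add]
    congr 1
    ring
  calc 96 * (r ^ 4 * ((r ^ 2 + d ^ 2)⁻¹) ^ 4) * |Real.exp (hh P m p x) - 1|
      ≤ 96 * (r ^ 4 * ((r ^ 2 + d ^ 2)⁻¹) ^ 4) *
        ((5 + C0) * M * (β * (r + d)) * (Real.exp (13 / 48 * β) * Real.exp (2 * C0))) := by
        gcongr
        refine (abs_exp_sub_one_le' _).trans ?_
        gcongr
    _ = 96 * ((5 + C0) * M) * Real.exp (2 * C0) * β * Real.exp (13 / 48 * β) *
        (r ^ 4 * (((r ^ 2 + d ^ 2)⁻¹) ^ 4 * (r + d))) := by ring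
    _ ≤ 96 * ((5 + C0) * M) * Real.exp (2 * C0) * β * Real.exp (13 / 48 * β) *
        (2 * (r ^ (1 / 2 : ℝ) * d ^ (-(7 / 2) : ℝ))) := by gcongr
    _ ≤ 96 * ((5 + C0) * M) * Real.exp (2 * C0) * β * Real.exp (13 / 48 * β) *
        (2 * ((M * β * Real.exp (-(2 / 3) * β)) * d ^ (-(7 / 2) : ℝ))) := by gcongr
    _ = 96 * ((5 + C0) * M) * Real.exp (2 * C0) * 2 * M * (β * β *
        (Real.exp (13 / 48 * β) * Real.exp (-(2 / 3) * β))) * d ^ (-(7 / 2) : ℝ) := by ring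
    _ = 96 * ((5 + C0) * M) * Real.exp (2 * C0) * 2 * M * G1 m * d ^ (-(7 / 2) : ℝ) := by
        rw [hexp]
        unfold G1
        rw [hβ]
        ring

/-- decaying weight -/
noncomputable def dec8 (x : E) : ℝ := (1 + ‖x‖) ^ (-8 : ℝ)

lemma dec8_pos (x : E) : 0 < dec8 x := Real.rpow_pos_of_pos (by positivity) _

lemma dec8_eq (x : E) : dec8 x = ((1 + ‖x‖) ^ 8)⁻¹ := by
  unfold dec8
  rw [Real.rpow_neg (by positivity), show (8 : ℝ) = ((8 : ℕ) : ℝ) by norm_num, Real.rpow_natCast]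

lemma far_bubble' (h : Cfg P ρ M) {η : ℝ} (hρ : 0 < η) : ∃ C : ℝ, 0 ≤ C ∧ ∀ m : ℝ, 1 ≤ m →
    ∀ p ∈ P, ∀ x : E, η ≤ ‖x - p‖ → Db P m p x ≤ C * kap m ^ 4 * dec8 x := by
  have hM := h.one_le
  refine ⟨96 * M ^ 4 * ((1 + M) / η + 1) ^ 8, by positivity, ?_⟩
  intro m hm p hp x hx
  have hm0 : 0 < m := by linarith
  have hk := kap_pos hm0
  have hw := wt_pos P p
  have hd : 0 < ‖x - p‖ := by linarith
  have h1 : 1 + ‖x‖ ≤ ((1 + M) / η + 1) * ‖x - p‖ := by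
    have h2 : ‖x‖ ≤ ‖x - p‖ + ‖p‖ := by
      calc ‖x‖ = ‖(x - p) + p‖ := by congr 1; abel
        _ ≤ _ := norm_add_le _ _
    have h3 := h.bdd p hp
    have h4 : 1 + M ≤ (1 + M) / η * ‖x - p‖ := by
      rw [div_mul_eq_mul_div, le_div_iff₀ hρ]
      nlinarith
    nlinarith
  have h2 : ((Q (rr P m p) p x)⁻¹) ^ 4 ≤ (‖x - p‖ ^ 8)⁻¹ := by
    have h3 : ‖x - p‖ ^ 2 ≤ Q (rr P m p) p x := by
      unfold Q
      nlinarith [sq_nonneg (rr P m p)]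
    have h4 : (‖x - p‖ ^ 2) ^ 4 ≤ (Q (rr P m p) p x) ^ 4 := by gcongr
    rw [inv_pow]
    apply inv_anti₀ (by positivity)
    calc ‖x - p‖ ^ 8 = (‖x - p‖ ^ 2) ^ 4 := by ring
      _ ≤ _ := h4
  have h3 : (‖x - p‖ ^ 8)⁻¹ ≤ ((1 + M) / η + 1) ^ 8 * dec8 x := by
    rw [dec8_eq, ← div_eq_mul_inv, le_div_iff₀ (by positivity), inv_mul_le_iff₀ (by positivity)]
    calc (1 + ‖x‖) ^ 8 ≤ (((1 + M) / η + 1) * ‖x - p‖) ^ 8 := by gcongr
      _ = _ := by ring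
  have h4 : rr P m p ^ 4 ≤ kap m ^ 4 * M ^ 4 := by
    unfold rr
    rw [mul_pow]
    have := h.wt_le p hp
    gcongr
  unfold Db
  calc 96 * rr P m p ^ 4 * ((Q (rr P m p) p x)⁻¹) ^ 4
      ≤ 96 * (kap m ^ 4 * M ^ 4) * (((1 + M) / η + 1) ^ 8 * dec8 x) := by
        have := h2.trans h3
        have h5 : 0 ≤ ((Q (rr P m p) p x)⁻¹) ^ 4 := by
          have := Q_pos (rr_pos P hm0 p) p x
          positivity
        gcongr
    _ = _ := by ring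

lemma far_bubble (h : Cfg P ρ M) : ∃ C : ℝ, 0 ≤ C ∧ ∀ m : ℝ, 1 ≤ m → ∀ p ∈ P, ∀ x : E,
    ρ ≤ ‖x - p‖ → Db P m p x ≤ C * kap m ^ 4 * dec8 x := far_bubble' h h.rho_pos

/-- the singular profile of the planar part -/
noncomputable def th (t : ℝ) : ℝ := |t - 1| ^ (-(1 / 4) : ℝ) + |t + 2| ^ (-(1 / 4) : ℝ)

lemma th_nonneg (t : ℝ) : 0 ≤ th t :=
  add_nonneg (Real.rpow_nonneg (abs_nonneg _) _) (Real.rpow_nonneg (abs_nonneg _) _)

lemma exp_neg_le {y : ℝ} (hy : 0 < y) : Real.exp (-y) ≤ y ^ (-(1 / 8) : ℝ) := by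
  rw [Real.rpow_neg hy.le, Real.exp_neg]
  apply inv_anti₀ (Real.rpow_pos_of_pos hy _)
  rcases le_total 1 y with h | h
  · calc y ^ (1 / 8 : ℝ) ≤ y ^ (1 : ℝ) := Real.rpow_le_rpow_of_exponent_le h (by norm_num)
      _ = y := Real.rpow_one y
      _ ≤ Real.exp y := by linarith [Real.add_one_le_exp y]
  · calc y ^ (1 / 8 : ℝ) ≤ 1 := Real.rpow_le_one hy.le h (by norm_num)
      _ ≤ Real.exp y := Real.one_le_exp hy.le

lemma planar_bound {m : ℝ} (hm : 1 ≤ m) {x : E} (hx : x ∈ Om) (hx1 : x 0 ≠ 1) :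
    Real.exp (4 * m ^ 64 * phi x) ≤ (m ^ 8)⁻¹ * th (x 0) := by
  have hm0 : 0 < m := by linarith
  have ht1 : 0 < |x 0 - 1| := abs_pos.2 (sub_ne_zero.2 hx1)
  have ht2 : 0 < x 0 + 2 := by linarith [hx.1]
  set Y := m ^ 64 * ((x 0 - 1) ^ 2 * (x 0 + 2)) with hY
  have hsq : 0 < (x 0 - 1) ^ 2 := by
    rw [← sq_abs]; positivity
  have hYpos : 0 < Y := by positivity
  have h1 : 4 * m ^ 64 * phi x ≤ -Y := by
    rw [phi_eq, hY]
    nlinarith [mul_pos (show 0 < m ^ 64 by positivity) (mul_pos hsq ht2)]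
  have h2 : Real.exp (4 * m ^ 64 * phi x) ≤ Y ^ (-(1 / 8) : ℝ) :=
    (Real.exp_le_exp.2 h1).trans (exp_neg_le hYpos)
  refine h2.trans ?_
  have h3 : Y ^ (-(1 / 8) : ℝ) = (m ^ 8)⁻¹ * (|x 0 - 1| ^ (-(1 / 4) : ℝ) * (x 0 + 2) ^ (-(1 / 8) : ℝ)) := by
    rw [hY, Real.mul_rpow (by positivity) (by positivity), Real.mul_rpow hsq.le ht2.le]
    congr 1
    · rw [← Real.rpow_natCast m 64, ← Real.rpow_mul hm0.le, ← Real.rpow_natCast m 8, ← Real.rpow_neg hm0.le]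
      norm_num
    · congr 1
      rw [← sq_abs, ← Real.rpow_natCast |x 0 - 1| 2, ← Real.rpow_mul ht1.le]
      norm_num
  rw [h3]
  apply mul_le_mul_of_nonneg_left _ (by positivity)
  unfold th
  have hA : 0 ≤ |x 0 - 1| ^ (-(1 / 4) : ℝ) := Real.rpow_nonneg ht1.le _
  have hB : 0 ≤ |x 0 + 2| ^ (-(1 / 4) : ℝ) := Real.rpow_nonneg (abs_nonneg _) _
  rcases le_total (-1) (x 0) with hc | hc
  · have h4 : (x 0 + 2) ^ (-(1 / 8) : ℝ) ≤ 1 :=
      Real.rpow_le_one_of_one_le_of_nonpos (by linarith) (by norm_num)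
    nlinarith
  · have h4 : |x 0 - 1| ^ (-(1 / 4) : ℝ) ≤ 1 := by
      apply Real.rpow_le_one_of_one_le_of_nonpos _ (by norm_num)
      rw [abs_of_nonpos (by linarith)]
      linarith
    have h5 : (x 0 + 2) ^ (-(1 / 8) : ℝ) ≤ |x 0 + 2| ^ (-(1 / 4) : ℝ) := by
      rw [abs_of_pos ht2]
      apply Real.rpow_le_rpow_of_exponent_ge ht2 (by linarith) (by norm_num)
    have h6 : 0 ≤ (x 0 + 2) ^ (-(1 / 8) : ℝ) := Real.rpow_nonneg ht2.le _
    nlinarith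

lemma far_F0 (h : Cfg P ρ M) : ∃ C : ℝ, 0 ≤ C ∧ ∀ m : ℝ, 1 ≤ m → ∀ x ∈ Om, x 0 ≠ 1 →
    (∀ p ∈ P, ρ ≤ ‖x - p‖) → F0 P m x ≤ C * (m ^ 4)⁻¹ * (th (x 0) * Real.exp (4 * qq x)) := by
  have hρ := h.rho_pos
  refine ⟨((ρ ^ 8)⁻¹) ^ P.card, by positivity, ?_⟩
  intro m hm x hx hx1 hfar
  have hm0 : 0 < m := by linarith
  rw [F0_eq hm0]
  have h1 := planar_bound hm hx hx1
  have h2 : ∏ p ∈ P, ((Q (rr P m p) p x)⁻¹) ^ 4 ≤ ((ρ ^ 8)⁻¹) ^ P.card := by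
    rw [← Finset.prod_const]
    apply Finset.prod_le_prod
    · intro p _
      have := Q_pos (rr_pos P hm0 p) p x
      positivity
    · intro p hp
      have h3 : ρ ^ 2 ≤ Q (rr P m p) p x := by
        have := hfar p hp
        unfold Q
        nlinarith [sq_nonneg (rr P m p)]
      rw [inv_pow]
      apply inv_anti₀ (by positivity)
      calc ρ ^ 8 = (ρ ^ 2) ^ 4 := by ring
        _ ≤ _ := by gcongr
  have h3 : 0 ≤ ∏ p ∈ P, ((Q (rr P m p) p x)⁻¹) ^ 4 := Finset.prod_nonneg fun p _ => by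
    have := Q_pos (rr_pos P hm0 p) p x
    positivity
  have hth := th_nonneg (x 0)
  calc m ^ 4 * Real.exp (4 * m ^ 64 * phi x) * Real.exp (4 * qq x) *
        ∏ p ∈ P, ((Q (rr P m p) p x)⁻¹) ^ 4
      ≤ m ^ 4 * ((m ^ 8)⁻¹ * th (x 0)) * Real.exp (4 * qq x) * ((ρ ^ 8)⁻¹) ^ P.card := by
        gcongr
    _ = _ := by
        field_simp

end

end Pool.Agent.K7.H86.QC
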