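import Pool.Agent.K7.H86.QC.Lap

/-! The logarithm is a fundamental solution of the bilaplacian in four-space. -/

set_option autoImplicit false

open MeasureTheory Set Filter Topology Metric
open scoped ContDiff Laplacian InnerProductSpace

namespace Pool.Agent.K7.H86.QC

lemma two_le_infty : (2 : WithTop ℕ∞) ≤ ∞ := by
  have : ((2 : ℕ∞) : WithTop ℕ∞) ≤ ((⊤ : ℕ∞) : WithTop ℕ∞) := WithTop.coe_le_coe.2 le_top
  exact this

/-- the spherical bubble -/
noncomputable def bub (w : E) : ℝ := 96 * (((1 : ℝ) + ‖w‖ ^ 2)⁻¹) ^ 4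

lemma bub_nonneg (w : E) : 0 ≤ bub w := by unfold bub; positivity

lemma bub_cont : Continuous bub := by
  unfold bub
  have : ∀ w : E, (1 : ℝ) + ‖w‖ ^ 2 ≠ 0 := fun w => by positivity
  fun_prop (disch := assumption)

lemma bub_eq (w : E) : bub w = 96 * ((Q 1 0 w)⁻¹) ^ 4 := by
  unfold bub Q; simp

lemma bub_int : Integrable bub := by
  have h1 := Gr.inv_Q (V := E) one_pos 0 0
  have h2 := (h1.mul h1).mul (h1.mul h1)
  have h3 := (h2.integrable (by norm_num)).const_mul 96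
  refine h3.congr (ae_of_all _ fun w => ?_)
  simp only [bub_eq]
  ring

lemma rad_int : ∫ y in Ioi (0 : ℝ), y ^ 3 * (96 * (((1 : ℝ) + y ^ 2)⁻¹) ^ 4) = 8 := by
  have hd : ∀ x ∈ Ici (0 : ℝ), HasDerivAt
      (fun y : ℝ => -24 * (((1 : ℝ) + y ^ 2)⁻¹) ^ 2 + 16 * (((1 : ℝ) + y ^ 2)⁻¹) ^ 3)
      (x ^ 3 * (96 * (((1 : ℝ) + x ^ 2)⁻¹) ^ 4)) x := by
    intro x _
    have h0 : (1 + x ^ 2 : ℝ) ≠ 0 := by positivity
    have h1 : HasDerivAt (fun y : ℝ => (1 : ℝ) + y ^ 2) (2 * x) x := by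
      have := (hasDerivAt_pow 2 x).const_add (1 : ℝ)
      simpa using this
    have h2 := h1.fun_inv h0
    have h3 := ((h2.fun_pow 2).const_mul (-24)).add ((h2.fun_pow 3).const_mul 16)
    refine h3.congr_deriv ?_
    norm_num
    field_simp
    ring
  have hlim : Tendsto (fun y : ℝ => -24 * (((1 : ℝ) + y ^ 2)⁻¹) ^ 2 + 16 * (((1 : ℝ) + y ^ 2)⁻¹) ^ 3)
      atTop (𝓝 0) := by
    have h1 : Tendsto (fun y : ℝ => ((1 : ℝ) + y ^ 2)⁻¹) atTop (𝓝 0) := by
      apply tendsto_inv_atTop_zero.comp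
      exact tendsto_atTop_add_const_left _ _ (tendsto_pow_atTop (by norm_num))
    have h2 := ((h1.pow 2).const_mul (-24)).add ((h1.pow 3).const_mul 16)
    simpa using h2
  have h := integral_Ioi_of_hasDerivAt_of_nonneg' hd (fun x hx => by
    have : (0:ℝ) < x := hx
    positivity) hlim
  rw [h]
  norm_num

lemma vol_ball : (volume : Measure E).real (ball 0 1) = Real.pi ^ 2 / 2 := by
  have h := InnerProductSpace.volume_ball_of_dim_even (E := E) (k := 2) (by simp [E]) 0 1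
  rw [Measure.real, h]
  simp
  positivity

lemma bub_integral : ∫ w, bub w = 16 * Real.pi ^ 2 := by
  have h := integral_fun_norm_addHaar (volume : Measure E) (fun t : ℝ => 96 * (((1 : ℝ) + t ^ 2)⁻¹) ^ 4)
  have h' : ∫ w, bub w = ∫ x : E, (fun t : ℝ => 96 * (((1 : ℝ) + t ^ 2)⁻¹) ^ 4) ‖x‖ := rfl
  rw [h', h, finrank_E, vol_ball]
  simp only [smul_eq_mul, nsmul_eq_mul]
  rw [show (4 - 1 : ℕ) = 3 by norm_num, rad_int]
  push_cast
  ring

lemma subst_bub {s : ℝ} (hs : 0 < s) (g : E → ℝ) (a : E) :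
    ∫ y, 96 * s ^ 4 * ((Q s a y)⁻¹) ^ 4 * g y = ∫ w, bub w * g (a + s • w) := by
  rw [← integral_add_left_eq_self _ a]
  have h := Measure.integral_comp_smul_of_nonneg (volume : Measure E)
    (fun y => 96 * s ^ 4 * ((Q s a (a + y))⁻¹) ^ 4 * g (a + y)) s (hR := hs.le)
  rw [finrank_E] at h
  have hs4 : s ^ 4 ≠ 0 := by positivity
  have h2 : ∫ y, 96 * s ^ 4 * ((Q s a (a + y))⁻¹) ^ 4 * g (a + y)
      = s ^ 4 * ∫ x, 96 * s ^ 4 * ((Q s a (a + s • x))⁻¹) ^ 4 * g (a + s • x) := by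
    rw [h, smul_eq_mul, mul_inv_cancel_left₀ hs4]
  rw [h2, ← integral_const_mul]
  congr 1
  ext w
  have h3 : Q s a (a + s • w) = s ^ 2 * (1 + ‖w‖ ^ 2) := by
    unfold Q
    rw [add_sub_cancel_left, norm_smul, Real.norm_of_nonneg hs.le]; ring
  have h4 : (1 + ‖w‖ ^ 2 : ℝ) ≠ 0 := by positivity
  rw [h3]
  unfold bub
  field_simp

lemma green2 {s : ℝ} (hs : 0 < s) (a : E) {g : E → ℝ} (hg : Gr 4 (-6) g) :
    ∫ y, Real.log (Q s a y) * (Δ (Δ g)) y = -∫ w, bub w * g (a + s • w) := by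
  have hL : Gr 4 1 (fun x => Real.log (Q s a x)) := Gr.logQ hs a 4
  have h1 := green (hL.mono (by norm_num) le_rfl : Gr 2 1 _) (hg.lap : Gr 2 (-6) (Δ g)) (by norm_num)
  have h2 := green (hL.lap : Gr 2 1 _) (hg.mono (by norm_num) le_rfl : Gr 2 (-6) g) (by norm_num)
  rw [h1, h2, ← subst_bub hs, ← integral_neg]
  congr 1
  ext y
  rw [bilap_logQ hs]
  ring

lemma log_Q_le {s : ℝ} (hs : 0 < s) (hs1 : s ≤ 1) (a y : E) (h : y ≠ a) :
    |Real.log (Q s a y)| ≤ 2 * |Real.log ‖y - a‖| + 2 * ‖y - a‖ := by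
  have hp : 0 < ‖y - a‖ := norm_pos_iff.2 (sub_ne_zero.2 h)
  have hq := Q_pos hs a y
  have h1 : 2 * Real.log ‖y - a‖ ≤ Real.log (Q s a y) := by
    have : 2 * Real.log ‖y - a‖ = Real.log (‖y - a‖ ^ 2) := by rw [Real.log_pow]; norm_num
    rw [this]
    apply Real.log_le_log (by positivity)
    unfold Q
    nlinarith [sq_nonneg s]
  have h2 : Real.log (Q s a y) ≤ 2 * ‖y - a‖ := by
    have h3 : Q s a y ≤ (1 + ‖y - a‖) ^ 2 := by
      unfold Q
      nlinarith [norm_nonneg (y - a)]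
    calc Real.log (Q s a y) ≤ Real.log ((1 + ‖y - a‖) ^ 2) := Real.log_le_log hq h3
      _ = 2 * Real.log (1 + ‖y - a‖) := by rw [Real.log_pow]; norm_num
      _ ≤ 2 * ‖y - a‖ := by
          have := Real.log_le_sub_one_of_pos (x := 1 + ‖y - a‖) (by positivity)
          linarith
  have h4 := neg_abs_le (Real.log ‖y - a‖)
  rw [abs_le]
  constructor
  · linarith [norm_nonneg (y - a)]
  · linarith [abs_nonneg (Real.log ‖y - a‖)]

lemma lg2_int : Integrable (fun z : E => |2 * |Real.log ‖z‖| + 2 * ‖z‖| * (1 + ‖z‖) ^ (-6 : ℝ)) := by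
  have h1 := (lg_decay.const_mul 2).add ((decay_int (r := 5) (by norm_num)).const_mul 2)
  refine h1.mono' ?_ (ae_of_all _ fun z => ?_)
  · apply Measurable.aestronglyMeasurable
    have := lg_meas
    fun_prop
  · have h0 : 0 ≤ 2 * |Real.log ‖z‖| + 2 * ‖z‖ := by positivity
    rw [Real.norm_of_nonneg (by positivity), abs_of_nonneg h0]
    have : ‖z‖ * (1 + ‖z‖) ^ (-6 : ℝ) ≤ (1 + ‖z‖) ^ (-5 : ℝ) := by
      have h3 : 0 < (1 + ‖z‖) ^ (-6 : ℝ) := by positivity
      have : (1 + ‖z‖) ^ (-5 : ℝ) = (1 + ‖z‖) ^ (-6 : ℝ) * (1 + ‖z‖) := by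
        rw [← Real.rpow_add_one (by positivity)]
        norm_num
      rw [this]
      nlinarith
    simp only [Pi.add_apply]
    linarith

/-- The logarithm is (up to the factor `-8π²`) a fundamental solution of the bilaplacian. -/
lemma fund {g : E → ℝ} (hg : Gr 4 (-6) g) (a : E) :
    ∫ y, Real.log ‖y - a‖ * (Δ (Δ g)) y = -(8 * Real.pi ^ 2) * g a := by
  set h : E → ℝ := Δ (Δ g) with hh
  have hG : Gr 0 (-6) h := hg.lap.lap
  have hcont : Continuous h := hG.1.continuous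
  set e : ℕ → ℝ := fun m => 1 / ((m : ℝ) + 1) with he
  have hepos : ∀ m, 0 < e m := fun m => by positivity
  have hele : ∀ m, e m ≤ 1 := fun m => by
    rw [he]
    simp only
    rw [div_le_one (by positivity)]
    linarith [Nat.cast_nonneg (α := ℝ) m]
  have helim : Tendsto e atTop (𝓝 0) := tendsto_one_div_add_atTop_nhds_zero_nat
  have h0 : ∀ᵐ y : E, y ≠ a := by
    rw [ae_iff]; simp
  have hdom : Integrable (fun y => (2 * |Real.log ‖y - a‖| + 2 * ‖y - a‖) * ‖h y‖) := by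
    have h1 := hG.dom lg2_int 0 le_rfl
    obtain ⟨b, hb, hbd⟩ := h1 ‖a‖
    have h2 : Integrable (fun y => b (a - y)) := hb.comp_sub_left a
    refine h2.mono' ?_ (ae_of_all _ fun y => ?_)
    · apply Measurable.aestronglyMeasurable
      have h3 : Measurable (fun y : E => Real.log ‖y - a‖) :=
        lg_meas.comp (measurable_id.sub measurable_const)
      have h4 : Measurable h := hcont.measurable
      fun_prop
    · have h3 := hbd a (a - y) le_rfl
      simp only [norm_iteratedFDeriv_zero, sub_sub_cancel] at h3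
      rw [norm_sub_rev a y] at h3
      rw [norm_mul, norm_norm]
      simpa using h3
  have hL : Tendsto (fun m => ∫ y, Real.log (Q (e m) a y) * h y) atTop
      (𝓝 (∫ y, (2 * Real.log ‖y - a‖) * h y)) := by
    apply tendsto_integral_of_dominated_convergence _ _ hdom
    · intro m
      filter_upwards [h0] with y hy
      rw [norm_mul]
      apply mul_le_mul_of_nonneg_right _ (norm_nonneg _)
      exact log_Q_le (hepos m) (hele m) a y hy
    · filter_upwards [h0] with y hy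
      have hp : 0 < ‖y - a‖ := norm_pos_iff.2 (sub_ne_zero.2 hy)
      apply Tendsto.mul_const
      have h1 : Tendsto (fun m => Q (e m) a y) atTop (𝓝 (0 ^ 2 + ‖y - a‖ ^ 2)) :=
        (helim.pow 2).add_const _
      have h2 : (0 : ℝ) ^ 2 + ‖y - a‖ ^ 2 = ‖y - a‖ ^ 2 := by ring
      rw [h2] at h1
      have h3 := h1.log (by positivity)
      rw [Real.log_pow] at h3
      exact_mod_cast h3
    · intro m
      exact ((logQ_contDiff (hepos m) a).continuous.mul hcont).aestronglyMeasurable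
  obtain ⟨M, hM0, hM⟩ := hg.bound
  have hM' : ∀ y, ‖g y‖ ≤ M := fun y => by
    have h1 : (1 : ℝ) ≤ 1 + ‖y‖ := by linarith [norm_nonneg y]
    have h2 : (1 + ‖y‖) ^ (-6 : ℝ) ≤ 1 := Real.rpow_le_one_of_one_le_of_nonpos h1 (by norm_num)
    calc ‖g y‖ ≤ M * (1 + ‖y‖) ^ (-6 : ℝ) := hM y
      _ ≤ M * 1 := by gcongr
      _ = M := mul_one M
  have hR : Tendsto (fun m => -∫ w : E, bub w * g (a + e m • w)) atTop (𝓝 (-∫ w : E, bub w * g a)) := by
    apply Tendsto.neg
    apply tendsto_integral_of_dominated_convergence (fun w => bub w * M)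
    · intro m
      apply AEStronglyMeasurable.mul bub_int.1
      have : Continuous (fun w : E => g (a + e m • w)) := hg.1.continuous.comp (by fun_prop)
      exact this.aestronglyMeasurable
    · exact bub_int.mul_const _
    · intro m
      refine ae_of_all _ (fun w => ?_)
      rw [norm_mul, Real.norm_of_nonneg (bub_nonneg w)]
      exact mul_le_mul_of_nonneg_left (hM' _) (bub_nonneg w)
    · refine ae_of_all _ (fun w => ?_)
      apply Tendsto.const_mul
      have h1 : Tendsto (fun m => a + e m • w) atTop (𝓝 (a + (0 : ℝ) • w)) :=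
        tendsto_const_nhds.add (helim.smul_const w)
      rw [zero_smul, add_zero] at h1
      exact (hg.1.continuous.tendsto a).comp h1
  have heq : ∀ m, ∫ y, Real.log (Q (e m) a y) * h y = -∫ w : E, bub w * g (a + e m • w) := by
    intro m
    exact green2 (hepos m) a hg
  have h5 := tendsto_nhds_unique hL ((tendsto_congr heq).2 hR)
  rw [integral_mul_const, bub_integral] at h5
  have h6 : ∫ y, (2 * Real.log ‖y - a‖) * h y = 2 * ∫ y, Real.log ‖y - a‖ * h y := by
    rw [← integral_const_mul]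
    congr 1
    ext y
    ring
  rw [h6] at h5
  linarith

/-- the Laplacian passes under the potential -/
lemma lap_T {a : E → ℝ} (hm : AEStronglyMeasurable a)
    (ha : Integrable (fun z : E => |a z| * (1 + ‖z‖) ^ (-6 : ℝ))) {g : E → ℝ}
    (hg : Gr 2 (-6) g) (x : E) : (Δ (T a g)) x = T a (Δ g) x := by
  have hcd : ContDiff ℝ (2 : ℕ) g := hg.1.of_le (by exact_mod_cast two_le_infty)
  have h1 := T_iter hm hcd (fun j hj => hg.dom ha j hj) 2 le_rfl
  rw [InnerProductSpace.laplacian_eq_iteratedFDeriv_orthonormalBasis _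
    (EuclideanSpace.basisFun (Fin 4) ℝ)]
  have h2 : T a (Δ g) x = ∫ z, ∑ i, a z • (iteratedFDeriv ℝ 2 g (x - z)
      ![(EuclideanSpace.basisFun (Fin 4) ℝ) i, (EuclideanSpace.basisFun (Fin 4) ℝ) i]) := by
    unfold T
    congr 1
    ext z
    rw [InnerProductSpace.laplacian_eq_iteratedFDeriv_orthonormalBasis _
      (EuclideanSpace.basisFun (Fin 4) ℝ), Finset.smul_sum]
  have hi : Integrable (fun z => a z • iteratedFDeriv ℝ 2 g (x - z)) :=
    (hg.dom ha 2 le_rfl).integrable hm (hcd.continuous_iteratedFDeriv (by norm_num)) x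
  have hi2 : ∀ i, Integrable (fun z => a z • (iteratedFDeriv ℝ 2 g (x - z)
      ![(EuclideanSpace.basisFun (Fin 4) ℝ) i, (EuclideanSpace.basisFun (Fin 4) ℝ) i])) := by
    intro i
    have := (ContinuousMultilinearMap.apply ℝ (fun _ : Fin 2 => E) ℝ
      ![(EuclideanSpace.basisFun (Fin 4) ℝ) i, (EuclideanSpace.basisFun (Fin 4) ℝ) i]).integrable_comp hi
    exact this
  rw [h2, integral_finset_sum _ fun i _ => hi2 i]
  apply Finset.sum_congr rfl
  intro i _
  rw [h1]
  unfold T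
  rw [ContinuousMultilinearMap.integral_apply hi]
  rfl

/-- The potential `-(1/8π²) ∫ log |z| f (x - z) dz`. -/
noncomputable def Pot (f : E → ℝ) (x : E) : ℝ :=
  -(1 / (8 * Real.pi ^ 2)) * T (fun z : E => Real.log ‖z‖) f x

lemma Pot_contDiff {f : E → ℝ} (hf : ∀ N, Gr N (-6) f) : ContDiff ℝ ∞ (Pot f) := by
  unfold Pot
  apply ContDiff.mul contDiff_const
  rw [contDiff_infty]
  intro n
  exact T_contDiff lg_meas.aestronglyMeasurable ((hf n).1.of_le (by exact_mod_cast le_top))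
    ((hf n).dom lg_decay)

lemma lap_const_mul {c : ℝ} {f : E → ℝ} (hf : ContDiff ℝ ∞ f) (x : E) :
    (Δ (fun x => c * f x)) x = c * (Δ f) x := by
  have h1 : (fun x => c * f x) = c • f := by
    ext x
    simp
  rw [h1, InnerProductSpace.laplacian_smul c (hf.contDiffAt.of_le two_le_infty)]
  simp

lemma T_smooth {f : E → ℝ} (hf : ∀ N, Gr N (-6) f) :
    ContDiff ℝ ∞ (T (fun z : E => Real.log ‖z‖) f) := by
  rw [contDiff_infty]
  intro n
  exact T_contDiff lg_meas.aestronglyMeasurable ((hf n).1.of_le (by exact_mod_cast le_top))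
    ((hf n).dom lg_decay)

/-- The potential solves `Δ² w = f`. -/
lemma bilap_Pot {f : E → ℝ} (hf : ∀ N, Gr N (-6) f) (x : E) : (Δ (Δ (Pot f))) x = f x := by
  have hm := lg_meas.aestronglyMeasurable (μ := (volume : Measure E))
  have h1 : Δ (Pot f) = fun x => -(1 / (8 * Real.pi ^ 2)) * T (fun z : E => Real.log ‖z‖) (Δ f) x := by
    ext x
    unfold Pot
    rw [lap_const_mul (T_smooth hf), lap_T hm lg_decay (hf 2)]
  have hΔ : ∀ N, Gr N (-6) (Δ f) := fun N => (hf (N + 2)).lap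
  rw [h1, lap_const_mul (T_smooth hΔ), lap_T hm lg_decay (hΔ 2)]
  unfold T
  rw [← integral_sub_left_eq_self _ _ x]
  simp only [sub_sub_cancel, smul_eq_mul]
  have h2 := fund (hf 4) x
  have h3 : ∫ y, Real.log ‖x - y‖ * (Δ (Δ f)) y = ∫ y, Real.log ‖y - x‖ * (Δ (Δ f)) y := by
    congr 1
    ext y
    rw [norm_sub_rev]
  rw [h3, h2]
  have := Real.pi_ne_zero
  field_simp

end Pool.Agent.K7.H86.QC
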