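import Pool.Agent.K7.H86.QC.T
import Pool.Agent.K7.H86.QC.Dec

/-! The logarithmic kernel in four-space. -/

set_option autoImplicit false

open MeasureTheory Set Filter Topology Metric
open scoped ContDiff

namespace Pool.Agent.K7.H86.QC

/-- Euclidean four-space. -/
abbrev E := EuclideanSpace ℝ (Fin 4)

lemma finrank_E : Module.finrank ℝ E = 4 := by simp [E]

lemma intOn_ball {s : ℝ} (hs : s < 4) :
    IntegrableOn (fun z : E => ‖z‖ ^ (-s)) (ball (0 : E) 1) := by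
  rw [integrableOn_fun_norm_addHaar volume (f := fun t : ℝ => t ^ (-s)), finrank_E]
  have h : IntegrableOn (fun y : ℝ => y ^ (3 - s)) (Ioo 0 1) := by
    rw [intervalIntegral.integrableOn_Ioo_rpow_iff one_pos]
    linarith
  refine (integrableOn_congr_fun ?_ measurableSet_Ioo).2 h
  intro y hy
  have hy0 : 0 < y := hy.1
  simp only [smul_eq_mul]
  rw [show (4 - 1 : ℕ) = 3 by norm_num, ← Real.rpow_natCast y 3, ← Real.rpow_add hy0]
  norm_num
  ring_nf

lemma lg_meas : Measurable (fun z : E => Real.log ‖z‖) :=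
  Real.measurable_log.comp measurable_norm

/-- the indicator of the unit ball times a function -/
noncomputable def loc (f : E → ℝ) : E → ℝ := (ball (0 : E) 1).indicator f

lemma loc_int {f : E → ℝ} (h : IntegrableOn f (ball (0 : E) 1)) : Integrable (loc f) :=
  (integrable_indicator_iff measurableSet_ball).2 h

lemma abs_log_le {t : ℝ} (ht : 0 < t) (ht1 : t < 1) : |Real.log t| ≤ t ^ (-1 : ℝ) := by
  rw [Real.rpow_neg ht.le, Real.rpow_one, abs_of_nonpos (Real.log_nonpos ht.le ht1.le),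
    ← Real.log_inv]
  exact (Real.log_le_sub_one_of_pos (inv_pos.2 ht)).trans (by linarith)

lemma lg_le (z : E) : |Real.log ‖z‖| ≤ loc (fun z => ‖z‖ ^ (-1 : ℝ)) z + ‖z‖ := by
  unfold loc
  rcases eq_or_ne z 0 with rfl | hz
  · simp [indicator]
  · have hp : 0 < ‖z‖ := norm_pos_iff.2 hz
    by_cases h : z ∈ ball (0 : E) 1
    · rw [indicator_of_mem h]
      rw [mem_ball_zero_iff] at h
      have := abs_log_le hp h
      linarith
    · rw [indicator_of_notMem h, zero_add]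
      rw [mem_ball_zero_iff, not_lt] at h
      rw [abs_of_nonneg (Real.log_nonneg h)]
      linarith [Real.log_le_sub_one_of_pos hp]

lemma decay_int {r : ℝ} (hr : 4 < r) : Integrable (fun z : E => (1 + ‖z‖) ^ (-r)) := by
  apply integrable_one_add_norm
  rw [finrank_E]
  exact_mod_cast hr

lemma lg_decay : Integrable (fun z : E => |Real.log ‖z‖| * (1 + ‖z‖) ^ (-6 : ℝ)) := by
  have h1 : Integrable (fun z : E => loc (fun z => ‖z‖ ^ (-1 : ℝ)) z + (1 + ‖z‖) ^ (-5 : ℝ)) :=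
    (loc_int (intOn_ball (by norm_num))).add (decay_int (by norm_num))
  refine h1.mono' ?_ (ae_of_all _ fun z => ?_)
  · apply Measurable.aestronglyMeasurable
    have := lg_meas
    fun_prop
  · rw [norm_mul, Real.norm_eq_abs, abs_abs, Real.norm_of_nonneg (by positivity)]
    have hp : (1 : ℝ) ≤ 1 + ‖z‖ := by linarith [norm_nonneg z]
    have h2 : (1 + ‖z‖) ^ (-6 : ℝ) ≤ 1 := Real.rpow_le_one_of_one_le_of_nonpos hp (by norm_num)
    have h3 : 0 < (1 + ‖z‖) ^ (-6 : ℝ) := by positivity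
    have h4 : ‖z‖ * (1 + ‖z‖) ^ (-6 : ℝ) ≤ (1 + ‖z‖) ^ (-5 : ℝ) := by
      have : (1 + ‖z‖) ^ (-5 : ℝ) = (1 + ‖z‖) ^ (-6 : ℝ) * (1 + ‖z‖) := by
        rw [← Real.rpow_add_one (by positivity)]
        norm_num
      rw [this]
      nlinarith
    have h5 := lg_le z
    have h6 : 0 ≤ loc (fun z => ‖z‖ ^ (-1 : ℝ)) z := by
      unfold loc
      exact indicator_nonneg (fun z _ => Real.rpow_nonneg (norm_nonneg _) _) z
    calc |Real.log ‖z‖| * (1 + ‖z‖) ^ (-6 : ℝ)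
        ≤ (loc (fun z => ‖z‖ ^ (-1 : ℝ)) z + ‖z‖) * (1 + ‖z‖) ^ (-6 : ℝ) := by gcongr
      _ = loc (fun z => ‖z‖ ^ (-1 : ℝ)) z * (1 + ‖z‖) ^ (-6 : ℝ) + ‖z‖ * (1 + ‖z‖) ^ (-6 : ℝ) := by ring
      _ ≤ loc (fun z => ‖z‖ ^ (-1 : ℝ)) z * 1 + (1 + ‖z‖) ^ (-5 : ℝ) := by gcongr
      _ = _ := by ring

/-- comparison of weights -/
lemma weight_le (R : ℝ) (x z : E) (hx : ‖x‖ ≤ R) :
    (1 + ‖x - z‖) ^ (-6 : ℝ) ≤ (1 + |R|) ^ (6 : ℝ) * (1 + ‖z‖) ^ (-6 : ℝ) := by
  have h1 : 1 + ‖z‖ ≤ (1 + |R|) * (1 + ‖x - z‖) := by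
    have h2 : ‖z‖ ≤ ‖x‖ + ‖x - z‖ := by
      calc ‖z‖ = ‖x - (x - z)‖ := by congr 1; abel
        _ ≤ _ := norm_sub_le _ _
    have h3 : ‖x‖ ≤ |R| := hx.trans (le_abs_self R)
    nlinarith [norm_nonneg (x - z), abs_nonneg R]
  have h4 : (1 + ‖z‖) ^ (6 : ℝ) ≤ (1 + |R|) ^ (6 : ℝ) * (1 + ‖x - z‖) ^ (6 : ℝ) := by
    rw [← Real.mul_rpow (by positivity) (by positivity)]
    exact Real.rpow_le_rpow (by positivity) h1 (by norm_num)
  rw [Real.rpow_neg (by positivity), Real.rpow_neg (by positivity), ← div_eq_mul_inv,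
    le_div_iff₀ (by positivity), inv_mul_le_iff₀ (by positivity)]
  linarith

section
variable {F : Type} [NormedAddCommGroup F] [NormedSpace ℝ F]

/-- kernels that are integrable against the weight may be convolved with decaying functions -/
lemma Dom.of_decay {a : E → ℝ} (ha : Integrable (fun z : E => |a z| * (1 + ‖z‖) ^ (-6 : ℝ)))
    {g : E → F} {C : ℝ} (hC : 0 ≤ C) (hg : ∀ x, ‖g x‖ ≤ C * (1 + ‖x‖) ^ (-6 : ℝ)) : Dom a g := by
  intro R
  refine ⟨fun z => C * (1 + |R|) ^ (6 : ℝ) * (|a z| * (1 + ‖z‖) ^ (-6 : ℝ)), ha.const_mul _, ?_⟩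
  intro x z hx
  calc ‖a z‖ * ‖g (x - z)‖ ≤ |a z| * (C * ((1 + |R|) ^ (6 : ℝ) * (1 + ‖z‖) ^ (-6 : ℝ))) := by
        rw [Real.norm_eq_abs]
        gcongr
        exact (hg _).trans (mul_le_mul_of_nonneg_left (weight_le R x z hx) hC)
    _ = _ := by ring

lemma Gr.dom {a : E → ℝ} (ha : Integrable (fun z : E => |a z| * (1 + ‖z‖) ^ (-6 : ℝ)))
    {g : E → F} {N : ℕ} (hg : Gr N (-6) g) : ∀ j ≤ N, Dom a (iteratedFDeriv ℝ j g) := by
  intro j hj
  obtain ⟨C, hC, hb⟩ := hg.2 j hj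
  exact Dom.of_decay ha hC hb

end

/-- a majorant whose logarithmic potential has linear growth -/
structure Good (Ψ : E → ℝ) : Prop where
  nonneg : ∀ y, 0 ≤ Ψ y
  meas : Measurable Ψ
  int1 : Integrable (fun y => (1 + ‖y‖) * Ψ y)
  int2 : Integrable (fun y => Ψ y ^ (15 / 14 : ℝ))

lemma young (a b : ℝ) (ha : 0 ≤ a) (hb : 0 ≤ b) : a * b ≤ a ^ (15 : ℝ) + b ^ (15 / 14 : ℝ) := by
  have hpq : (15 : ℝ).HolderConjugate (15 / 14) := by
    rw [Real.holderConjugate_iff]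
    norm_num
  have h := Real.young_inequality_of_nonneg ha hb hpq
  have h1 : 0 ≤ a ^ (15 : ℝ) := Real.rpow_nonneg ha _
  have h2 : 0 ≤ b ^ (15 / 14 : ℝ) := Real.rpow_nonneg hb _
  have h3 : a ^ (15 : ℝ) / 15 ≤ a ^ (15 : ℝ) := by linarith
  have h4 : b ^ (15 / 14 : ℝ) / (15 / 14) ≤ b ^ (15 / 14 : ℝ) := by
    rw [div_le_iff₀ (by norm_num)]
    linarith
  linarith

lemma log15_int : IntegrableOn (fun z : E => |Real.log ‖z‖| ^ (15 : ℝ)) (ball (0 : E) 1) := by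
  have h := (intOn_ball (s := 1) (by norm_num)).const_mul ((15 : ℝ) ^ (15 : ℝ))
  refine h.mono' ?_ ?_
  · apply Measurable.aestronglyMeasurable
    have := lg_meas
    fun_prop
  · rw [ae_restrict_iff' measurableSet_ball]
    have h0 : ∀ᵐ y : E, y ≠ 0 := by
      rw [ae_iff]; simp
    filter_upwards [h0] with z hz hz1
    have hp : 0 < ‖z‖ := norm_pos_iff.2 hz
    rw [mem_ball_zero_iff] at hz1
    rw [Real.norm_of_nonneg (Real.rpow_nonneg (abs_nonneg _) _)]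
    have h1 : |Real.log ‖z‖| ≤ 15 * ‖z‖ ^ (-(1 / 15) : ℝ) := by
      rw [abs_of_nonpos (Real.log_nonpos hp.le hz1.le), ← Real.log_inv]
      have := Real.log_le_rpow_div (inv_nonneg.2 hp.le) (ε := 1 / 15) (by norm_num)
      rw [Real.inv_rpow hp.le, ← Real.rpow_neg hp.le] at this
      linarith
    calc |Real.log ‖z‖| ^ (15 : ℝ) ≤ (15 * ‖z‖ ^ (-(1 / 15) : ℝ)) ^ (15 : ℝ) :=
          Real.rpow_le_rpow (abs_nonneg _) h1 (by norm_num)
      _ = (15 : ℝ) ^ (15 : ℝ) * ‖z‖ ^ (-1 : ℝ) := by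
          rw [Real.mul_rpow (by norm_num) (Real.rpow_nonneg hp.le _), ← Real.rpow_mul hp.le]
          norm_num

/-- The logarithmic potential of a good majorant has linear growth. -/
lemma Good.pot {Ψ : E → ℝ} (h : Good Ψ) : ∃ C : ℝ, 0 ≤ C ∧ ∀ x : E,
    Integrable (fun y => |Real.log ‖x - y‖| * Ψ y) ∧
      ∫ y, |Real.log ‖x - y‖| * Ψ y ≤ C * (1 + ‖x‖) := by
  set L : E → ℝ := loc (fun z => |Real.log ‖z‖| ^ (15 : ℝ)) with hL
  have hLi : Integrable L := loc_int log15_int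
  have hL0 : ∀ z, 0 ≤ L z := fun z => indicator_nonneg (fun z _ => Real.rpow_nonneg (abs_nonneg _) _) z
  have hpt : ∀ x y : E, |Real.log ‖x - y‖| * Ψ y
      ≤ L (x - y) + Ψ y ^ (15 / 14 : ℝ) + (1 + ‖x‖) * ((1 + ‖y‖) * Ψ y) := by
    intro x y
    have hΨ := h.nonneg y
    have h0 : 0 ≤ (1 + ‖x‖) * ((1 + ‖y‖) * Ψ y) := by positivity
    have h00 : 0 ≤ Ψ y ^ (15 / 14 : ℝ) := Real.rpow_nonneg hΨ _
    by_cases hxy : x - y ∈ ball (0 : E) 1
    · have h1 := young _ _ (abs_nonneg (Real.log ‖x - y‖)) hΨ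
      have h2 : L (x - y) = |Real.log ‖x - y‖| ^ (15 : ℝ) := by
        rw [hL, loc, indicator_of_mem hxy]
      rw [h2]
      linarith
    · have h1 := hL0 (x - y)
      rw [mem_ball_zero_iff, not_lt] at hxy
      have hp : 0 < ‖x - y‖ := by linarith
      have h2 : |Real.log ‖x - y‖| ≤ ‖x - y‖ := by
        rw [abs_of_nonneg (Real.log_nonneg hxy)]
        linarith [Real.log_le_sub_one_of_pos hp]
      have h3 : ‖x - y‖ ≤ (1 + ‖x‖) * (1 + ‖y‖) := by
        have := norm_sub_le x y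
        nlinarith [norm_nonneg x, norm_nonneg y]
      have h4 : |Real.log ‖x - y‖| * Ψ y ≤ (1 + ‖x‖) * ((1 + ‖y‖) * Ψ y) := by
        rw [← mul_assoc]
        exact mul_le_mul_of_nonneg_right (h2.trans h3) hΨ
      linarith
  have hmaj : ∀ x : E, Integrable (fun y => L (x - y) + Ψ y ^ (15 / 14 : ℝ) + (1 + ‖x‖) * ((1 + ‖y‖) * Ψ y)) := by
    intro x
    exact ((hLi.comp_sub_left x).add h.int2).add (h.int1.const_mul _)
  have hI1 : 0 ≤ ∫ y, (1 + ‖y‖) * Ψ y := integral_nonneg fun y => by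
    have := h.nonneg y
    positivity
  have hI2 : 0 ≤ ∫ y, Ψ y ^ (15 / 14 : ℝ) := integral_nonneg fun y => Real.rpow_nonneg (h.nonneg y) _
  have hI3 : 0 ≤ ∫ y, L y := integral_nonneg hL0
  refine ⟨(∫ y, L y) + (∫ y, Ψ y ^ (15 / 14 : ℝ)) + ∫ y, (1 + ‖y‖) * Ψ y, by positivity, fun x => ?_⟩
  have hint : Integrable (fun y => |Real.log ‖x - y‖| * Ψ y) := by
    refine (hmaj x).mono' ?_ (ae_of_all _ fun y => ?_)
    · apply Measurable.aestronglyMeasurable
      exact (((lg_meas.comp (measurable_const.sub measurable_id)).abs).mul h.meas)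
    · rw [norm_mul, Real.norm_eq_abs, abs_abs, Real.norm_of_nonneg (h.nonneg y)]
      exact hpt x y
  refine ⟨hint, ?_⟩
  calc ∫ y, |Real.log ‖x - y‖| * Ψ y
      ≤ ∫ y, (L (x - y) + Ψ y ^ (15 / 14 : ℝ) + (1 + ‖x‖) * ((1 + ‖y‖) * Ψ y)) :=
        integral_mono hint (hmaj x) (hpt x)
    _ = (∫ y, L y) + (∫ y, Ψ y ^ (15 / 14 : ℝ)) + (1 + ‖x‖) * ∫ y, (1 + ‖y‖) * Ψ y := by
        have e1 : Integrable (fun y => L (x - y)) := hLi.comp_sub_left x
        have e2 : Integrable (fun y => L (x - y) + Ψ y ^ (15 / 14 : ℝ)) := e1.add h.int2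
        rw [integral_add e2 (h.int1.const_mul _),
          integral_add e1 h.int2, integral_const_mul,
          integral_sub_left_eq_self L volume x]
    _ ≤ _ := by
        have := norm_nonneg x
        nlinarith

end Pool.Agent.K7.H86.QC
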