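import Pool.Agent.K7.H86.QC.Kern

/-! The Laplacian, Green's identity and radial computations in four-space. -/

set_option autoImplicit false

open MeasureTheory Set Filter Topology Metric
open scoped ContDiff Laplacian InnerProductSpace

namespace Pool.Agent.K7.H86.QC

/-- coordinate vectors -/
noncomputable def ev (i : Fin 4) : E := EuclideanSpace.basisFun (Fin 4) ℝ i

lemma norm_ev (i : Fin 4) : ‖ev i‖ = 1 := by
  unfold ev
  exact (EuclideanSpace.basisFun (Fin 4) ℝ).orthonormal.1 i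

lemma ev_apply (i j : Fin 4) : ev i j = if i = j then 1 else 0 := by
  unfold ev
  rw [EuclideanSpace.basisFun_apply]
  by_cases h : i = j
  · subst h; simp
  · simp [h, Ne.symm h]

lemma inner_ev (x : E) (i : Fin 4) : inner ℝ x (ev i) = x i := by
  unfold ev
  simp [EuclideanSpace.inner_single_right]

lemma lap_eq {φ : E → ℝ} (hφ : ContDiff ℝ ∞ φ) (y : E) :
    (Δ φ) y = ∑ i, fderiv ℝ (fun z => fderiv ℝ φ z (ev i)) y (ev i) := by
  rw [InnerProductSpace.laplacian_eq_iteratedFDeriv_orthonormalBasis φ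
    (EuclideanSpace.basisFun (Fin 4) ℝ)]
  apply Finset.sum_congr rfl
  intro i _
  rw [iteratedFDeriv_two_apply]
  have h1 : DifferentiableAt ℝ (fderiv ℝ φ) y :=
    ((hφ.fderiv_right (m := 1) (by norm_cast)).differentiable (by norm_num)) y
  have h2 : fderiv ℝ (fun z => fderiv ℝ φ z (ev i)) y
      = (ContinuousLinearMap.apply ℝ ℝ (ev i)).comp
        (fderiv ℝ (fderiv ℝ φ) y) := by
    have := (ContinuousLinearMap.apply ℝ ℝ (ev i)).hasFDerivAt.comp y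
      h1.hasFDerivAt
    exact this.fderiv
  rw [h2]
  simp [ev]

section Gr
variable {V : Type} [NormedAddCommGroup V] [InnerProductSpace ℝ V]

lemma Gr.dir {N : ℕ} {m : ℝ} {g : V → ℝ} (hg : Gr (N + 1) m g) (v : V) :
    Gr N m (fun x => fderiv ℝ g x v) := by
  have h1 : ContDiff ℝ ∞ (fderiv ℝ g) := hg.1.fderiv_right (m := ∞) (by norm_cast)
  refine ⟨h1.clm_apply contDiff_const, fun j hj => ?_⟩
  obtain ⟨C, hC, hb⟩ := hg.2 (j + 1) (by omega)
  refine ⟨‖v‖ * C, by positivity, fun x => ?_⟩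
  refine (norm_iteratedFDeriv_clm_apply_const (N := ∞) h1.contDiffAt (by exact_mod_cast le_top)).trans ?_
  rw [norm_iteratedFDeriv_fderiv, mul_assoc]
  exact mul_le_mul_of_nonneg_left (hb x) (norm_nonneg _)

end Gr

lemma Gr.lap {N : ℕ} {m : ℝ} {g : E → ℝ} (hg : Gr (N + 2) m g) : Gr N m (Δ g) := by
  have h : (Δ g) = fun y => ∑ i, fderiv ℝ (fun z => fderiv ℝ g z (ev i)) y (ev i) := by
    ext y; exact lap_eq hg.1 y
  rw [h]
  exact Gr.sum _ fun i _ => ((hg.dir (ev i)).dir (ev i))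

lemma Gr.bound {N : ℕ} {m : ℝ} {g : E → ℝ} (hg : Gr N m g) :
    ∃ C : ℝ, 0 ≤ C ∧ ∀ x, ‖g x‖ ≤ C * (1 + ‖x‖) ^ m := by
  obtain ⟨C, hC, hb⟩ := hg.2 0 (Nat.zero_le _)
  exact ⟨C, hC, fun x => by simpa using hb x⟩

lemma Gr.integrable {N : ℕ} {m : ℝ} {g : E → ℝ} (hg : Gr N m g) (hm : m < -4) : Integrable g := by
  obtain ⟨C, hC, hb⟩ := hg.bound
  have h1 : Integrable (fun z : E => C * (1 + ‖z‖) ^ m) := by
    have := (decay_int (r := -m) (by linarith)).const_mul C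
    simpa using this
  exact h1.mono' hg.1.continuous.aestronglyMeasurable (ae_of_all _ hb)

lemma int_parts {m m' : ℝ} {f g : E → ℝ} (hf : Gr 1 m f) (hg : Gr 1 m' g)
    (hm : m + m' < -4) (v : E) :
    ∫ x, f x * fderiv ℝ g x v = - ∫ x, fderiv ℝ f x v * g x := by
  apply integral_mul_fderiv_eq_neg_fderiv_mul_of_integrable
  · exact ((hf.dir v).mul (hg.mono (Nat.zero_le _) le_rfl)).integrable hm
  · exact ((hf.mono (Nat.zero_le _) le_rfl).mul (hg.dir v)).integrable hm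
  · exact (hf.mul hg).integrable hm
  · intro x _; exact hf.1.differentiable (by norm_num) x
  · intro x _; exact hg.1.differentiable (by norm_num) x

lemma green {m m' : ℝ} {f g : E → ℝ} (hf : Gr 2 m f) (hg : Gr 2 m' g)
    (hm : m + m' < -4) : ∫ x, f x * (Δ g) x = ∫ x, (Δ f) x * g x := by
  simp_rw [lap_eq hf.1, lap_eq hg.1, Finset.mul_sum, Finset.sum_mul]
  rw [integral_finset_sum, integral_finset_sum]
  · apply Finset.sum_congr rfl
    intro i _
    rw [int_parts (hf.mono (by norm_num) le_rfl) (hg.dir (ev i)) hm,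
      int_parts (hf.dir (ev i)) (hg.mono (by norm_num) le_rfl) hm, neg_neg]
  · intro i _
    exact (((hf.dir (ev i)).dir (ev i)).mul (hg.mono (Nat.zero_le _) le_rfl)).integrable hm
  · intro i _
    exact ((hf.mono (Nat.zero_le _) le_rfl).mul ((hg.dir (ev i)).dir (ev i))).integrable hm

/-! ### functions of `Q` -/

lemma innerSL_ev (a x : E) (i : Fin 4) : (innerSL ℝ (x - a)) (ev i) = x i - a i := by
  rw [innerSL_apply_apply, inner_ev]
  simp

lemma Q_apply_ev (a x : E) (i : Fin 4) : ((2 : ℝ) • innerSL ℝ (x - a)) (ev i) = 2 * (x i - a i) := by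
  rw [ContinuousLinearMap.smul_apply, innerSL_ev, smul_eq_mul]

lemma sum_sq (a x : E) : ∑ i, (x i - a i) ^ 2 = ‖x - a‖ ^ 2 := by
  rw [EuclideanSpace.norm_sq_eq]
  apply Finset.sum_congr rfl
  intro i _
  simp

/-- Laplacian of a function of `Q`. -/
lemma lap_of_Q {s : ℝ} (hs : 0 < s) (a : E) {ψ ψ1 ψ2 : ℝ → ℝ}
    (hsm : ContDiff ℝ ∞ (fun x => ψ (Q s a x)))
    (h1 : ∀ t, 0 < t → HasDerivAt ψ (ψ1 t) t) (h2 : ∀ t, 0 < t → HasDerivAt ψ1 (ψ2 t) t) (x : E) :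
    (Δ (fun x : E => ψ (Q s a x))) x = 4 * ‖x - a‖ ^ 2 * ψ2 (Q s a x) + 8 * ψ1 (Q s a x) := by
  rw [lap_eq hsm]
  have e1 : ∀ i, (fun z => fderiv ℝ (fun x => ψ (Q s a x)) z (ev i))
      = fun z => ψ1 (Q s a z) * (2 * (z i - a i)) := by
    intro i
    ext z
    have h := (h1 _ (Q_pos hs a z)).comp_hasFDerivAt z (Q_hasFDerivAt s a z)
    have h' : fderiv ℝ (fun x => ψ (Q s a x)) z = _ := h.fderiv
    rw [h', ContinuousLinearMap.smul_apply, Q_apply_ev, smul_eq_mul]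
  have e2 : ∀ i, fderiv ℝ (fun z => fderiv ℝ (fun x => ψ (Q s a x)) z (ev i)) x (ev i)
      = ψ2 (Q s a x) * (4 * (x i - a i) ^ 2) + 2 * ψ1 (Q s a x) := by
    intro i
    rw [e1 i]
    have h := (h2 _ (Q_pos hs a x)).comp_hasFDerivAt x (Q_hasFDerivAt s a x)
    have h3 : HasFDerivAt (fun z : E => z i - a i) (EuclideanSpace.proj i : E →L[ℝ] ℝ) x :=
      (EuclideanSpace.proj i : E →L[ℝ] ℝ).hasFDerivAt.sub_const (a i)
    have h4 := h.mul (h3.const_mul 2)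
    have h5 : fderiv ℝ (fun z => ψ1 (Q s a z) * (2 * (z i - a i))) x = _ := h4.fderiv
    rw [h5]
    simp only [ContinuousLinearMap.add_apply, ContinuousLinearMap.smul_apply, innerSL_ev, smul_eq_mul,
      Function.comp]
    have h6 : (EuclideanSpace.proj i : E →L[ℝ] ℝ) (ev i) = 1 := by
      simp [ev_apply]
    rw [h6]
    ring
  simp_rw [e2]
  rw [Finset.sum_add_distrib, ← Finset.mul_sum, ← Finset.mul_sum, sum_sq]
  simp
  ring

lemma logQ_contDiff {s : ℝ} (hs : 0 < s) (a : E) : ContDiff ℝ ∞ (fun x => Real.log (Q s a x)) :=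
  (Q_contDiff s a).log fun x => (Q_pos hs a x).ne'

/-- `Δ log Q = 4 / Q + 4 s² / Q²` -/
lemma lap_logQ {s : ℝ} (hs : 0 < s) (a x : E) :
    (Δ (fun x : E => (Real.log (Q s a x) : ℝ))) x = 4 * (Q s a x)⁻¹ + 4 * s ^ 2 * ((Q s a x)⁻¹) ^ 2 := by
  have h := lap_of_Q hs a (ψ := Real.log) (ψ1 := fun t => t⁻¹) (ψ2 := fun t => -(t ^ 2)⁻¹)
    (logQ_contDiff hs a) (fun t ht => Real.hasDerivAt_log ht.ne')
    (fun t ht => hasDerivAt_inv ht.ne') x
  rw [h]
  have hq := Q_pos hs a x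
  have hq2 : ‖x - a‖ ^ 2 = Q s a x - s ^ 2 := by unfold Q; ring
  rw [hq2]
  field_simp
  ring

/-- `Δ (4 / Q + 4 s² / Q²) = - 96 s⁴ / Q⁴` -/
lemma lap_invQ {s : ℝ} (hs : 0 < s) (a x : E) :
    (Δ (fun x : E => (4 * (Q s a x)⁻¹ + 4 * s ^ 2 * ((Q s a x)⁻¹) ^ 2 : ℝ))) x
      = -(96 * s ^ 4 * ((Q s a x)⁻¹) ^ 4) := by
  have hsm : ContDiff ℝ ∞ (fun x => 4 * (Q s a x)⁻¹ + 4 * s ^ 2 * ((Q s a x)⁻¹) ^ 2) := by
    have := inv_Q_contDiff hs a
    fun_prop
  have hd1 : ∀ t : ℝ, 0 < t → HasDerivAt (fun t : ℝ => 4 * t⁻¹ + 4 * s ^ 2 * (t⁻¹) ^ 2)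
      (-(4 * (t⁻¹) ^ 2) - 8 * s ^ 2 * (t⁻¹) ^ 3) t := by
    intro t ht
    have ht0 : t ≠ 0 := ht.ne'
    have h1 := hasDerivAt_inv ht.ne'
    have h2 := (h1.const_mul 4).add ((h1.pow 2).const_mul (4 * s ^ 2))
    refine h2.congr_deriv ?_
    norm_num
    field_simp
    ring
  have hd2 : ∀ t : ℝ, 0 < t → HasDerivAt (fun t : ℝ => -(4 * (t⁻¹) ^ 2) - 8 * s ^ 2 * (t⁻¹) ^ 3)
      (8 * (t⁻¹) ^ 3 + 24 * s ^ 2 * (t⁻¹) ^ 4) t := by
    intro t ht
    have ht0 : t ≠ 0 := ht.ne'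
    have h1 := hasDerivAt_inv ht.ne'
    have h2 := ((h1.pow 2).const_mul 4).neg.sub ((h1.pow 3).const_mul (8 * s ^ 2))
    refine h2.congr_deriv ?_
    norm_num
    field_simp
    ring
  have h := lap_of_Q hs a (ψ := fun t => 4 * t⁻¹ + 4 * s ^ 2 * (t⁻¹) ^ 2) hsm hd1 hd2 x
  rw [h]
  have hq := Q_pos hs a x
  have hq2 : ‖x - a‖ ^ 2 = Q s a x - s ^ 2 := by unfold Q; ring
  rw [hq2]
  field_simp
  ring

/-- The bilaplacian of the logarithm of `Q`. -/
lemma bilap_logQ {s : ℝ} (hs : 0 < s) (a x : E) :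
    (Δ (Δ (fun x : E => Real.log (Q s a x)))) x = -(96 * s ^ 4 * ((Q s a x)⁻¹) ^ 4) := by
  have h : (Δ (fun x : E => Real.log (Q s a x)))
      = fun x => 4 * (Q s a x)⁻¹ + 4 * s ^ 2 * ((Q s a x)⁻¹) ^ 2 := by
    ext x; exact lap_logQ hs a x
  rw [h]
  exact lap_invQ hs a x

/-- `log Q` and its derivatives grow at most linearly. -/
lemma Gr.logQ {s : ℝ} (hs : 0 < s) (a : E) (N : ℕ) : Gr N 1 (fun x => Real.log (Q s a x)) := by
  have hsm := logQ_contDiff hs a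
  have h0 : ∃ C : ℝ, 0 ≤ C ∧ ∀ x, ‖Real.log (Q s a x)‖ ≤ C * (1 + ‖x‖) ^ (1 : ℝ) := by
    refine ⟨2 * (s + ‖a‖ + 1) + |Real.log (s ^ 2)|, by positivity, fun x => ?_⟩
    have hq := Q_pos hs a x
    have h1 : Real.log (s ^ 2) ≤ Real.log (Q s a x) := by
      apply Real.log_le_log (by positivity)
      unfold Q
      nlinarith [sq_nonneg ‖x - a‖]
    have h2 : Q s a x ≤ (s + ‖x - a‖) ^ 2 := by
      unfold Q
      nlinarith [norm_nonneg (x - a)]
    have h3 : Real.log (Q s a x) ≤ 2 * (s + ‖x - a‖) := by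
      have hp : 0 < s + ‖x - a‖ := by positivity
      calc Real.log (Q s a x) ≤ Real.log ((s + ‖x - a‖) ^ 2) := Real.log_le_log hq h2
        _ = 2 * Real.log (s + ‖x - a‖) := by rw [Real.log_pow]; norm_num
        _ ≤ 2 * (s + ‖x - a‖) := by
            have := Real.log_le_sub_one_of_pos hp
            linarith
    have h4 := norm_sub_le x a
    have h5 : 2 * (s + ‖x - a‖) ≤ 2 * (s + ‖a‖ + 1) * (1 + ‖x‖) := by
      nlinarith [norm_nonneg x, norm_nonneg a]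
    have h6 : |Real.log (s ^ 2)| ≤ |Real.log (s ^ 2)| * (1 + ‖x‖) := by
      nlinarith [norm_nonneg x, abs_nonneg (Real.log (s ^ 2))]
    rw [Real.norm_eq_abs, Real.rpow_one, abs_le, add_mul]
    have h7 : 0 ≤ 2 * (s + ‖a‖ + 1) * (1 + ‖x‖) := by positivity
    have h8 := neg_abs_le (Real.log (s ^ 2))
    have h9 : 0 ≤ |Real.log (s ^ 2)| * (1 + ‖x‖) := by positivity
    constructor <;> linarith
  rcases N with _ | N
  · refine ⟨hsm, fun j hj => ?_⟩
    obtain rfl : j = 0 := by omega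
    simpa using h0
  · apply Gr.of_fderiv hsm h0
    have h1 : fderiv ℝ (fun x => Real.log (Q s a x))
        = fun x => (Q s a x)⁻¹ • ((2 : ℝ) • innerSL ℝ) (x - a) := by
      ext1 x
      have h := (Real.hasDerivAt_log (Q_pos hs a x).ne').comp_hasFDerivAt x (Q_hasFDerivAt s a x)
      have h' : fderiv ℝ (fun x => Real.log (Q s a x)) x = _ := h.fderiv
      rw [h']
      rfl
    rw [h1]
    exact ((Gr.inv_Q hs a N).smul (Gr.affine N ((2 : ℝ) • innerSL ℝ) a)).mono le_rfl (by norm_num)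

end Pool.Agent.K7.H86.QC
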