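import Pool.Agent.K7.H86.QC.Est2

/-! The majorant. -/

set_option autoImplicit false

open MeasureTheory Set Filter Topology Metric
open scoped ContDiff Laplacian InnerProductSpace

namespace Pool.Agent.K7.H86.QC

/-! ### one-dimensional singularities -/

lemma int1 (c : ℝ) : IntegrableOn (fun t : ℝ => |t - c| ^ (-(1 / 2) : ℝ)) (ball c 4) := by
  have h1 : IntegrableOn (fun x : ℝ => ‖x‖ ^ (-(1 / 2) : ℝ)) (ball (0 : ℝ) 4) := by
    rw [integrableOn_fun_norm_addHaar volume (f := fun t : ℝ => t ^ (-(1 / 2) : ℝ))]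
    have h : IntegrableOn (fun y : ℝ => y ^ (-(1 / 2) : ℝ)) (Ioo 0 4) := by
      rw [intervalIntegral.integrableOn_Ioo_rpow_iff (by norm_num)]
      norm_num
    simpa using h
  rw [← integrable_indicator_iff measurableSet_ball] at h1 ⊢
  have h2 := h1.comp_sub_right c
  refine h2.congr (ae_of_all _ fun t => ?_)
  by_cases ht : t ∈ ball c 4
  · have ht' : t - c ∈ ball (0 : ℝ) 4 := by
      rw [mem_ball_zero_iff]
      rwa [mem_ball, dist_eq_norm] at ht
    simp only [indicator_of_mem ht, indicator_of_mem ht', Real.norm_eq_abs]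
  · have ht' : t - c ∉ ball (0 : ℝ) 4 := by
      rw [mem_ball_zero_iff]
      rwa [mem_ball, dist_eq_norm] at ht
    simp only [indicator_of_notMem ht, indicator_of_notMem ht']

/-- the majorant in the first coordinate -/
noncomputable def h0 : ℝ → ℝ := (Ioo (-2 : ℝ) 2).indicator
  fun t => 1 + |t - 1| ^ (-(1 / 2) : ℝ) + |t + 2| ^ (-(1 / 2) : ℝ)

lemma h0_int : Integrable h0 := by
  unfold h0
  rw [integrable_indicator_iff measurableSet_Ioo]
  apply IntegrableOn.add
  · apply IntegrableOn.add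
    · exact integrableOn_const (by simp) (by simp)
    · apply (int1 1).mono_set
      intro t ht
      rw [mem_ball, Real.dist_eq, abs_lt]
      constructor <;> linarith [ht.1, ht.2]
  · have h := int1 (-2)
    simp only [sub_neg_eq_add] at h
    apply h.mono_set
    intro t ht
    rw [mem_ball, Real.dist_eq, abs_lt]
    constructor <;> linarith [ht.1, ht.2]

lemma h0_nonneg (t : ℝ) : 0 ≤ h0 t := by
  unfold h0
  apply indicator_nonneg
  intro t _
  have h1 : 0 ≤ |t - 1| ^ (-(1 / 2) : ℝ) := Real.rpow_nonneg (abs_nonneg _) _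
  have h2 : 0 ≤ |t + 2| ^ (-(1 / 2) : ℝ) := Real.rpow_nonneg (abs_nonneg _) _
  linarith

/-- the product majorant -/
noncomputable def HH (y : E) : ℝ := h0 (y 0) * Real.exp (qq y)

lemma sum_coord (y : E) : ‖y‖ ^ 2 = (y 0) ^ 2 + (y 1) ^ 2 + (y 2) ^ 2 + (y 3) ^ 2 := by
  rw [EuclideanSpace.norm_sq_eq]
  simp [Fin.sum_univ_four]

lemma qq_eq (y : E) : qq y = -((y 1) ^ 2 + (y 2) ^ 2 + (y 3) ^ 2) := by
  unfold qq
  rw [sum_coord]; ring

lemma HH_nonneg (y : E) : 0 ≤ HH y := mul_nonneg (h0_nonneg _) (Real.exp_pos _).le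

lemma HH_int : Integrable HH := by
  have hg : Integrable (fun t : ℝ => Real.exp (-t ^ 2)) := by
    have := integrable_exp_neg_mul_sq (b := 1) one_pos
    simpa using this
  have h1 : Integrable (fun y : Fin 4 → ℝ => ∏ i, (![h0, fun t => Real.exp (-t ^ 2),
      fun t => Real.exp (-t ^ 2), fun t => Real.exp (-t ^ 2)] : Fin 4 → ℝ → ℝ) i (y i)) := by
    apply Integrable.fintype_prod
    intro i
    fin_cases i
    · exact h0_int
    · exact hg
    · exact hg
    · exact hg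
  have h2 := (PiLp.volume_preserving_ofLp (Fin 4)).integrable_comp_of_integrable h1
  refine h2.congr (ae_of_all _ fun y => ?_)
  simp only [Function.comp, Fin.prod_univ_four]
  unfold HH
  rw [qq_eq]
  simp only [Matrix.cons_val_zero, Matrix.cons_val_one, Matrix.cons_val]
  rw [show -((y 1) ^ 2 + (y 2) ^ 2 + (y 3) ^ 2) = -(y 1) ^ 2 + -(y 2) ^ 2 + -(y 3) ^ 2 by ring,
    Real.exp_add, Real.exp_add]
  ring

/-- the planar part of the majorant -/
noncomputable def Bp : E → ℝ := Om.indicator fun y => th (y 0) * Real.exp (4 * qq y)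

lemma Bp_nonneg (y : E) : 0 ≤ Bp y := by
  unfold Bp
  exact indicator_nonneg (fun y _ => mul_nonneg (th_nonneg _) (Real.exp_pos _).le) y

lemma Om_open : IsOpen Om := by
  have h : Continuous (fun x : E => x 0) := (coord_contDiff 0).continuous
  exact (isOpen_lt continuous_const h).inter (isOpen_lt h continuous_const)

lemma Bp_meas : Measurable Bp := by
  unfold Bp
  apply Measurable.indicator _ Om_open.measurableSet
  have h1 : Measurable (fun x : E => x 0) := (coord_contDiff 0).continuous.measurable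
  have h2 : Measurable qq := qq_contDiff.continuous.measurable
  have h3 : Measurable (fun y : E => th (y 0)) := by
    unfold th
    fun_prop
  exact h3.mul (Real.measurable_exp.comp (h2.const_mul 4))

lemma quarter_le {a : ℝ} (ha : 0 ≤ a) : a ^ (-(1 / 4) : ℝ) ≤ 1 + a ^ (-(1 / 2) : ℝ) := by
  rcases ha.eq_or_lt with rfl | h
  · rw [Real.zero_rpow (by norm_num), Real.zero_rpow (by norm_num)]
    norm_num
  · have h1 : a ^ (-(1 / 2) : ℝ) = (a ^ (-(1 / 4) : ℝ)) ^ 2 := by
      rw [← Real.rpow_natCast, ← Real.rpow_mul h.le]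
      norm_num
    rw [h1]
    nlinarith [sq_nonneg (a ^ (-(1 / 4) : ℝ) - 1 / 2)]

lemma th_le {t : ℝ} (ht : t ∈ Ioo (-2 : ℝ) 2) : th t ≤ 2 * h0 t := by
  unfold th h0
  rw [indicator_of_mem ht]
  have h1 := quarter_le (abs_nonneg (t - 1))
  have h2 := quarter_le (abs_nonneg (t + 2))
  have h3 : 0 ≤ |t - 1| ^ (-(1 / 2) : ℝ) := Real.rpow_nonneg (abs_nonneg _) _
  have h4 : 0 ≤ |t + 2| ^ (-(1 / 2) : ℝ) := Real.rpow_nonneg (abs_nonneg _) _
  linarith

lemma th_sq_le {t : ℝ} (ht : t ∈ Ioo (-2 : ℝ) 2) : th t ^ 2 ≤ 2 * h0 t := by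
  unfold th h0
  rw [indicator_of_mem ht]
  have h1 : (|t - 1| ^ (-(1 / 4) : ℝ)) ^ 2 = |t - 1| ^ (-(1 / 2) : ℝ) := by
    rw [← Real.rpow_natCast, ← Real.rpow_mul (abs_nonneg _)]
    norm_num
  have h2 : (|t + 2| ^ (-(1 / 4) : ℝ)) ^ 2 = |t + 2| ^ (-(1 / 2) : ℝ) := by
    rw [← Real.rpow_natCast, ← Real.rpow_mul (abs_nonneg _)]
    norm_num
  rw [← h1, ← h2]
  nlinarith [sq_nonneg (|t - 1| ^ (-(1 / 4) : ℝ) - |t + 2| ^ (-(1 / 4) : ℝ))]

lemma norm_le_coord {y : E} (hy : y ∈ Om) : ‖y‖ ≤ 2 + Real.sqrt (-qq y) := by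
  have h1 : ‖y‖ ^ 2 ≤ (2 + Real.sqrt (-qq y)) ^ 2 := by
    have h2 : 0 ≤ -qq y := by rw [qq_eq]; nlinarith [sq_nonneg (y 1), sq_nonneg (y 2), sq_nonneg (y 3)]
    have h3 := Real.sq_sqrt h2
    have h4 : ‖y‖ ^ 2 = (y 0) ^ 2 + -qq y := by unfold qq; ring
    have h5 : (y 0) ^ 2 ≤ 4 := by nlinarith [hy.1, hy.2]
    rw [h4]
    nlinarith [Real.sqrt_nonneg (-qq y)]
  exact (sq_le_sq₀ (norm_nonneg _) (by positivity)).1 h1

/-- the planar part against an exponential weight -/
lemma Bp_exp (y : E) : Bp y * Real.exp (1 + ‖y‖) ≤ 2 * Real.exp 4 * HH y := by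
  unfold Bp
  by_cases hy : y ∈ Om
  · rw [indicator_of_mem hy]
    have h1 : th (y 0) ≤ 2 * h0 (y 0) := th_le hy
    have h2 : Real.exp (4 * qq y) * Real.exp (1 + ‖y‖) ≤ Real.exp 4 * Real.exp (qq y) := by
      rw [← Real.exp_add, ← Real.exp_add]
      apply Real.exp_le_exp.2
      have h3 := norm_le_coord hy
      have h4 : 0 ≤ -qq y := by rw [qq_eq]; nlinarith [sq_nonneg (y 1), sq_nonneg (y 2), sq_nonneg (y 3)]
      have h5 := Real.sq_sqrt h4
      nlinarith [Real.sqrt_nonneg (-qq y), sq_nonneg (Real.sqrt (-qq y) - 1)]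
    unfold HH
    have h3 := h0_nonneg (y 0)
    calc th (y 0) * Real.exp (4 * qq y) * Real.exp (1 + ‖y‖)
        = th (y 0) * (Real.exp (4 * qq y) * Real.exp (1 + ‖y‖)) := by ring
      _ ≤ (2 * h0 (y 0)) * (Real.exp 4 * Real.exp (qq y)) := by
          gcongr
      _ = _ := by ring
  · rw [indicator_of_notMem hy]
    have := HH_nonneg y
    have := Real.exp_pos 4
    rw [zero_mul]
    positivity

lemma Bp_int1 : Integrable (fun y => (1 + ‖y‖) * Bp y) := by
  refine (HH_int.const_mul (2 * Real.exp 4)).mono' ?_ (ae_of_all _ fun y => ?_)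
  · have := Bp_meas
    fun_prop
  · have h1 := Bp_exp y
    have h2 := Real.add_one_le_exp (1 + ‖y‖)
    have h3 := Bp_nonneg y
    rw [Real.norm_of_nonneg (by positivity)]
    have : (1 + ‖y‖) * Bp y ≤ Bp y * Real.exp (1 + ‖y‖) := by nlinarith
    linarith

lemma rpow_le_add {a : ℝ} (ha : 0 ≤ a) : a ^ (15 / 14 : ℝ) ≤ a + a ^ 2 := by
  rcases le_total a 1 with h | h
  · rcases ha.eq_or_lt with rfl | h0
    · rw [Real.zero_rpow (by norm_num)]; norm_num
    · have : a ^ (15 / 14 : ℝ) ≤ a ^ (1 : ℝ) := Real.rpow_le_rpow_of_exponent_ge h0 h (by norm_num)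
      rw [Real.rpow_one] at this
      nlinarith
  · have : a ^ (15 / 14 : ℝ) ≤ a ^ (2 : ℝ) := Real.rpow_le_rpow_of_exponent_le h (by norm_num)
    rw [Real.rpow_two] at this
    linarith

lemma Bp_int2 : Integrable (fun y => Bp y ^ (15 / 14 : ℝ)) := by
  refine (HH_int.const_mul 4).mono' ?_ (ae_of_all _ fun y => ?_)
  · exact (Bp_meas.pow_const _).aestronglyMeasurable
  · rw [Real.norm_of_nonneg (Real.rpow_nonneg (Bp_nonneg y) _)]
    refine (rpow_le_add (Bp_nonneg y)).trans ?_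
    unfold Bp
    by_cases hy : y ∈ Om
    · rw [indicator_of_mem hy]
      have h1 : th (y 0) ≤ 2 * h0 (y 0) := th_le hy
      have h2 : th (y 0) ^ 2 ≤ 2 * h0 (y 0) := th_sq_le hy
      have h3 := h0_nonneg (y 0)
      have h4 := th_nonneg (y 0)
      have hq : qq y ≤ 0 := by rw [qq_eq]; nlinarith [sq_nonneg (y 1), sq_nonneg (y 2), sq_nonneg (y 3)]
      have h5 : Real.exp (4 * qq y) ≤ Real.exp (qq y) := Real.exp_le_exp.2 (by linarith)
      have h6 : Real.exp (4 * qq y) ^ 2 ≤ Real.exp (qq y) := by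
        rw [← Real.exp_nat_mul]
        exact Real.exp_le_exp.2 (by push_cast; linarith)
      unfold HH
      calc th (y 0) * Real.exp (4 * qq y) + (th (y 0) * Real.exp (4 * qq y)) ^ 2
          = th (y 0) * Real.exp (4 * qq y) + th (y 0) ^ 2 * Real.exp (4 * qq y) ^ 2 := by ring
        _ ≤ (2 * h0 (y 0)) * Real.exp (qq y) + (2 * h0 (y 0)) * Real.exp (qq y) := by
            gcongr
        _ = _ := by ring
    · rw [indicator_of_notMem hy]
      have := HH_nonneg y
      simp only [zero_add, ne_eq, OfNat.ofNat_ne_zero, not_false_eq_true, zero_pow]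
      positivity

lemma Bp_good : Good Bp := ⟨Bp_nonneg, Bp_meas, Bp_int1, Bp_int2⟩

/-! ### the bubble part of the majorant -/

/-- singularity at `p` -/
noncomputable def Ap (ρ : ℝ) (p : E) : E → ℝ := (ball p ρ).indicator fun y => ‖y - p‖ ^ (-(7 / 2) : ℝ)

lemma Ap_nonneg (ρ : ℝ) (p y : E) : 0 ≤ Ap ρ p y :=
  indicator_nonneg (fun y _ => Real.rpow_nonneg (norm_nonneg _) _) y

lemma Ap_meas (ρ : ℝ) (p : E) : Measurable (Ap ρ p) := by
  unfold Ap
  apply Measurable.indicator _ measurableSet_ball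
  fun_prop

lemma sing_int {s : ℝ} (hs : s < 4) {ρ : ℝ} (hρ : ρ ≤ 1) (p : E) :
    Integrable ((ball p ρ).indicator fun y : E => ‖y - p‖ ^ (-s)) := by
  have h1 := (intOn_ball hs).mono_set (ball_subset_ball (x := (0 : E)) hρ)
  rw [← integrable_indicator_iff measurableSet_ball] at h1
  have h2 := h1.comp_sub_right p
  refine h2.congr (ae_of_all _ fun t => ?_)
  by_cases ht : t ∈ ball p ρ
  · have ht' : t - p ∈ ball (0 : E) ρ := by
      rw [mem_ball_zero_iff]
      rwa [mem_ball, dist_eq_norm] at ht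
    simp only [indicator_of_mem ht, indicator_of_mem ht']
  · have ht' : t - p ∉ ball (0 : E) ρ := by
      rw [mem_ball_zero_iff]
      rwa [mem_ball, dist_eq_norm] at ht
    simp only [indicator_of_notMem ht, indicator_of_notMem ht']

lemma Ap_good {ρ : ℝ} (hρ : ρ ≤ 1) (p : E) : Good (Ap ρ p) := by
  refine ⟨Ap_nonneg ρ p, Ap_meas ρ p, ?_, ?_⟩
  · have h1 : Integrable (Ap ρ p) := sing_int (by norm_num) hρ p
    refine (h1.const_mul (2 + ‖p‖)).mono' ?_ (ae_of_all _ fun y => ?_)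
    · have := Ap_meas ρ p
      fun_prop
    · have h2 := Ap_nonneg ρ p y
      rw [Real.norm_of_nonneg (by positivity)]
      by_cases hy : y ∈ ball p ρ
      · apply mul_le_mul_of_nonneg_right _ h2
        rw [mem_ball, dist_eq_norm] at hy
        have : ‖y‖ ≤ ‖y - p‖ + ‖p‖ := by
          calc ‖y‖ = ‖(y - p) + p‖ := by congr 1; abel
            _ ≤ _ := norm_add_le _ _
        linarith
      · unfold Ap
        rw [indicator_of_notMem hy]
        simp
  · have h1 := sing_int (s := 15 / 4) (by norm_num) hρ p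
    refine h1.congr (ae_of_all _ fun y => ?_)
    unfold Ap
    by_cases hy : y ∈ ball p ρ
    · simp only [indicator_of_mem hy]
      rw [← Real.rpow_mul (norm_nonneg _)]
      norm_num
    · simp only [indicator_of_notMem hy]
      rw [Real.zero_rpow (by norm_num)]

lemma dec8_good : Good dec8 := by
  have hm : Measurable dec8 := by unfold dec8; fun_prop
  refine ⟨fun y => (dec8_pos y).le, hm, ?_, ?_⟩
  · refine (decay_int (r := 7) (by norm_num)).congr (ae_of_all _ fun y => ?_)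
    unfold dec8
    simp only
    rw [show (-7 : ℝ) = 1 + -8 by norm_num, Real.rpow_add (by positivity), Real.rpow_one]
  · refine (decay_int (r := 60 / 7) (by norm_num)).congr (ae_of_all _ fun y => ?_)
    unfold dec8
    simp only
    rw [← Real.rpow_mul (by positivity)]
    norm_num

lemma Good.add {f g : E → ℝ} (hf : Good f) (hg : Good g) : Good (fun y => f y + g y) := by
  refine ⟨fun y => add_nonneg (hf.nonneg y) (hg.nonneg y), hf.meas.add hg.meas, ?_, ?_⟩
  · refine (hf.int1.add hg.int1).congr (ae_of_all _ fun y => ?_)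
    simp only [Pi.add_apply]
    ring
  · refine ((hf.int2.add hg.int2).const_mul ((2 : ℝ) ^ (15 / 14 : ℝ))).mono' ?_ (ae_of_all _ fun y => ?_)
    · exact ((hf.meas.add hg.meas).pow_const _).aestronglyMeasurable
    · have h1 := hf.nonneg y
      have h2 := hg.nonneg y
      rw [Real.norm_of_nonneg (Real.rpow_nonneg (add_nonneg h1 h2) _)]
      simp only [Pi.add_apply]
      rcases le_total (f y) (g y) with h | h
      · calc (f y + g y) ^ (15 / 14 : ℝ) ≤ (2 * g y) ^ (15 / 14 : ℝ) :=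
              Real.rpow_le_rpow (by linarith) (by linarith) (by norm_num)
          _ = (2 : ℝ) ^ (15 / 14 : ℝ) * g y ^ (15 / 14 : ℝ) := Real.mul_rpow (by norm_num) h2
          _ ≤ _ := by
              apply mul_le_mul_of_nonneg_left _ (by positivity)
              linarith [Real.rpow_nonneg h1 (15 / 14 : ℝ)]
      · calc (f y + g y) ^ (15 / 14 : ℝ) ≤ (2 * f y) ^ (15 / 14 : ℝ) :=
              Real.rpow_le_rpow (by linarith) (by linarith) (by norm_num)
          _ = (2 : ℝ) ^ (15 / 14 : ℝ) * f y ^ (15 / 14 : ℝ) := Real.mul_rpow (by norm_num) h1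
          _ ≤ _ := by
              apply mul_le_mul_of_nonneg_left _ (by positivity)
              linarith [Real.rpow_nonneg h2 (15 / 14 : ℝ)]

lemma Good.zero : Good (fun _ => 0) := by
  refine ⟨fun _ => le_rfl, measurable_const, by simp, ?_⟩
  have : (fun _ : E => (0 : ℝ) ^ (15 / 14 : ℝ)) = fun _ => 0 := by
    ext _
    exact Real.zero_rpow (by norm_num)
  rw [this]
  simp

lemma Good.sum {ι : Type*} (s : Finset ι) {f : ι → E → ℝ} (h : ∀ i ∈ s, Good (f i)) :
    Good (fun y => ∑ i ∈ s, f i y) := by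
  classical
  induction s using Finset.induction_on with
  | empty => simpa using Good.zero
  | insert i s hi ih =>
    simp_rw [Finset.sum_insert hi]
    exact (h i (Finset.mem_insert_self _ _)).add (ih fun k hk => h k (Finset.mem_insert_of_mem hk))

/-- the majorant -/
noncomputable def Psi (P : Finset E) (ρ : ℝ) (y : E) : ℝ := (∑ p ∈ P, Ap ρ p y) + Bp y + dec8 y

lemma Psi_good (P : Finset E) {ρ : ℝ} (hρ : ρ ≤ 1) : Good (Psi P ρ) :=
  ((Good.sum P fun p _ => Ap_good hρ p).add Bp_good).add dec8_good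

section
variable {P : Finset E} {ρ M : ℝ}

lemma ball_sub_Om (h : Cfg P ρ M) {p : E} (hp : p ∈ P) {x : E} (hx : ‖x - p‖ < ρ) : x ∈ Om := by
  have h1 := abs_coord_le (x - p) 0
  have h2 := h.first p hp
  have h3 := h.rho_le
  simp only [PiLp.sub_apply, h2] at h1
  have h4 := abs_lt.1 (h1.trans_lt (hx.trans_le h3))
  constructor <;> linarith [h4.1, h4.2]

/-- the pointwise bound of the error -/
lemma main_bound (h : Cfg P ρ M) : ∃ C : ℝ, 0 ≤ C ∧ ∀ m : ℝ, 1 ≤ m → ∀ x : E, x ∉ P → x 0 ≠ 1 →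
    ∀ c : ℝ, 0 ≤ c → c ≤ 1 → ((∃ p ∈ P, ‖x - p‖ < ρ) → c = 1) → (x ∉ Om → c = 0) →
    |c * F0 P m x - D0 P m x| ≤ C * (G1 m + kap m ^ 4 + (m ^ 4)⁻¹) * Psi P ρ x := by
  classical
  obtain ⟨C1, hC1, h1⟩ := near_bubble h
  obtain ⟨C2, hC2, h2⟩ := far_bubble h
  obtain ⟨C3, hC3, h3⟩ := far_F0 h
  refine ⟨C1 + P.card * C2 + C3, by positivity, ?_⟩
  intro m hm x hxP hx1 c hc0 hc1 hcn hcO
  have hm0 : 0 < m := by linarith
  have hG : 0 ≤ G1 m := by unfold G1; positivity
  have hk : 0 ≤ kap m ^ 4 := by have := kap_pos hm0; positivity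
  have hmi : 0 ≤ (m ^ 4)⁻¹ := by positivity
  have hA : ∀ p, 0 ≤ Ap ρ p x := fun p => Ap_nonneg ρ p x
  have hB := Bp_nonneg x
  have hd8 := (dec8_pos x).le
  have hAs : 0 ≤ ∑ p ∈ P, Ap ρ p x := Finset.sum_nonneg fun p _ => hA p
  have hPsi : Psi P ρ x = (∑ p ∈ P, Ap ρ p x) + Bp x + dec8 x := rfl
  have hD0 : D0 P m x = ∑ p ∈ P, Db P m p x := rfl
  have hDn : ∀ p, 0 ≤ Db P m p x := by
    intro p
    unfold Db
    have := Q_pos (rr_pos P hm0 p) p x
    positivity
  have hFn : 0 ≤ F0 P m x := (Real.exp_pos _).le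
  obtain ⟨S, hS⟩ : ∃ S, S = Psi P ρ x := ⟨_, rfl⟩
  obtain ⟨T, hT⟩ : ∃ T, T = G1 m + kap m ^ 4 + (m ^ 4)⁻¹ := ⟨_, rfl⟩
  obtain ⟨N, hN⟩ : ∃ N : ℝ, N = P.card := ⟨_, rfl⟩
  have hN0 : 0 ≤ N := by rw [hN]; positivity
  rw [← hS, ← hT, ← hN]
  rw [← hS] at hPsi
  have hS0 : 0 ≤ S := by linarith
  have hBS : Bp x ≤ S := by linarith
  have hdS : dec8 x ≤ S := by linarith
  have hGT : G1 m ≤ T := by linarith
  have hkT : kap m ^ 4 ≤ T := by linarith
  have hmT : (m ^ 4)⁻¹ ≤ T := by linarith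
  have hT0 : 0 ≤ T := by linarith
  have hexp : (C1 + N * C2 + C3) * T * S = C1 * T * S + N * C2 * T * S + C3 * T * S := by ring
  rw [hexp]
  have hn1 : 0 ≤ C1 * T * S := by positivity
  have hn3 : 0 ≤ C3 * T * S := by positivity
  have e10 : N * (C2 * kap m ^ 4 * dec8 x) ≤ N * C2 * T * S := by
    have : kap m ^ 4 * dec8 x ≤ T * S := mul_le_mul hkT hdS hd8 hT0
    calc N * (C2 * kap m ^ 4 * dec8 x) = N * C2 * (kap m ^ 4 * dec8 x) := by ring
      _ ≤ N * C2 * (T * S) := by gcongr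
      _ = _ := by ring
  by_cases hnear : ∃ p ∈ P, ‖x - p‖ < ρ
  · obtain ⟨p, hp, hxp⟩ := hnear
    have hc : c = 1 := hcn ⟨p, hp, hxp⟩
    have hne : x ≠ p := fun e => hxP (e ▸ hp)
    have e1 := h1 m hm p hp x hne hxp
    have hAp : Ap ρ p x = ‖x - p‖ ^ (-(7 / 2) : ℝ) := by
      unfold Ap
      rw [indicator_of_mem]
      rwa [mem_ball, dist_eq_norm]
    rw [← hAp] at e1
    have e2 : ∑ j ∈ P.erase p, Db P m j x ≤ N * (C2 * kap m ^ 4 * dec8 x) := by
      have e3 : ∀ j ∈ P.erase p, Db P m j x ≤ C2 * kap m ^ 4 * dec8 x := by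
        intro j hj
        rw [Finset.mem_erase] at hj
        apply h2 m hm j hj.2
        have hs := h.sep p hp j hj.2 (Ne.symm hj.1)
        have : ‖p - j‖ ≤ ‖x - p‖ + ‖x - j‖ := by
          calc ‖p - j‖ = ‖-(x - p) + (x - j)‖ := by congr 1; abel
            _ ≤ ‖-(x - p)‖ + ‖x - j‖ := norm_add_le _ _
            _ = _ := by rw [norm_neg]
        have := h.rho_pos
        linarith
      refine (Finset.sum_le_card_nsmul _ _ _ e3).trans ?_
      rw [nsmul_eq_mul]
      have h6 : ((P.erase p).card : ℝ) ≤ N := by rw [hN]; exact_mod_cast Finset.card_erase_le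
      exact mul_le_mul_of_nonneg_right h6 (by positivity)
    have e4 : 0 ≤ ∑ j ∈ P.erase p, Db P m j x := Finset.sum_nonneg fun j _ => hDn j
    have e5 : D0 P m x = Db P m p x + ∑ j ∈ P.erase p, Db P m j x := by
      rw [hD0, ← Finset.add_sum_erase P _ hp]
    have e6 : Ap ρ p x ≤ ∑ p ∈ P, Ap ρ p x :=
      Finset.single_le_sum (f := fun p => Ap ρ p x) (fun i _ => hA i) hp
    have hAS : Ap ρ p x ≤ S := by linarith
    rw [hc, one_mul, e5]
    have e7 : F0 P m x - (Db P m p x + ∑ j ∈ P.erase p, Db P m j x)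
        = (F0 P m x - Db P m p x) - ∑ j ∈ P.erase p, Db P m j x := by ring
    rw [e7]
    have e8 := abs_sub (F0 P m x - Db P m p x) (∑ j ∈ P.erase p, Db P m j x)
    rw [abs_of_nonneg e4] at e8
    have e9 : C1 * G1 m * Ap ρ p x ≤ C1 * T * S := by
      have := mul_le_mul hGT hAS (hA p) hT0
      calc C1 * G1 m * Ap ρ p x = C1 * (G1 m * Ap ρ p x) := by ring
        _ ≤ C1 * (T * S) := by gcongr
        _ = _ := by ring
    linarith
  · push Not at hnear
    have e2 : D0 P m x ≤ N * (C2 * kap m ^ 4 * dec8 x) := by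
      rw [hD0]
      have e3 : ∀ j ∈ P, Db P m j x ≤ C2 * kap m ^ 4 * dec8 x := fun j hj =>
        h2 m hm j hj x (hnear j hj)
      refine (Finset.sum_le_card_nsmul _ _ _ e3).trans ?_
      rw [nsmul_eq_mul, hN]
    have e3 : 0 ≤ D0 P m x := by rw [hD0]; exact Finset.sum_nonneg fun j _ => hDn j
    have e4 : c * F0 P m x ≤ C3 * (m ^ 4)⁻¹ * Bp x := by
      by_cases hO : x ∈ Om
      · have := h3 m hm x hO hx1 hnear
        have hBe : Bp x = th (x 0) * Real.exp (4 * qq x) := by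
          unfold Bp
          rw [indicator_of_mem hO]
        rw [hBe]
        calc c * F0 P m x ≤ 1 * F0 P m x := by gcongr
          _ = F0 P m x := one_mul _
          _ ≤ _ := this
      · rw [hcO hO, zero_mul]
        positivity
    have e5 : 0 ≤ c * F0 P m x := by positivity
    have e6 : |c * F0 P m x - D0 P m x| ≤ c * F0 P m x + D0 P m x := by
      rw [abs_le]
      constructor <;> linarith
    have e9 : C3 * (m ^ 4)⁻¹ * Bp x ≤ C3 * T * S := by
      have := mul_le_mul hmT hBS hB hT0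
      calc C3 * (m ^ 4)⁻¹ * Bp x = C3 * ((m ^ 4)⁻¹ * Bp x) := by ring
        _ ≤ C3 * (T * S) := by gcongr
        _ = _ := by ring
    linarith

end

end Pool.Agent.K7.H86.QC
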