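import Pool.Agent.K7.H86.QC.Major

/-! The sequences `u_n`, `V_n` and their integral estimates. -/

set_option autoImplicit false

open MeasureTheory Set Filter Topology Metric
open scoped ContDiff Laplacian InnerProductSpace ENNReal

namespace Pool.Agent.K7.H86.QC

/-- the parameter -/
noncomputable def mm (n : ℕ) : ℝ := (n : ℝ) + 1

lemma mm_one (n : ℕ) : 1 ≤ mm n := by unfold mm; linarith [Nat.cast_nonneg (α := ℝ) n]
lemma mm_pos (n : ℕ) : 0 < mm n := by linarith [mm_one n]
lemma mm_top : Tendsto mm atTop atTop := tendsto_atTop_add_const_right _ _ tendsto_natCast_atTop_atTop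

section
variable (P : Finset E)

/-- the error -/
noncomputable def fn (n : ℕ) (x : E) : ℝ := chi n x * F0 P (mm n) x - D0 P (mm n) x

/-- the correction -/
noncomputable def ww (n : ℕ) : E → ℝ := Pot (fn P n)

/-- the solutions -/
noncomputable def uu (n : ℕ) (x : E) : ℝ := u0 P (mm n) x + ww P n x

/-- the curvatures -/
noncomputable def VV (n : ℕ) (x : E) : ℝ := chi n x * Real.exp (-4 * ww P n x)

lemma fn_Gr (n N : ℕ) : Gr N (-6) (fn P n) := by
  unfold fn
  have h1 : Gr N (-6) (fun x => chi n x * F0 P (mm n) x) :=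
    Gr.of_compact ((chi_contDiff n).mul (F0_contDiff P (mm_pos n))) (chi_compact n).mul_right N _
  exact h1.sub (D0_Gr P (mm_pos n) N)

lemma ww_contDiff (n : ℕ) : ContDiff ℝ ∞ (ww P n) := Pot_contDiff (fn_Gr P n)

lemma uu_contDiff (n : ℕ) : ContDiff ℝ ∞ (uu P n) := (u0_contDiff P (mm_pos n)).add (ww_contDiff P n)

lemma bilap_uu (n : ℕ) (x : E) : (Δ (Δ (uu P n))) x = chi n x * F0 P (mm n) x := by
  have h1 : Δ (uu P n) = fun x => (Δ (u0 P (mm n))) x + (Δ (ww P n)) x := by
    ext x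
    exact lap_add (u0_contDiff P (mm_pos n)) (ww_contDiff P n) x
  rw [h1, lap_add (lap_smooth (u0_contDiff P (mm_pos n))) (lap_smooth (ww_contDiff P n)),
    bilap_u0 P (mm_pos n)]
  unfold ww
  rw [bilap_Pot (fn_Gr P n)]
  unfold fn
  ring

lemma V_exp (n : ℕ) (x : E) : VV P n x * Real.exp (4 * uu P n x) = chi n x * F0 P (mm n) x := by
  unfold VV uu F0
  rw [mul_assoc, ← Real.exp_add]
  congr 2
  ring

lemma eqn (n : ℕ) (x : E) : (Δ (Δ (uu P n))) x = VV P n x * Real.exp (4 * uu P n x) := by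
  rw [bilap_uu, V_exp]

end

section
variable {P : Finset E} {ρ M : ℝ}

/-- the small rate -/
noncomputable def rate (m : ℝ) : ℝ := G1 m + kap m ^ 4 + (m ^ 4)⁻¹

lemma kap_tendsto : Tendsto kap atTop (𝓝 0) := by
  have h1 : Tendsto (fun x : ℝ => x * Real.exp (-x)) atTop (𝓝 0) := by
    have := Real.tendsto_pow_mul_exp_neg_atTop_nhds_zero 1
    simpa using this
  refine squeeze_zero' ?_ ?_ h1
  · filter_upwards [eventually_gt_atTop 0] with m hm
    exact (kap_pos hm).le
  · filter_upwards [eventually_ge_atTop 1] with m hm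
    unfold kap
    have h2 : m ≤ m ^ 64 := le_self_pow₀ hm (by norm_num)
    have h3 : Real.exp (-(4 / 3) * m ^ 64) ≤ Real.exp (-m) := Real.exp_le_exp.2 (by nlinarith)
    have h4 := Real.exp_pos (-(4 / 3) * m ^ 64)
    calc 1 / 2 * m * Real.exp (-(4 / 3) * m ^ 64) ≤ 1 * m * Real.exp (-m) := by
          gcongr
          norm_num
      _ = _ := by ring

lemma G1_tendsto : Tendsto G1 atTop (𝓝 0) := by
  have h1 : Tendsto (fun x : ℝ => x ^ 2 * Real.exp (-(19 / 48) * x)) atTop (𝓝 0) := by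
    have h2 := Real.tendsto_pow_mul_exp_neg_atTop_nhds_zero 2
    have h3 : Tendsto (fun x : ℝ => 19 / 48 * x) atTop atTop :=
      tendsto_id.const_mul_atTop (by norm_num)
    have h4 := (h2.comp h3).const_mul ((48 / 19) ^ 2)
    rw [mul_zero] at h4
    refine h4.congr fun x => ?_
    simp only [Function.comp]
    rw [show -(19 / 48 * x) = -(19 / 48) * x by ring]
    ring
  have h2 : Tendsto (fun m : ℝ => m ^ 64) atTop atTop := tendsto_pow_atTop (by norm_num)
  refine (h1.comp h2).congr fun m => ?_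
  simp only [Function.comp]
  unfold G1
  ring

lemma rate_tendsto : Tendsto (fun n => rate (mm n)) atTop (𝓝 0) := by
  have h1 : Tendsto rate atTop (𝓝 (0 + 0 ^ 4 + 0)) := by
    unfold rate
    apply (G1_tendsto.add (kap_tendsto.pow 4)).add
    exact tendsto_inv_atTop_zero.comp (tendsto_pow_atTop (by norm_num))
  have h2 : Tendsto (fun n => rate (mm n)) atTop (𝓝 (0 + 0 ^ 4 + 0)) := h1.comp mm_top
  norm_num at h2
  exact h2

lemma rate_nonneg {m : ℝ} (hm : 1 ≤ m) : 0 ≤ rate m := by
  unfold rate G1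
  have := kap_pos (show 0 < m by linarith)
  positivity

lemma chi_near (h : Cfg P ρ M) : ∀ᶠ n in atTop, ∀ x : E, (∃ p ∈ P, ‖x - p‖ < ρ) → chi n x = 1 := by
  have hK : IsCompact (⋃ p ∈ P, closedBall p (ρ / 1)) := by
    apply P.isCompact_biUnion
    intro p _
    exact isCompact_closedBall _ _
  have hKO : (⋃ p ∈ P, closedBall p (ρ / 1)) ⊆ Om := by
    intro x hx
    simp only [mem_iUnion] at hx
    obtain ⟨p, hp, hx⟩ := hx
    rw [mem_closedBall, dist_eq_norm, div_one] at hx
    have h1 := abs_coord_le (x - p) 0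
    have h2 := h.first p hp
    have h3 := h.rho_le
    simp only [PiLp.sub_apply, h2] at h1
    have h4 := abs_le.1 (h1.trans (hx.trans h3))
    constructor <;> linarith [h4.1, h4.2]
  filter_upwards [KK_exhaust hK hKO] with n hn x hx
  obtain ⟨p, hp, hx⟩ := hx
  apply (chi_one n x (hn ?_)).self_of_nhds
  simp only [mem_iUnion]
  refine ⟨p, hp, ?_⟩
  rw [mem_closedBall, dist_eq_norm, div_one]
  exact hx.le

/-- almost every point is neither a concentration point nor on the critical plane -/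
lemma ae_good (P : Finset E) : ∀ᵐ x : E, x ∉ P ∧ x 0 ≠ 1 := by
  have h1 : ∀ᵐ x : E, x ∉ P := by
    have : (volume : Measure E) (P : Set E) = 0 := P.measure_zero _
    rw [ae_iff]
    simpa using this
  have h2 : ∀ᵐ x : E, x 0 ≠ 1 := by
    rw [ae_iff]
    have hs : {x : E | ¬ x 0 ≠ 1} = ((AffineSubspace.comap (EuclideanSpace.proj 0 : E →L[ℝ] ℝ).toLinearMap.toAffineMap
        (AffineSubspace.mk' (1 : ℝ) ⊥)) : Set E) := by
      ext x
      simp [sub_eq_zero]
    rw [hs]
    apply Measure.addHaar_affineSubspace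
    intro htop
    have h0 : (0 : E) ∈ (⊤ : AffineSubspace ℝ E) := AffineSubspace.mem_top _ _ _
    rw [← htop] at h0
    simp at h0
  filter_upwards [h1, h2] with x hx1 hx2 using ⟨hx1, hx2⟩

/-- the error is small with respect to the majorant -/
lemma fn_small (h : Cfg P ρ M) : ∃ C : ℝ, 0 ≤ C ∧ ∀ᶠ n in atTop, ∀ x : E, x ∉ P → x 0 ≠ 1 →
    |fn P n x| ≤ C * rate (mm n) * Psi P ρ x ∧
    (x ∈ Om → |F0 P (mm n) x - D0 P (mm n) x| ≤ C * rate (mm n) * Psi P ρ x) := by
  obtain ⟨C, hC, hb⟩ := main_bound h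
  refine ⟨C, hC, ?_⟩
  filter_upwards [chi_near h] with n hn x hxP hx1
  constructor
  · exact hb (mm n) (mm_one n) x hxP hx1 (chi n x) (chi_Icc n x).1 (chi_Icc n x).2 (hn x)
      (fun hO => chi_zero n x fun hK => hO (KK_sub_Om _ hK))
  · intro hO
    have := hb (mm n) (mm_one n) x hxP hx1 1 zero_le_one le_rfl (fun _ => rfl) (fun hO' => absurd hO hO')
    rwa [one_mul] at this

lemma fn_cont (n : ℕ) : Continuous (fn P n) := (fn_Gr P n 0).1.continuous

lemma Good.integrable {Ψ : E → ℝ} (h : Good Ψ) : Integrable Ψ := by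
  refine h.int1.mono' h.meas.aestronglyMeasurable (ae_of_all _ fun y => ?_)
  rw [Real.norm_of_nonneg (h.nonneg y)]
  nlinarith [h.nonneg y, norm_nonneg y, mul_nonneg (norm_nonneg y) (h.nonneg y)]

/-- the error tends to zero in `L¹` -/
lemma fn_L1 (h : Cfg P ρ M) : Tendsto (fun n => ∫ x, |fn P n x|) atTop (𝓝 0) := by
  obtain ⟨C, hC, hb⟩ := fn_small h
  have hG := Psi_good P (h.rho_le.trans (by norm_num))
  have h1 : Tendsto (fun n => C * rate (mm n) * ∫ x, Psi P ρ x) atTop (𝓝 (C * 0 * ∫ x, Psi P ρ x)) :=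
    (rate_tendsto.const_mul C).mul_const _
  rw [mul_zero, zero_mul] at h1
  refine squeeze_zero' (Eventually.of_forall fun n => integral_nonneg fun x => abs_nonneg _) ?_ h1
  filter_upwards [hb] with n hn
  rw [← integral_const_mul]
  apply integral_mono_ae
  · exact ((fn_Gr P n 0).integrable (by norm_num)).abs
  · exact hG.integrable.const_mul _
  · filter_upwards [ae_good P] with x hx
    exact (hn x hx.1 hx.2).1

/-- the correction is small, with at most linear growth -/
lemma ww_small (h : Cfg P ρ M) {ε : ℝ} (hε : 0 < ε) :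
    ∀ᶠ n in atTop, ∀ x : E, |ww P n x| ≤ ε * (1 + ‖x‖) := by
  obtain ⟨C, hC, hb⟩ := fn_small h
  have hG := Psi_good P (h.rho_le.trans (by norm_num))
  obtain ⟨C', hC', hpot⟩ := hG.pot
  have h1 : Tendsto (fun n => 1 / (8 * Real.pi ^ 2) * (C * rate (mm n)) * C') atTop
      (𝓝 (1 / (8 * Real.pi ^ 2) * (C * 0) * C')) :=
    ((rate_tendsto.const_mul C).const_mul _).mul_const _
  rw [mul_zero, mul_zero, zero_mul] at h1
  filter_upwards [hb, h1.eventually_le_const hε] with n hn hrate x
  obtain ⟨hint, hle⟩ := hpot x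
  have h2 : T (fun z : E => Real.log ‖z‖) (fn P n) x = ∫ y, Real.log ‖x - y‖ * fn P n y := by
    unfold T
    rw [← integral_sub_left_eq_self _ _ x]
    simp only [sub_sub_cancel, smul_eq_mul]
  have h3 : |∫ y, Real.log ‖x - y‖ * fn P n y| ≤ (C * rate (mm n)) * (C' * (1 + ‖x‖)) := by
    calc |∫ y, Real.log ‖x - y‖ * fn P n y| ≤ ∫ y, |Real.log ‖x - y‖ * fn P n y| :=
          abs_integral_le_integral_abs
      _ ≤ ∫ y, (C * rate (mm n)) * (|Real.log ‖x - y‖| * Psi P ρ y) := by
          apply integral_mono_of_nonneg (ae_of_all _ fun y => abs_nonneg _) (hint.const_mul _)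
          filter_upwards [ae_good P] with y hy
          have := (hn y hy.1 hy.2).1
          rw [abs_mul]
          calc |Real.log ‖x - y‖| * |fn P n y| ≤ |Real.log ‖x - y‖| * (C * rate (mm n) * Psi P ρ y) := by
                gcongr
            _ = _ := by ring
      _ = (C * rate (mm n)) * ∫ y, |Real.log ‖x - y‖| * Psi P ρ y := integral_const_mul _ _
      _ ≤ _ := by
          have := rate_nonneg (mm_one n)
          gcongr
  unfold ww Pot
  rw [h2, abs_mul, abs_neg, abs_of_nonneg (by positivity)]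
  calc 1 / (8 * Real.pi ^ 2) * |∫ y, Real.log ‖x - y‖ * fn P n y|
      ≤ 1 / (8 * Real.pi ^ 2) * ((C * rate (mm n)) * (C' * (1 + ‖x‖))) := by gcongr
    _ = (1 / (8 * Real.pi ^ 2) * (C * rate (mm n)) * C') * (1 + ‖x‖) := by ring
    _ ≤ _ := by gcongr

/-! ### the curvatures -/

lemma VV_cont (n : ℕ) : Continuous (VV P n) := by
  unfold VV
  have h1 := (chi_contDiff n).continuous
  have h2 := (ww_contDiff P n).continuous
  fun_prop

lemma VV_compact (n : ℕ) : HasCompactSupport (VV P n) := (chi_compact n).mul_right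

lemma VV_memLp (n : ℕ) : MemLp (VV P n) ⊤ (volume.restrict Om) := by
  obtain ⟨C, hC⟩ := (VV_compact (P := P) n).exists_bound_of_continuous (VV_cont n)
  exact memLp_top_of_bound (VV_cont n).aestronglyMeasurable C (ae_of_all _ hC)

lemma VV_nonneg (n : ℕ) (x : E) : 0 ≤ VV P n x := mul_nonneg (chi_Icc n x).1 (Real.exp_pos _).le

lemma VV_tendsto (h : Cfg P ρ M) : TendstoLocallyUniformlyOn (VV P) (fun _ => 1) atTop Om := by
  rw [tendstoLocallyUniformlyOn_iff_forall_isCompact Om_open]
  intro K hKO hK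
  rw [Metric.tendstoUniformlyOn_iff]
  intro ε hε
  obtain ⟨R, hR⟩ := hK.isBounded.subset_closedBall (0 : E)
  -- choose `δ` with `|exp t - 1| < ε` for `|t| ≤ 4 δ`
  have hcont : ContinuousAt (fun t : ℝ => Real.exp t) 0 := Real.continuous_exp.continuousAt
  rw [Metric.continuousAt_iff] at hcont
  obtain ⟨δ, hδ, hδ'⟩ := hcont ε hε
  have hR' : 0 < 1 + |R| := by positivity
  filter_upwards [KK_exhaust hK hKO, ww_small h (ε := δ / (8 * (1 + |R|))) (by positivity)]
    with n hn1 hn2 x hx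
  have hchi : chi n x = 1 := (chi_one n x (hn1 hx)).self_of_nhds
  have hx' : ‖x‖ ≤ |R| := by
    have := hR hx
    rw [mem_closedBall_zero_iff] at this
    exact this.trans (le_abs_self R)
  have h1 := hn2 x
  have h2 : |ww P n x| ≤ δ / 8 := by
    calc |ww P n x| ≤ δ / (8 * (1 + |R|)) * (1 + ‖x‖) := h1
      _ ≤ δ / (8 * (1 + |R|)) * (1 + |R|) := by gcongr
      _ = δ / 8 := by field_simp
  unfold VV
  rw [hchi, one_mul, dist_comm]
  have h3 := @hδ' (-4 * ww P n x) (by
    rw [Real.dist_eq, sub_zero, abs_mul]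
    norm_num
    linarith)
  rwa [Real.exp_zero] at h3

end

end Pool.Agent.K7.H86.QC
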