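import Mathlib

/-! The operator `T a g x = ∫ a z • g (x - z) dz` and differentiation under the integral sign. -/

set_option autoImplicit false

open MeasureTheory Set Filter Topology Metric
open scoped ContDiff

namespace Pool.Agent.K7.H86.QC

section
variable {V : Type} [NormedAddCommGroup V] [InnerProductSpace ℝ V] [FiniteDimensional ℝ V]
  [MeasurableSpace V] [BorelSpace V]
variable {F : Type} [NormedAddCommGroup F] [NormedSpace ℝ F]

/-- the integral operator -/
noncomputable def T (a : V → ℝ) (g : V → F) (x : V) : F := ∫ z, a z • g (x - z)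

/-- local domination -/
def Dom (a : V → ℝ) (g : V → F) : Prop :=
  ∀ R : ℝ, ∃ b : V → ℝ, Integrable b ∧ ∀ x z, ‖x‖ ≤ R → ‖a z‖ * ‖g (x - z)‖ ≤ b z

lemma Dom.integrable {a : V → ℝ} {g : V → F} (h : Dom a g) (ha : AEStronglyMeasurable a)
    (hg : Continuous g) (x : V) : Integrable (fun z => a z • g (x - z)) := by
  obtain ⟨b, hb, hbd⟩ := h ‖x‖
  refine hb.mono' (ha.smul ?_) (ae_of_all _ fun z => ?_)
  · have : Continuous (fun z => g (x - z)) := hg.comp (by fun_prop)
    exact this.aestronglyMeasurable
  · rw [norm_smul]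
    exact hbd x z le_rfl

lemma T_hasFDerivAt {a : V → ℝ} {g : V → F} (ha : AEStronglyMeasurable a)
    (hg : ContDiff ℝ 1 g) (h0 : Dom a g) (h1 : Dom a (fderiv ℝ g)) (x : V) :
    HasFDerivAt (T a g) (T a (fderiv ℝ g) x) x := by
  obtain ⟨b, hb, hbd⟩ := h1 (‖x‖ + 1)
  have hgd : Continuous (fderiv ℝ g) := hg.continuous_fderiv (by norm_num)
  have hb' : ball x 1 ∈ 𝓝 x := ball_mem_nhds x one_pos
  refine hasFDerivAt_integral_of_dominated_of_fderiv_le (F := fun x z => a z • g (x - z))
    (F' := fun x z => a z • fderiv ℝ g (x - z)) (bound := b) hb'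
    ?_ ?_ ?_ ?_ hb ?_
  · filter_upwards with y
    exact (h0.integrable ha hg.continuous y).1
  · exact h0.integrable ha hg.continuous x
  · exact (h1.integrable ha hgd x).1
  · refine ae_of_all _ fun z y hy => ?_
    rw [norm_smul]
    apply hbd
    have : ‖y‖ ≤ ‖x‖ + ‖y - x‖ := by
      calc ‖y‖ = ‖x + (y - x)‖ := by congr 1; abel
        _ ≤ _ := norm_add_le _ _
    rw [mem_ball, dist_eq_norm] at hy
    linarith
  · refine ae_of_all _ fun z y _ => ?_
    have h2 : HasFDerivAt g (fderiv ℝ g (y - z)) (y - z) :=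
      (hg.differentiable (by norm_num) (y - z)).hasFDerivAt
    have h3 : HasFDerivAt (fun y : V => g (y - z)) (fderiv ℝ g (y - z)) y :=
      h2.comp y ((hasFDerivAt_id y).sub_const z)
    exact h3.const_smul (a z)

/-- Derivatives of all orders pass to the second function. -/
lemma T_iter {a : V → ℝ} {g : V → F} [CompleteSpace F] (ha : AEStronglyMeasurable a) {n : ℕ}
    (hg : ContDiff ℝ n g) (h : ∀ j ≤ n, Dom a (iteratedFDeriv ℝ j g)) :
    ∀ j ≤ n, iteratedFDeriv ℝ j (T a g) = T a (iteratedFDeriv ℝ j g) := by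
  have hcont : ∀ j < n, ContDiff ℝ 1 (iteratedFDeriv ℝ j g) := by
    intro j hj
    apply hg.iteratedFDeriv_right (m := 1) (i := j)
    norm_cast
    omega
  have hdom : ∀ j < n, Dom a (fderiv ℝ (iteratedFDeriv ℝ j g)) := by
    intro j hj R
    obtain ⟨b, hb, hbd⟩ := h (j + 1) hj R
    refine ⟨b, hb, fun x z hx => ?_⟩
    have := hbd x z hx
    rwa [← norm_fderiv_iteratedFDeriv] at this
  intro j
  induction j with
  | zero =>
    intro _
    ext x m
    simp only [iteratedFDeriv_zero_apply, T]
    have h1 : ∀ z, a z • iteratedFDeriv ℝ 0 g (x - z)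
        = (continuousMultilinearCurryFin0 ℝ V F).symm (a z • g (x - z)) := by
      intro z
      ext m
      simp
    simp_rw [h1]
    have h2 := ((continuousMultilinearCurryFin0 ℝ V F).symm.toContinuousLinearEquiv).integral_comp_comm
      (fun z => a z • g (x - z)) (μ := volume)
    have h3 : ∫ z, (continuousMultilinearCurryFin0 ℝ V F).symm (a z • g (x - z))
      = (continuousMultilinearCurryFin0 ℝ V F).symm (∫ z, a z • g (x - z)) := h2
    rw [h3]
    simp
  | succ j ih =>
    intro hj
    have ih' := ih (by omega)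
    rw [iteratedFDeriv_succ_eq_comp_left, ih']
    ext1 x
    have h1 := T_hasFDerivAt ha (hcont j hj) (h j (by omega)) (hdom j hj) x
    ext m
    rw [Function.comp_apply, h1.fderiv]
    have hi1 := (hdom j hj).integrable ha ((hcont j hj).continuous_fderiv (by norm_num)) x
    have hi2 : Integrable (fun z => a z • iteratedFDeriv ℝ (j + 1) g (x - z)) :=
      (h (j + 1) hj).integrable ha (hg.continuous_iteratedFDeriv (by exact_mod_cast hj)) x
    have hi3 := hi1.apply_continuousLinearMap (m 0)
    show (T a (fderiv ℝ (iteratedFDeriv ℝ j g)) x) (m 0) (Fin.tail m)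
      = (T a (iteratedFDeriv ℝ (j + 1) g) x) m
    unfold T
    rw [ContinuousMultilinearMap.integral_apply hi2, ContinuousLinearMap.integral_apply hi1,
      ContinuousMultilinearMap.integral_apply hi3]
    rfl

lemma T_contDiff {a : V → ℝ} {g : V → F} [CompleteSpace F] (ha : AEStronglyMeasurable a) {n : ℕ}
    (hg : ContDiff ℝ n g) (h : ∀ j ≤ n, Dom a (iteratedFDeriv ℝ j g)) :
    ContDiff ℝ n (T a g) := by
  rw [contDiff_nat_iff_continuous_differentiable]
  have key := T_iter ha hg h
  have hdiff : ∀ m : ℕ, m < n → Differentiable ℝ (iteratedFDeriv ℝ m (T a g)) := by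
    intro j hj x
    rw [key j hj.le]
    have hdom : Dom a (fderiv ℝ (iteratedFDeriv ℝ j g)) := by
      intro R
      obtain ⟨b, hb, hbd⟩ := h (j + 1) hj R
      refine ⟨b, hb, fun x z hx => ?_⟩
      have := hbd x z hx
      rwa [← norm_fderiv_iteratedFDeriv] at this
    have hcont : ContDiff ℝ 1 (iteratedFDeriv ℝ j g) := by
      apply hg.iteratedFDeriv_right (m := 1) (i := j)
      norm_cast
      omega
    exact (T_hasFDerivAt ha hcont (h j hj.le) hdom x).differentiableAt
  constructor
  · intro m hm
    have hm' : m ≤ n := by exact_mod_cast hm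
    rw [key m hm']
    -- continuity by dominated convergence
    rw [continuous_iff_continuousAt]
    intro x
    obtain ⟨b, hb, hbd⟩ := h m hm' (‖x‖ + 1)
    have hc : Continuous (iteratedFDeriv ℝ m g) := hg.continuous_iteratedFDeriv (by exact_mod_cast hm')
    apply tendsto_integral_filter_of_dominated_convergence b
    · filter_upwards with y
      exact ((h m hm').integrable ha hc y).1
    · filter_upwards [ball_mem_nhds x one_pos] with y hy
      refine ae_of_all _ fun z => ?_
      rw [norm_smul]
      apply hbd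
      have : ‖y‖ ≤ ‖x‖ + ‖y - x‖ := by
        calc ‖y‖ = ‖x + (y - x)‖ := by congr 1; abel
          _ ≤ _ := norm_add_le _ _
      rw [mem_ball, dist_eq_norm] at hy
      linarith
    · exact hb
    · refine ae_of_all _ fun z => ?_
      have h5 : Continuous (fun y : V => y - z) := by fun_prop
      have h6 : Continuous (fun y : V => iteratedFDeriv ℝ m g (y - z)) := hc.comp h5
      exact (h6.const_smul (a z)).tendsto x
  · intro m hm
    exact hdiff m (by exact_mod_cast hm)

/-- The two functions may be exchanged. -/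
lemma T_comm (a g : V → ℝ) (x : V) : T a g x = T g a x := by
  unfold T
  rw [← integral_sub_left_eq_self _ _ x]
  congr 1
  ext z
  simp [mul_comm]

end

end Pool.Agent.K7.H86.QC
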