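import Pool.Agent.K7.H86.QC.Conc

/-! Sequences of functions with uniformly bounded derivatives on a set. -/

set_option autoImplicit false

open MeasureTheory Set Filter Topology Metric
open scoped ContDiff Laplacian InnerProductSpace ENNReal

namespace Pool.Agent.K7.H86.QC

section
variable {F : Type} [NormedAddCommGroup F] [NormedSpace ℝ F]

/-- derivatives of order at most `N` are eventually uniformly bounded on `S` -/
def UB (N : ℕ) (S : Set E) (f : ℕ → E → F) : Prop :=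
  (∀ n, ContDiff ℝ ∞ (f n)) ∧ ∀ j ≤ N, ∃ C : ℝ, 0 ≤ C ∧ ∀ᶠ n in atTop, ∀ x ∈ S,
    ‖iteratedFDeriv ℝ j (f n) x‖ ≤ C

lemma UB.mono {N N' : ℕ} {S S' : Set E} {f : ℕ → E → F} (h : UB N S f) (hN : N' ≤ N) (hS : S' ⊆ S) :
    UB N' S' f := by
  refine ⟨h.1, fun j hj => ?_⟩
  obtain ⟨C, hC, hb⟩ := h.2 j (hj.trans hN)
  exact ⟨C, hC, hb.mono fun n hn x hx => hn x (hS hx)⟩

lemma UB.add {N : ℕ} {S : Set E} {f g : ℕ → E → F} (hf : UB N S f) (hg : UB N S g) :
    UB N S (fun n x => f n x + g n x) := by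
  refine ⟨fun n => (hf.1 n).add (hg.1 n), fun j hj => ?_⟩
  obtain ⟨C, hC, hb⟩ := hf.2 j hj
  obtain ⟨D, hD, hd⟩ := hg.2 j hj
  refine ⟨C + D, by positivity, ?_⟩
  filter_upwards [hb, hd] with n hn1 hn2 x hx
  have h1 : iteratedFDeriv ℝ j (fun x => f n x + g n x) x
      = iteratedFDeriv ℝ j (f n) x + iteratedFDeriv ℝ j (g n) x :=
    iteratedFDeriv_add_apply ((hf.1 n).contDiffAt.of_le (by exact_mod_cast le_top))
      ((hg.1 n).contDiffAt.of_le (by exact_mod_cast le_top))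
  rw [h1]
  exact (norm_add_le _ _).trans (add_le_add (hn1 x hx) (hn2 x hx))

lemma UB.smul {N : ℕ} {S : Set E} {f : ℕ → E → ℝ} {g : ℕ → E → F} (hf : UB N S f) (hg : UB N S g) :
    UB N S (fun n x => f n x • g n x) := by
  refine ⟨fun n => (hf.1 n).smul (hg.1 n), fun j hj => ?_⟩
  choose! C hC hb using hf.2
  choose! D hD hd using hg.2
  refine ⟨∑ i ∈ Finset.range (j + 1), (j.choose i : ℝ) * C i * D (j - i), ?_, ?_⟩
  · refine Finset.sum_nonneg fun i hi => ?_
    rw [Finset.mem_range] at hi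
    have := hC i (by omega)
    have := hD (j - i) (by omega)
    positivity
  · have hb' : ∀ᶠ n in atTop, ∀ i ∈ Finset.range (j + 1), ∀ x ∈ S,
        ‖iteratedFDeriv ℝ i (f n) x‖ ≤ C i := by
      rw [eventually_all_finset]
      intro i hi
      rw [Finset.mem_range] at hi
      exact hb i (by omega)
    have hd' : ∀ᶠ n in atTop, ∀ i ∈ Finset.range (j + 1), ∀ x ∈ S,
        ‖iteratedFDeriv ℝ i (g n) x‖ ≤ D i := by
      rw [eventually_all_finset]
      intro i hi
      rw [Finset.mem_range] at hi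
      exact hd i (by omega)
    filter_upwards [hb', hd'] with n hn1 hn2 x hx
    refine (norm_iteratedFDeriv_smul_le (hf.1 n) (hg.1 n) x (by exact_mod_cast le_top)).trans ?_
    refine Finset.sum_le_sum fun i hi => ?_
    have h1 := hn1 i hi x hx
    have h2 := hn2 (j - i) (by rw [Finset.mem_range] at hi ⊢; omega) x hx
    have h3 : 0 ≤ C i := by rw [Finset.mem_range] at hi; exact hC i (by omega)
    gcongr

lemma UB.mul {N : ℕ} {S : Set E} {f g : ℕ → E → ℝ} (hf : UB N S f) (hg : UB N S g) :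
    UB N S (fun n x => f n x * g n x) := hf.smul hg

lemma UB.const {N : ℕ} {S : Set E} (hS : IsCompact S) {g : E → F} (hg : ContDiff ℝ ∞ g) :
    UB N S (fun _ => g) := by
  refine ⟨fun _ => hg, fun j _ => ?_⟩
  have h2 : Continuous (iteratedFDeriv ℝ j g) := hg.continuous_iteratedFDeriv (by exact_mod_cast le_top)
  obtain ⟨C, hC⟩ := hS.exists_bound_of_continuousOn h2.continuousOn
  exact ⟨max C 0, le_max_right _ _, Eventually.of_forall fun n x hx => (hC x hx).trans (le_max_left _ _)⟩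

lemma UB.scal {N : ℕ} {S : Set E} {c : ℕ → ℝ} {C : ℝ} (hc : ∀ᶠ n in atTop, |c n| ≤ C) (hC : 0 ≤ C) :
    UB N S (fun n (_ : E) => c n) := by
  refine ⟨fun n => contDiff_const, fun j _ => ⟨C, hC, ?_⟩⟩
  filter_upwards [hc] with n hn x _
  rcases j with _ | j
  · rw [norm_iteratedFDeriv_zero]; exact hn
  · rw [iteratedFDeriv_succ_const]
    simpa using hC

lemma UB.neg {N : ℕ} {S : Set E} {f : ℕ → E → ℝ} (hf : UB N S f) : UB N S (fun n x => - f n x) := by
  have h1 := (UB.scal (N := N) (S := S) (c := fun _ => (-1 : ℝ)) (C := 1) (by simp) zero_le_one).mul hf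
  simpa using h1

lemma UB.sub {N : ℕ} {S : Set E} {f g : ℕ → E → ℝ} (hf : UB N S f) (hg : UB N S g) :
    UB N S (fun n x => f n x - g n x) := by
  have := hf.add hg.neg
  simpa [sub_eq_add_neg] using this

lemma UB.sum {N : ℕ} {S : Set E} {ι : Type*} (s : Finset ι) {f : ι → ℕ → E → ℝ}
    (h : ∀ i ∈ s, UB N S (f i)) : UB N S (fun n x => ∑ i ∈ s, f i n x) := by
  classical
  induction s using Finset.induction_on with
  | empty =>
    have := UB.scal (N := N) (S := S) (c := fun _ => (0 : ℝ)) (C := 0) (by simp) le_rfl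
    simpa using this
  | insert i s hi ih =>
    have h1 := (h i (Finset.mem_insert_self _ _)).add (ih fun k hk => h k (Finset.mem_insert_of_mem hk))
    simpa [Finset.sum_insert hi] using h1

lemma UB.prod {N : ℕ} {S : Set E} {ι : Type*} (s : Finset ι) {f : ι → ℕ → E → ℝ}
    (h : ∀ i ∈ s, UB N S (f i)) : UB N S (fun n x => ∏ i ∈ s, f i n x) := by
  classical
  induction s using Finset.induction_on with
  | empty =>
    have := UB.scal (N := N) (S := S) (c := fun _ => (1 : ℝ)) (C := 1) (by simp) zero_le_one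
    simpa using this
  | insert i s hi ih =>
    have h1 := (h i (Finset.mem_insert_self _ _)).mul (ih fun k hk => h k (Finset.mem_insert_of_mem hk))
    simpa [Finset.prod_insert hi] using h1

lemma UB.of_fderiv {N : ℕ} {S : Set E} {g : ℕ → E → F} (hg : ∀ n, ContDiff ℝ ∞ (g n))
    (h0 : ∃ C : ℝ, 0 ≤ C ∧ ∀ᶠ n in atTop, ∀ x ∈ S, ‖g n x‖ ≤ C)
    (h : UB N S (fun n => fderiv ℝ (g n))) : UB (N + 1) S g := by
  refine ⟨hg, fun j hj => ?_⟩
  rcases j with _ | j
  · simpa using h0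
  · obtain ⟨C, hC, hb⟩ := h.2 j (by omega)
    refine ⟨C, hC, hb.mono fun n hn x hx => ?_⟩
    rw [← norm_iteratedFDeriv_fderiv]
    exact hn x hx

end

lemma UB.affine (N : ℕ) {S : Set E} (hS : IsCompact S) (p : E) :
    UB N S (fun _ x => ((2 : ℝ) • innerSL ℝ (E := E)) (x - p)) := by
  apply UB.const hS
  exact ((2 : ℝ) • innerSL ℝ (E := E)).contDiff.comp (contDiff_id.sub contDiff_const)

lemma UB.inv_Q {S : Set E} (hS : IsCompact S) {p : E} {η : ℝ} (hη : 0 < η)
    (hfar : ∀ x ∈ S, η ≤ ‖x - p‖) {s : ℕ → ℝ} (hs : ∀ n, 0 < s n) (N : ℕ) :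
    UB N S (fun n x => (Q (s n) p x)⁻¹) := by
  have h0 : ∃ C : ℝ, 0 ≤ C ∧ ∀ᶠ n in atTop, ∀ x ∈ S, ‖(Q (s n) p x)⁻¹‖ ≤ C := by
    refine ⟨(η ^ 2)⁻¹, by positivity, Eventually.of_forall fun n x hx => ?_⟩
    have hq := Q_pos (hs n) p x
    rw [Real.norm_of_nonneg (by positivity)]
    apply inv_anti₀ (by positivity)
    have := hfar x hx
    unfold Q
    nlinarith [sq_nonneg (s n)]
  induction N with
  | zero =>
    refine ⟨fun n => inv_Q_contDiff (hs n) p, fun j hj => ?_⟩
    obtain rfl : j = 0 := by omega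
    simpa using h0
  | succ N ih =>
    apply UB.of_fderiv (fun n => inv_Q_contDiff (hs n) p) h0
    have h1 := (ih.mul ih).neg.smul (UB.affine N hS p)
    have h2 : (fun n => fderiv ℝ (fun x => (Q (s n) p x)⁻¹))
        = fun n x => (-((Q (s n) p x)⁻¹ * (Q (s n) p x)⁻¹)) • ((2 : ℝ) • innerSL ℝ (E := E)) (x - p) := by
      ext1 n
      exact inv_Q_fderiv (hs n) p
    rw [h2]
    exact h1

lemma logQ_fderiv {s : ℝ} (hs : 0 < s) (a : E) :
    fderiv ℝ (fun x => Real.log (Q s a x))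
      = fun x => (Q s a x)⁻¹ • ((2 : ℝ) • innerSL ℝ (E := E)) (x - a) := by
  ext1 x
  have h := (Real.hasDerivAt_log (Q_pos hs a x).ne').comp_hasFDerivAt x (Q_hasFDerivAt s a x)
  have h' : fderiv ℝ (fun x => Real.log (Q s a x)) x = _ := h.fderiv
  rw [h']
  rfl

lemma UB.logQ {S : Set E} (hS : IsCompact S) {p : E} {η : ℝ} (hη : 0 < η)
    (hfar : ∀ x ∈ S, η ≤ ‖x - p‖) {s : ℕ → ℝ} (hs : ∀ n, 0 < s n) {B : ℝ} (hB : ∀ n, s n ≤ B) (N : ℕ) :
    UB N S (fun n x => Real.log (Q (s n) p x)) := by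
  have h0 : ∃ C : ℝ, 0 ≤ C ∧ ∀ᶠ n in atTop, ∀ x ∈ S, ‖Real.log (Q (s n) p x)‖ ≤ C := by
    obtain ⟨R, hR⟩ := hS.isBounded.subset_closedBall p
    refine ⟨|Real.log (η ^ 2)| + (B ^ 2 + R ^ 2), by positivity, Eventually.of_forall fun n x hx => ?_⟩
    have hq := Q_pos (hs n) p x
    have h1 := hfar x hx
    have h2 : ‖x - p‖ ≤ R := by
      have := hR hx
      rwa [mem_closedBall, dist_eq_norm] at this
    have h3 : η ^ 2 ≤ Q (s n) p x := by
      unfold Q
      nlinarith [sq_nonneg (s n)]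
    have h4 : Q (s n) p x ≤ B ^ 2 + R ^ 2 := by
      unfold Q
      have := hs n
      have := hB n
      gcongr
    have h5 := Real.log_le_log (by positivity) h3
    have h6 := Real.log_le_sub_one_of_pos hq
    have h7 := neg_abs_le (Real.log (η ^ 2))
    rw [Real.norm_eq_abs, abs_le]
    constructor
    · nlinarith [sq_nonneg B, sq_nonneg R]
    · linarith [abs_nonneg (Real.log (η ^ 2))]
  apply UB.mono (N := N + 1) _ (Nat.le_succ N) Subset.rfl
  apply UB.of_fderiv (fun n => logQ_contDiff (hs n) p) h0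
  have h1 := (UB.inv_Q hS hη hfar hs N).smul (UB.affine N hS p)
  have h2 : (fun n => fderiv ℝ (fun x => Real.log (Q (s n) p x)))
      = fun n x => (Q (s n) p x)⁻¹ • ((2 : ℝ) • innerSL ℝ (E := E)) (x - p) := by
    ext1 n
    exact logQ_fderiv (hs n) p
  rw [h2]
  exact h1

/-- exponentials of a large multiple of a negative function -/
lemma UB.exp_phi {S : Set E} (hS : IsCompact S) {c : ℝ} (hc : 0 < c) (hneg : ∀ x ∈ S, phi x ≤ -c)
    (N : ℕ) : UB N S (fun n x => (mm n) ^ 4 * Real.exp (4 * (mm n) ^ 64 * phi x)) := by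
  have hsm : ∀ n, ContDiff ℝ ∞ (fun x => Real.exp (4 * (mm n) ^ 64 * phi x)) := by
    intro n
    exact (contDiff_const.mul phi_contDiff).exp
  refine ⟨fun n => contDiff_const.mul (hsm n), fun j _ => ?_⟩
  -- a bound for the derivatives of `phi`
  have hphi : ∃ C : ℝ, 1 ≤ C ∧ ∀ i ≤ j, ∀ x ∈ S, ‖iteratedFDeriv ℝ i phi x‖ ≤ C := by
    have h1 : ∀ i : ℕ, ∃ C : ℝ, ∀ x ∈ S, ‖iteratedFDeriv ℝ i phi x‖ ≤ C := fun i =>
      hS.exists_bound_of_continuousOn (phi_contDiff.continuous_iteratedFDeriv (by exact_mod_cast le_top)).continuousOn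
    choose C hC using h1
    refine ⟨1 + ∑ i ∈ Finset.range (j + 1), |C i|, ?_, fun i hi x hx => ?_⟩
    · have : 0 ≤ ∑ i ∈ Finset.range (j + 1), |C i| := Finset.sum_nonneg fun i _ => abs_nonneg _
      linarith
    · have h2 : |C i| ≤ ∑ i ∈ Finset.range (j + 1), |C i| :=
        Finset.single_le_sum (f := fun i => |C i|) (fun i _ => abs_nonneg _)
          (Finset.mem_range.2 (by omega))
      have h3 := hC i x hx
      have h4 := le_abs_self (C i)
      linarith
  obtain ⟨B, hB1, hB⟩ := hphi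
  have hlim : Tendsto (fun n => (mm n) ^ 4 * ((j.factorial : ℝ) * Real.exp (-(4 * c) * (mm n) ^ 64) *
      (4 * (mm n) ^ 64 * B) ^ j)) atTop (𝓝 0) := by
    have h1 : Tendsto (fun x : ℝ => x ^ (j + 1) * Real.exp (-(4 * c) * x)) atTop (𝓝 0) := by
      have h2 := Real.tendsto_pow_mul_exp_neg_atTop_nhds_zero (j + 1)
      have h3 : Tendsto (fun x : ℝ => 4 * c * x) atTop atTop :=
        tendsto_id.const_mul_atTop (by positivity)
      have h4 := (h2.comp h3).const_mul ((4 * c)⁻¹ ^ (j + 1))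
      rw [mul_zero] at h4
      refine h4.congr fun x => ?_
      simp only [Function.comp]
      rw [show -(4 * c * x) = -(4 * c) * x by ring, mul_pow (4 * c) x, ← mul_assoc, ← mul_assoc,
        ← mul_pow, inv_mul_cancel₀ (by positivity), one_pow, one_mul]
    have h5 : Tendsto (fun n => (mm n) ^ 64) atTop atTop := (tendsto_pow_atTop (by norm_num)).comp mm_top
    have h6 := (h1.comp h5).const_mul ((j.factorial : ℝ) * (4 * B) ^ j)
    rw [mul_zero] at h6
    refine squeeze_zero (fun n => ?_) (fun n => ?_) h6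
    · have := mm_pos n
      positivity
    · have h7 := mm_one n
      have h8 := mm_pos n
      simp only [Function.comp]
      have h9 : (mm n) ^ 4 ≤ (mm n) ^ 64 := pow_le_pow_right₀ h7 (by norm_num)
      calc (mm n) ^ 4 * ((j.factorial : ℝ) * Real.exp (-(4 * c) * (mm n) ^ 64) * (4 * (mm n) ^ 64 * B) ^ j)
          ≤ (mm n) ^ 64 * ((j.factorial : ℝ) * Real.exp (-(4 * c) * (mm n) ^ 64) * (4 * (mm n) ^ 64 * B) ^ j) := by
            gcongr
        _ = _ := by
            rw [show 4 * (mm n) ^ 64 * B = (4 * B) * (mm n) ^ 64 by ring, mul_pow (4 * B)]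
            ring
  refine ⟨1, zero_le_one, ?_⟩
  filter_upwards [hlim.eventually_le_const one_pos] with n hn x hx
  refine le_trans ?_ hn
  have h8 := mm_pos n
  have h7 := mm_one n
  have h64 : 1 ≤ (mm n) ^ 64 := one_le_pow₀ h7
  have h1 : iteratedFDeriv ℝ j (fun x => (mm n) ^ 4 * Real.exp (4 * (mm n) ^ 64 * phi x)) x
      = (mm n) ^ 4 • iteratedFDeriv ℝ j (fun x => Real.exp (4 * (mm n) ^ 64 * phi x)) x := by
    have := iteratedFDeriv_const_smul_apply (a := (mm n) ^ 4) (i := j) (x := x) (𝕜 := ℝ)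
      ((hsm n).contDiffAt.of_le (by exact_mod_cast le_top))
    exact this
  rw [h1, norm_smul, Real.norm_of_nonneg (by positivity)]
  apply mul_le_mul_of_nonneg_left _ (by positivity)
  have h2 : (fun x => Real.exp (4 * (mm n) ^ 64 * phi x)) = Real.exp ∘ (fun x => 4 * (mm n) ^ 64 * phi x) := rfl
  rw [h2]
  have h3 := norm_iteratedFDeriv_comp_le (𝕜 := ℝ) (g := Real.exp) (f := fun x : E => 4 * (mm n) ^ 64 * phi x)
    (n := j) (N := ∞) Real.contDiff_exp (contDiff_const.mul phi_contDiff) (by exact_mod_cast le_top) x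
    (C := Real.exp (-(4 * c) * (mm n) ^ 64)) (D := 4 * (mm n) ^ 64 * B) ?_ ?_
  · exact h3
  · intro i _
    rw [norm_iteratedFDeriv_eq_norm_iteratedDeriv, iteratedDeriv_eq_iterate, Real.iter_deriv_exp,
      Real.norm_of_nonneg (Real.exp_pos _).le]
    apply Real.exp_le_exp.2
    have := hneg x hx
    nlinarith
  · intro i hi1 hi
    have h4 : iteratedFDeriv ℝ i (fun x : E => 4 * (mm n) ^ 64 * phi x) x
        = (4 * (mm n) ^ 64) • iteratedFDeriv ℝ i phi x := by
      have := iteratedFDeriv_const_smul_apply (a := 4 * (mm n) ^ 64) (i := i) (x := x) (𝕜 := ℝ)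
        (phi_contDiff.contDiffAt.of_le (by exact_mod_cast le_top))
      exact this
    rw [h4, norm_smul, Real.norm_of_nonneg (by positivity)]
    have h5 := hB i hi x hx
    have h6 : 1 ≤ 4 * (mm n) ^ 64 * B := by nlinarith
    calc 4 * (mm n) ^ 64 * ‖iteratedFDeriv ℝ i phi x‖ ≤ 4 * (mm n) ^ 64 * B := by gcongr
      _ ≤ (4 * (mm n) ^ 64 * B) ^ i := le_self_pow₀ h6 (by omega)

end Pool.Agent.K7.H86.QC
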